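import Pool.Agent.Run7.h751.KS.Coef
import Pool.Agent.H370R2.MV
import Pool.Agent.H307R2.LU

/-!
# The mean square of `ζ(s) ∏_{p ≤ Y} (1 - p ^ (-s)) - 1 - A(s)` on a vertical line
-/

set_option autoImplicit false

open Finset MeasureTheory

namespace Run7.h751.KS

/-- the point `σ + i t` -/
noncomputable def pt (σ t : ℝ) : ℂ := (σ : ℂ) + (t : ℂ) * Complex.I

lemma pt_re (σ t : ℝ) : (pt σ t).re = σ := by simp [pt]

lemma pt_im (σ t : ℝ) : (pt σ t).im = t := by simp [pt]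

lemma pt_norm {σ t : ℝ} (h1 : 0 ≤ σ) (h2 : σ ≤ 2) (ht : 1 ≤ t) : ‖pt σ t‖ ≤ 3 * t := by
  unfold pt
  refine (norm_add_le _ _).trans ?_
  rw [norm_mul, Complex.norm_I, mul_one, Complex.norm_real, Complex.norm_real,
    Real.norm_of_nonneg h1, Real.norm_of_nonneg (by linarith)]
  linarith

/-- the sum of length `N` -/
noncomputable def Ps (N : ℕ) (s : ℂ) : ℂ := ∑ n ∈ Icc 1 N, (n : ℂ) ^ (-s)

lemma approx {N : ℕ} (hN : 1 ≤ N) {σ t : ℝ} (h1 : 1 / 2 ≤ σ) (h2 : σ ≤ 2) (ht : 1 ≤ t) :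
    ‖riemannZeta (pt σ t) - Ps N (pt σ t)‖ ≤ (N : ℝ) ^ (1 - σ) / t + 6 * t * (N : ℝ) ^ (-σ) := by
  set s := pt σ t with hs
  have hre : s.re = σ := pt_re σ t
  have him : s.im = t := pt_im σ t
  have hs0 : 0 < s.re := by rw [hre]; linarith
  have hs1 : s ≠ 1 := by
    intro h
    rw [h, Complex.one_im] at him
    linarith
  have hN0 : (0 : ℝ) < N := by exact_mod_cast hN
  have e := Pool.Agent.H307R2.zeta_eq hN hs0 hs1
  have e1 : riemannZeta s - Ps N s = (N : ℂ) ^ (1 - s) / (s - 1) +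
      s * Pool.Agent.H307R2.TM N Pool.Agent.H307R2.Ez s := by
    rw [e]
    unfold Ps
    ring
  rw [e1]
  have n1 : ‖(N : ℂ) ^ (1 - s)‖ = (N : ℝ) ^ (1 - σ) := by
    rw [Complex.norm_natCast_cpow_of_pos (by omega), Complex.sub_re, hre, Complex.one_re]
  have n2 : t ≤ ‖s - 1‖ := by
    have h := Complex.abs_im_le_norm (s - 1)
    have h3 : (s - 1).im = t := by simp [him]
    rw [h3] at h
    exact (le_abs_self _).trans h
  have n4 := Pool.Agent.H307R2.TM_norm_le hN Pool.Agent.H307R2.Ez_norm_le hs0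
  rw [hre, one_mul] at n4
  have n3 : ‖s‖ ≤ 3 * t := pt_norm (by linarith) h2 ht
  have p0 : 0 < (N : ℝ) ^ (-σ) := Real.rpow_pos_of_pos hN0 _
  have p1 : 0 < (N : ℝ) ^ (1 - σ) := Real.rpow_pos_of_pos hN0 _
  have n5 : (N : ℝ) ^ (-σ) / σ ≤ 2 * (N : ℝ) ^ (-σ) := by
    rw [div_le_iff₀ (by linarith)]
    nlinarith
  refine (norm_add_le _ _).trans (add_le_add ?_ ?_)
  · rw [norm_div, n1]
    exact div_le_div_of_nonneg_left p1.le (by linarith) n2
  · rw [norm_mul]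
    calc ‖s‖ * ‖Pool.Agent.H307R2.TM N Pool.Agent.H307R2.Ez s‖
        ≤ (3 * t) * (2 * (N : ℝ) ^ (-σ)) := by
          refine mul_le_mul n3 (n4.trans n5) (norm_nonneg _) (by linarith)
      _ = 6 * t * (N : ℝ) ^ (-σ) := by ring

lemma Qs_norm (Y : ℕ) {s : ℂ} (hs : 0 ≤ s.re) : ‖Qs Y s‖ ≤ 2 ^ Y := by
  unfold Qs
  rw [norm_prod]
  calc ∏ p ∈ PY Y, ‖1 - (p : ℂ) ^ (-s)‖ ≤ ∏ _p ∈ PY Y, (2 : ℝ) := by
        refine prod_le_prod (fun _ _ => norm_nonneg _) fun p hp => ?_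
        have hp0 := (PY_prime hp).pos
        refine (norm_sub_le _ _).trans ?_
        rw [norm_one, Complex.norm_natCast_cpow_of_pos hp0, Complex.neg_re]
        have : (p : ℝ) ^ (-s.re) ≤ 1 :=
          Real.rpow_le_one_of_one_le_of_nonpos (by exact_mod_cast hp0) (by linarith)
        linarith
    _ = 2 ^ (PY Y).card := by rw [prod_const]
    _ ≤ 2 ^ Y := pow_le_pow_right₀ (by norm_num) (PY_card Y)

/-- `ζ(s) ∏_{p ≤ Y} (1 - p ^ (-s)) - 1 - A(s)` -/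
noncomputable def GG (Y z : ℕ) (s : ℂ) : ℂ := riemannZeta s * Qs Y s - 1 - As Y z s

lemma GG_eq (Y N z : ℕ) (hz : 1 ≤ z) (hzN : z ≤ N) (s : ℂ) :
    GG Y z s = Qs Y s * (riemannZeta s - Ps N s) +
      ∑ k ∈ Icc 1 (N * PP Y), bc Y N z k * (k : ℂ) ^ (-s) := by
  have h := split Y N z hz hzN s
  unfold GG Ps
  have e : Qs Y s * (riemannZeta s - ∑ n ∈ Icc 1 N, (n : ℂ) ^ (-s)) =
      riemannZeta s * Qs Y s - Qs Y s * ∑ n ∈ Icc 1 N, (n : ℂ) ^ (-s) := by ring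
  rw [e, h]
  ring

lemma cpow_pt {k : ℕ} (hk : 1 ≤ k) (σ t : ℝ) :
    (k : ℂ) ^ (-(pt σ t)) = ((k : ℝ) ^ (-σ) : ℝ) * (k : ℂ) ^ (-(t : ℂ) * Complex.I) := by
  have hk0 : (k : ℂ) ≠ 0 := by exact_mod_cast (by omega : k ≠ 0)
  unfold pt
  rw [show -((σ : ℂ) + (t : ℂ) * Complex.I) = (-σ : ℝ) + (-(t : ℂ) * Complex.I) by push_cast; ring,
    Complex.cpow_add _ _ hk0]
  congr 1
  rw [Complex.ofReal_cpow (Nat.cast_nonneg k), Complex.ofReal_natCast]

lemma diff_GG (Y z : ℕ) {s : ℂ} (hs : s ≠ 1) : DifferentiableAt ℂ (GG Y z) s := by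
  have h1 : DifferentiableAt ℂ (Qs Y) s := by
    unfold Qs
    refine DifferentiableAt.fun_finsetProd fun p hp => ?_
    have hp0 : (p : ℂ) ≠ 0 := by exact_mod_cast (PY_prime hp).ne_zero
    exact (differentiableAt_const _).sub
      ((differentiableAt_id.neg).const_cpow (Or.inl hp0))
  have h2 : DifferentiableAt ℂ (As Y z) s := by
    unfold As
    refine DifferentiableAt.fun_sum fun m hm => ?_
    have hm0 : (m : ℂ) ≠ 0 := by
      have := (mem_Icc.mp (mem_filter.mp hm).1).1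
      exact_mod_cast (by omega : m ≠ 0)
    exact (differentiableAt_id.neg).const_cpow (Or.inl hm0)
  unfold GG
  exact (((differentiableAt_riemannZeta hs).mul h1).sub_const 1).sub h2

lemma cont_GG (Y z : ℕ) (σ : ℝ) : ContinuousOn (fun t : ℝ => GG Y z (pt σ t)) (Set.Ici 1) := by
  intro t ht
  have h1 : pt σ t ≠ 1 := by
    intro h
    have := pt_im σ t
    rw [h, Complex.one_im] at this
    rw [Set.mem_Ici] at ht
    linarith
  have h2 : Continuous (fun t : ℝ => pt σ t) := by unfold pt; fun_prop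
  exact (ContinuousAt.comp (g := GG Y z) (diff_GG Y z h1).continuousAt
    h2.continuousAt).continuousWithinAt

/-- the mean square on a vertical line -/
theorem line (Y N z : ℕ) (hz : 1 ≤ z) (hzN : z ≤ N) {σ T : ℝ} (h1 : 1 / 2 ≤ σ) (h2 : σ ≤ 2)
    (hT : 1 ≤ T) :
    ∫ t in (1 : ℝ)..T, ‖GG Y z (pt σ t)‖ ^ 2 ≤
      4 * 4 ^ Y * ((N : ℝ) ^ (2 - 2 * σ) + 36 * T ^ 3 * (N : ℝ) ^ (-(2 * σ))) +
      2 * 4 ^ Y * (T + 8 * (N * PP Y : ℕ) * (1 + Real.log (N * PP Y : ℕ))) *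
        ∑ k ∈ Ioc z (N * PP Y), (k : ℝ) ^ (-(2 * σ)) := by
  have hN : 1 ≤ N := hz.trans hzN
  have hN0 : (0 : ℝ) < N := by exact_mod_cast hN
  set X := N * PP Y with hX
  have hX1 : 1 ≤ X := Nat.mul_pos hN (PP_pos Y)
  set b : ℕ → ℂ := fun k => bc Y N z k * ((k : ℝ) ^ (-σ) : ℝ) with hb
  set D : ℝ → ℂ := fun t => ∑ n ∈ Icc 1 X, b n * (n : ℂ) ^ (-(t : ℂ) * Complex.I) with hD
  have hDeq : ∀ t : ℝ, ∑ k ∈ Icc 1 X, bc Y N z k * (k : ℂ) ^ (-(pt σ t)) = D t := by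
    intro t
    refine sum_congr rfl fun k hk => ?_
    rw [cpow_pt (mem_Icc.mp hk).1]
    simp only [hb]
    ring
  have hDc : Continuous D := by
    simp only [hD]
    refine continuous_finsetSum _ fun n hn => continuous_const.mul ?_
    have hn0 : (n : ℂ) ≠ 0 := by
      have := (mem_Icc.mp hn).1
      exact_mod_cast (by omega : n ≠ 0)
    refine Continuous.const_cpow ?_ (Or.inl hn0)
    fun_prop
  have hmv := H370.mean_value b X 1 T hT
  have hbsum : ∑ n ∈ Icc 1 X, ‖b n‖ ^ 2 ≤ 4 ^ Y * ∑ k ∈ Ioc z X, (k : ℝ) ^ (-(2 * σ)) := by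
    have e1 : ∑ n ∈ Icc 1 X, ‖b n‖ ^ 2 = ∑ n ∈ Ioc z X, ‖b n‖ ^ 2 := by
      symm
      refine sum_subset (fun n hn => ?_) fun n hn hn' => ?_
      · rw [mem_Ioc] at hn
        rw [mem_Icc]
        omega
      · rw [mem_Icc] at hn
        rw [mem_Ioc] at hn'
        simp only [hb]
        unfold bc
        rw [if_pos (by omega)]
        simp
    rw [e1, mul_sum]
    refine sum_le_sum fun k hk => ?_
    have hk0 : (0 : ℝ) ≤ k := Nat.cast_nonneg k
    simp only [hb]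
    rw [norm_mul, Complex.norm_real, Real.norm_of_nonneg (Real.rpow_nonneg hk0 _), mul_pow]
    have e2 : ((k : ℝ) ^ (-σ)) ^ 2 = (k : ℝ) ^ (-(2 * σ)) := by
      rw [← Real.rpow_natCast ((k : ℝ) ^ (-σ)), ← Real.rpow_mul hk0]
      congr 1
      push_cast
      ring
    rw [e2]
    refine mul_le_mul_of_nonneg_right ?_ (Real.rpow_nonneg hk0 _)
    calc ‖bc Y N z k‖ ^ 2 ≤ (2 ^ Y) ^ 2 := by
          gcongr
          exact bc_norm _ _ _ _
      _ = 4 ^ Y := by rw [← pow_mul, mul_comm Y, pow_mul]; norm_num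
  set p1 : ℝ := (N : ℝ) ^ (2 - 2 * σ) with hp1
  set p2 : ℝ := (N : ℝ) ^ (-(2 * σ)) with hp2
  have hp10 : 0 ≤ p1 := Real.rpow_nonneg hN0.le _
  have hp20 : 0 ≤ p2 := Real.rpow_nonneg hN0.le _
  have hpw : ∀ t ∈ Set.Icc (1 : ℝ) T, ‖GG Y z (pt σ t)‖ ^ 2 ≤
      4 * 4 ^ Y * (p1 * t ^ (-2 : ℝ) + 36 * T ^ 2 * p2) + 2 * ‖D t‖ ^ 2 := by
    intro t ht
    have ht1 : 1 ≤ t := ht.1
    have ht0 : 0 < t := by linarith
    rw [GG_eq Y N z hz hzN, hDeq]
    have a1 := approx hN h1 h2 ht1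
    have a2 : ‖Qs Y (pt σ t)‖ ≤ 2 ^ Y := Qs_norm Y (by rw [pt_re]; linarith)
    set u := Qs Y (pt σ t) * (riemannZeta (pt σ t) - Ps N (pt σ t)) with hu
    have a3 : ‖u‖ ^ 2 ≤ 4 ^ Y * (2 * (p1 * t ^ (-2 : ℝ)) + 72 * T ^ 2 * p2) := by
      rw [hu, norm_mul, mul_pow]
      have b1 : ‖Qs Y (pt σ t)‖ ^ 2 ≤ 4 ^ Y := by
        calc ‖Qs Y (pt σ t)‖ ^ 2 ≤ (2 ^ Y) ^ 2 := by gcongr
          _ = 4 ^ Y := by rw [← pow_mul, mul_comm Y, pow_mul]; norm_num
      have b2 : ‖riemannZeta (pt σ t) - Ps N (pt σ t)‖ ^ 2 ≤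
          2 * (p1 * t ^ (-2 : ℝ)) + 72 * T ^ 2 * p2 := by
        have c1 : ((N : ℝ) ^ (1 - σ) / t) ^ 2 = p1 * t ^ (-2 : ℝ) := by
          rw [div_pow, hp1, Real.rpow_neg ht0.le, show (2 : ℝ) = ((2 : ℕ) : ℝ) by norm_num,
            Real.rpow_natCast, div_eq_mul_inv, ← Real.rpow_natCast ((N : ℝ) ^ (1 - σ)),
            ← Real.rpow_mul hN0.le]
          congr 2
          push_cast
          ring
        have c2 : ((N : ℝ) ^ (-σ)) ^ 2 = p2 := by
          rw [hp2, ← Real.rpow_natCast ((N : ℝ) ^ (-σ)), ← Real.rpow_mul hN0.le]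
          congr 1
          push_cast
          ring
        have c3 : (6 * t * (N : ℝ) ^ (-σ)) ^ 2 ≤ 36 * T ^ 2 * p2 := by
          rw [mul_pow, c2, mul_pow]
          have : t ^ 2 ≤ T ^ 2 := by
            have := ht.2
            gcongr
          nlinarith
        calc ‖riemannZeta (pt σ t) - Ps N (pt σ t)‖ ^ 2
            ≤ ((N : ℝ) ^ (1 - σ) / t + 6 * t * (N : ℝ) ^ (-σ)) ^ 2 := by gcongr
          _ ≤ 2 * (((N : ℝ) ^ (1 - σ) / t) ^ 2 + (6 * t * (N : ℝ) ^ (-σ)) ^ 2) := by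
              nlinarith [sq_nonneg ((N : ℝ) ^ (1 - σ) / t - 6 * t * (N : ℝ) ^ (-σ))]
          _ ≤ _ := by rw [c1]; linarith
      exact mul_le_mul b1 b2 (sq_nonneg _) (by positivity)
    have a4 : ‖u + D t‖ ^ 2 ≤ 2 * ‖u‖ ^ 2 + 2 * ‖D t‖ ^ 2 := by
      have := norm_add_le u (D t)
      have h0 := norm_nonneg (u + D t)
      nlinarith [sq_nonneg (‖u‖ - ‖D t‖), norm_nonneg u, norm_nonneg (D t)]
    nlinarith
  have hint1 : IntervalIntegrable (fun t : ℝ => ‖GG Y z (pt σ t)‖ ^ 2) volume 1 T := by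
    refine ContinuousOn.intervalIntegrable ?_
    rw [Set.uIcc_of_le hT]
    exact ((cont_GG Y z σ).mono fun t ht => ht.1).norm.pow 2
  have hint2 : IntervalIntegrable (fun t : ℝ => t ^ (-2 : ℝ)) volume 1 T := by
    refine ContinuousOn.intervalIntegrable ?_
    rw [Set.uIcc_of_le hT]
    intro t ht
    exact (Real.continuousAt_rpow_const t _ (Or.inl (by linarith [ht.1]))).continuousWithinAt
  have hint3 : IntervalIntegrable (fun t : ℝ => ‖D t‖ ^ 2) volume 1 T :=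
    (hDc.norm.pow 2).intervalIntegrable _ _
  have hval2 : ∫ t in (1 : ℝ)..T, t ^ (-2 : ℝ) ≤ 1 := by
    rw [integral_rpow (Or.inr ⟨by norm_num, by
      rw [Set.uIcc_of_le hT]
      intro h
      linarith [h.1]⟩)]
    have : 0 ≤ T ^ (-2 + 1 : ℝ) := Real.rpow_nonneg (by linarith) _
    rw [Real.one_rpow]
    rw [div_le_iff_of_neg (by norm_num)]
    linarith
  have hmono : ∫ t in (1 : ℝ)..T, ‖GG Y z (pt σ t)‖ ^ 2 ≤
      ∫ t in (1 : ℝ)..T, (4 * 4 ^ Y * (p1 * t ^ (-2 : ℝ) + 36 * T ^ 2 * p2) + 2 * ‖D t‖ ^ 2) :=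
    intervalIntegral.integral_mono_on hT hint1
      ((((hint2.const_mul p1).add intervalIntegrable_const).const_mul _).add (hint3.const_mul 2))
      hpw
  refine hmono.trans ?_
  rw [intervalIntegral.integral_add
    (((hint2.const_mul p1).add intervalIntegrable_const).const_mul _) (hint3.const_mul 2),
    intervalIntegral.integral_const_mul, intervalIntegral.integral_add (hint2.const_mul p1)
    intervalIntegrable_const, intervalIntegral.integral_const_mul,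
    intervalIntegral.integral_const_mul, intervalIntegral.integral_const, smul_eq_mul]
  have hX0 : (0 : ℝ) ≤ 1 + Real.log X := by
    have : 0 ≤ Real.log (X : ℝ) := Real.log_nonneg (by exact_mod_cast hX1)
    linarith
  refine add_le_add ?_ ?_
  · refine mul_le_mul_of_nonneg_left ?_ (by positivity)
    refine add_le_add ?_ ?_
    · nlinarith
    · have : 0 ≤ T ^ 2 * p2 := by positivity
      nlinarith
  · have hS0 : 0 ≤ ∑ k ∈ Ioc z X, (k : ℝ) ^ (-(2 * σ)) :=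
      sum_nonneg fun k _ => Real.rpow_nonneg (Nat.cast_nonneg k) _
    rw [intervalIntegral.integral_const_mul]
    calc 2 * ∫ t in (1 : ℝ)..T, ‖D t‖ ^ 2
        ≤ 2 * ((T - 1 + 8 * X * (1 + Real.log X)) * ∑ n ∈ Icc 1 X, ‖b n‖ ^ 2) := by
          linarith
      _ ≤ 2 * ((T + 8 * X * (1 + Real.log X)) *
          (4 ^ Y * ∑ k ∈ Ioc z X, (k : ℝ) ^ (-(2 * σ)))) := by
          refine mul_le_mul_of_nonneg_left ?_ (by norm_num)
          refine mul_le_mul (by linarith) hbsum (sum_nonneg fun _ _ => sq_nonneg _) (by positivity)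
      _ = _ := by ring

end Run7.h751.KS
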