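import Pool.Agent.Run7.h751.KS.Rou
import Pool.Agent.Run7.h751.KS.MS1
import Pool.Agent.Run7.h311.WI.Fin

/-!
# The count of the good zeros
-/

set_option autoImplicit false

open Finset
open scoped ComplexConjugate

namespace Run7.h751.KS

open Pool.Agent.N802 Pool.Agent.N802.U Pool.Agent.N802.WD
open Run7.h311.WI (cI)
open H370 (Zf mult)

/-- the main term without the weight -/
noncomputable def M0 (T K : ℝ) : ℝ := K / (2 * Real.pi) * Real.log T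

/-- the two inequalities from the black box -/
def BB (d δ T K : ℝ) : Prop := ∀ S : Finset ℕ, Len S (T ^ δ) → ∀ r : ℕ → ℂ,
  (6 / 10 * (M0 T K * w1 S r) ≤
    ∑ s ∈ Zf riemannZeta T (T + K), cI riemannZeta d s * ‖RP S r s.im‖ ^ 2) ∧
  ∑ s ∈ Zf riemannZeta T (T + K), (mult riemannZeta s : ℝ) * ‖RP S r s.im‖ ^ 2 ≤
    2 * (M0 T K * w1 S r)

theorem bb : ∃ d δ T0 : ℝ, 0 < d ∧ 0 < δ ∧ 10 ≤ T0 ∧ ∀ T : ℝ, T0 ≤ T → ∀ K : ℝ,
    T ^ (1 - δ) ≤ K → K ≤ T / 2 → BB d δ T K := by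
  obtain ⟨d, hd0, -, hd⟩ := Run7.h311.WI.isoD (ε0 := 1 / 100) (by norm_num) (by norm_num)
  obtain ⟨δ, T0, hδ, hT0, h⟩ := hd (1 / 100) (by norm_num) (by norm_num)
  refine ⟨d, δ, T0, hd0, hδ, hT0, fun T hT K hK1 hK2 S hS r => ?_⟩
  obtain ⟨h1, h2, -⟩ := h T hT K hK1 hK2 S hS r
  have hm : 0 ≤ M0 T K * w1 S r := by
    have hK0 : 0 ≤ K := le_trans (by have : (0 : ℝ) < T := by linarith
                                     positivity) hK1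
    have := Real.log_nonneg (show 1 ≤ T by linarith)
    have := Real.pi_pos
    have := w1_nonneg S r
    unfold M0
    positivity
  have e : K / (2 * Real.pi) * Real.log T * w1 S r = M0 T K * w1 S r := rfl
  rw [e] at h1 h2
  constructor
  · refine le_trans ?_ h1
    norm_num at *
    nlinarith
  · refine h2.trans ?_
    norm_num at *
    nlinarith

/-- isolated simple zeros on the critical line -/
def iso (d : ℝ) (s : ℂ) : Prop :=
  s.re = 1 / 2 ∧ mult riemannZeta s = 1 ∧ ∀ s' : ℂ, riemannZeta s' = 0 → 0 < s'.re → s'.re < 1 →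
    s' ≠ s → d / Real.log s.im ≤ ‖s' - s‖

/-- the phases are close to the targets -/
def near (η : ℝ) (Y : ℕ) (z : ℕ → ℂ) (t : ℝ) : Prop :=
  ∀ p ∈ PY Y, ‖ph p t - z p‖ ≤ η * √((p : ℝ) / Y)

/-- the value of zeta is close to the Euler product -/
def euler (η : ℝ) (Y : ℕ) (t : ℝ) : Prop :=
  ‖riemannZeta (pt 1 t) * Qs Y (pt 1 t) - 1‖ ≤ η

open Classical in
/-- the good zeros -/
noncomputable def Gd (d η : ℝ) (Y : ℕ) (z : ℕ → ℂ) (T K : ℝ) : Finset ℂ :=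
  (Zf riemannZeta T (T + K)).filter fun s => iso d s ∧ near η Y z s.im ∧ euler η Y s.im

/-- the product of the central binomial coefficients -/
noncomputable def WW (P : Finset ℕ) (K : ℕ → ℕ) : ℝ := ∏ p ∈ P, (Nat.centralBinom (K p) : ℝ)

lemma WW_pos (P : Finset ℕ) (K : ℕ → ℕ) : 0 < WW P K := prod_pos fun _ _ => cB_pos _

/-- the resonator -/
noncomputable def RR (P : Finset ℕ) (K : ℕ → ℕ) (z : ℕ → ℂ) (t : ℝ) : ℂ :=
  ∏ p ∈ P, (1 + conj (z p) * ph p t) ^ K p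

lemma RR_le {P : Finset ℕ} (K : ℕ → ℕ) {z : ℕ → ℂ} (hz : ∀ p ∈ P, ‖z p‖ = 1) (t : ℝ) :
    ‖RR P K z t‖ ^ 2 ≤ ∏ p ∈ P, (4 : ℝ) ^ K p := by
  unfold RR
  rw [norm_prod, ← prod_pow]
  refine prod_le_prod (fun _ _ => by positivity) fun p hp => ?_
  rw [norm_pow, pow_right_comm]
  exact pow_le_pow_left₀ (by positivity) (par_le _ _ (hz p hp) (ph_norm _ _)) _

section

variable {d δ T K : ℝ} {Y L zz : ℕ}

/-- the black box for the resonator -/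
lemma bbR (hB : BB d δ T K) (hT : 1 ≤ T) (hδ : 0 < δ) (hlen : (Y : ℝ) ^ (Y * L) ≤ T ^ (δ / 4))
    {P : Finset ℕ} (hP : P ⊆ PY Y) {z : ℕ → ℂ} (hz : ∀ p ∈ P, ‖z p‖ = 1) :
    (6 / 10 * (M0 T K * WW P (Kp Y L)) ≤
      ∑ s ∈ Zf riemannZeta T (T + K), cI riemannZeta d s * ‖RR P (Kp Y L) z s.im‖ ^ 2) ∧
    ∑ s ∈ Zf riemannZeta T (T + K), (mult riemannZeta s : ℝ) *
      ‖RR P (Kp Y L) z s.im‖ ^ 2 ≤ 2 * (M0 T K * WW P (Kp Y L)) := by
  obtain ⟨S, r, h1, h2, h3⟩ := reso P (fun p hp => PY_prime (hP hp)) (Kp Y L)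
    (fun p => conj (z p)) (fun p hp => by rw [Complex.norm_conj]; exact hz p hp)
  have hS : Len S (T ^ δ) := by
    intro n hn
    refine ⟨(h1 n hn).1, ?_⟩
    have h4 : n ≤ Y ^ (Y * L) := (Nat.le_of_dvd (md_pos P (fun p hp => PY_prime (hP hp)) _)
      (h1 n hn).2).trans (md_dvd Y L hP)
    calc (n : ℝ) ≤ (Y : ℝ) ^ (Y * L) := by exact_mod_cast h4
      _ ≤ T ^ (δ / 4) := hlen
      _ ≤ T ^ δ := Real.rpow_le_rpow_of_exponent_le hT (by linarith)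
  have h := hB S hS r
  rw [h3] at h
  have e : ∀ s : ℂ, RP S r s.im = RR P (Kp Y L) z s.im := fun s => h2 s.im
  simp only [e] at h
  exact h

/-- the black box for the resonator times the sum over the rough integers -/
lemma bbA (hB : BB d δ T K) (hT : 1 ≤ T) (hδ : 0 < δ) (hM : 0 ≤ M0 T K)
    (hlen : (Y : ℝ) ^ (Y * L) ≤ T ^ (δ / 4))
    (hY : 1 ≤ Y) (hzz : (zz : ℝ) ≤ T ^ (δ / 2))
    {P : Finset ℕ} (hP : P ⊆ PY Y) {z : ℕ → ℂ} (hz : ∀ p ∈ P, ‖z p‖ = 1) :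
    ∑ s ∈ Zf riemannZeta T (T + K), (mult riemannZeta s : ℝ) *
      (‖RR P (Kp Y L) z s.im‖ ^ 2 * ‖As Y zz (pt 1 s.im)‖ ^ 2) ≤
        2 * (M0 T K * WW P (Kp Y L)) / Y := by
  obtain ⟨S, r, h1, h2, h3⟩ := reso P (fun p hp => PY_prime (hP hp)) (Kp Y L)
    (fun p => conj (z p)) (fun p hp => by rw [Complex.norm_conj]; exact hz p hp)
  obtain ⟨r', g1, g2⟩ := mulP S (rough Y zz) r inv1 (fun a ha => (h1 a ha).1)
    (fun b hb => by have := rough_gt hb; omega)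
    (fun a ha b hb => (rough_coprime hb hP (Kp Y L)).coprime_dvd_left (h1 a ha).2)
  have hS : Len ((S ×ˢ rough Y zz).image fun x => x.1 * x.2) (T ^ δ) := by
    intro n hn
    rw [mem_image] at hn
    obtain ⟨x, hx, rfl⟩ := hn
    rw [mem_product] at hx
    refine ⟨Nat.mul_pos (h1 _ hx.1).1 (by have := rough_gt hx.2; omega), ?_⟩
    have h4 : x.1 ≤ Y ^ (Y * L) := (Nat.le_of_dvd (md_pos P (fun p hp => PY_prime (hP hp)) _)
      (h1 _ hx.1).2).trans (md_dvd Y L hP)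
    have h5 : (x.1 : ℝ) ≤ T ^ (δ / 4) := le_trans (by exact_mod_cast h4) hlen
    have h6 : (x.2 : ℝ) ≤ T ^ (δ / 2) := le_trans (by exact_mod_cast (rough_gt hx.2).2) hzz
    have hT0 : 0 < T := by linarith
    push_cast
    calc (x.1 : ℝ) * x.2 ≤ T ^ (δ / 4) * T ^ (δ / 2) := by gcongr
      _ = T ^ (δ / 4 + δ / 2) := (Real.rpow_add hT0 _ _).symm
      _ ≤ T ^ δ := Real.rpow_le_rpow_of_exponent_le hT (by linarith)
  have h := (hB _ hS r').2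
  rw [g2, h3] at h
  have e : ∀ s : ℂ, ‖RP ((S ×ˢ rough Y zz).image fun x => x.1 * x.2) r' s.im‖ ^ 2 =
      ‖RR P (Kp Y L) z s.im‖ ^ 2 * ‖As Y zz (pt 1 s.im)‖ ^ 2 := by
    intro s
    rw [g1, norm_mul, mul_pow, h2, As_eq]
    rfl
  simp only [e] at h
  refine h.trans ?_
  have h7 := w1_rough (z := zz) hY
  have h8 := (WW_pos P (Kp Y L)).le
  have h9 : M0 T K * (WW P (Kp Y L) * w1 (rough Y zz) inv1) ≤
      M0 T K * (WW P (Kp Y L) * (1 / (Y : ℝ))) := by gcongr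
  calc 2 * (M0 T K * ((∏ p ∈ P, (Nat.centralBinom (Kp Y L p) : ℝ)) * w1 (rough Y zz) inv1))
      ≤ 2 * (M0 T K * (WW P (Kp Y L) * (1 / (Y : ℝ)))) := by
        have e2 : (∏ p ∈ P, (Nat.centralBinom (Kp Y L p) : ℝ)) = WW P (Kp Y L) := rfl
        rw [e2]
        linarith
    _ = _ := by ring

/-- the mass at one zero -/
lemma pointwise (hY : 1 ≤ Y) {η : ℝ} (hη0 : 0 < η) {z : ℕ → ℂ}
    (hz : ∀ p ∈ PY Y, ‖z p‖ = 1) (hL : 32 / η ^ 2 * Real.log Y ≤ L)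
    (hL2 : 2 * (L : ℝ) * Y + 1 ≤ (Y : ℝ) ^ 2) {s : ℂ} (hs : s ∈ Zf riemannZeta T (T + K)) :
    cI riemannZeta d s * ‖RR (PY Y) (Kp Y L) z s.im‖ ^ 2 ≤
      (if s ∈ Gd d η Y z T K then ∏ p ∈ PY Y, (4 : ℝ) ^ Kp Y L p else 0) +
      ∑ p ∈ PY Y, (Nat.centralBinom (Kp Y L p) : ℝ) / (Y : ℝ) ^ 2 *
        ((mult riemannZeta s : ℝ) * ‖RR ((PY Y).erase p) (Kp Y L) z s.im‖ ^ 2) +
      2 / η ^ 2 * ((mult riemannZeta s : ℝ) *
        (‖RR (PY Y) (Kp Y L) z s.im‖ ^ 2 * ‖As Y zz (pt 1 s.im)‖ ^ 2)) +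
      2 / η ^ 2 * ((∏ p ∈ PY Y, (4 : ℝ) ^ Kp Y L p) *
        ((mult riemannZeta s : ℝ) * ‖GG Y zz (pt 1 s.im)‖ ^ 2)) := by
  classical
  set V := ∏ p ∈ PY Y, (4 : ℝ) ^ Kp Y L p with hV
  have hV0 : 0 ≤ V := prod_nonneg fun _ _ => by positivity
  set t := s.im with ht
  have hY0 : (0 : ℝ) < Y := by exact_mod_cast hY
  have hR := RR_le (Kp Y L) hz t
  rw [← hV] at hR
  have n1 : 0 ≤ ∑ p ∈ PY Y, (Nat.centralBinom (Kp Y L p) : ℝ) / (Y : ℝ) ^ 2 *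
        ((mult riemannZeta s : ℝ) * ‖RR ((PY Y).erase p) (Kp Y L) z t‖ ^ 2) :=
    sum_nonneg fun p _ => by positivity
  have n2 : 0 ≤ 2 / η ^ 2 * ((mult riemannZeta s : ℝ) *
        (‖RR (PY Y) (Kp Y L) z t‖ ^ 2 * ‖As Y zz (pt 1 t)‖ ^ 2)) := by positivity
  have n3 : 0 ≤ 2 / η ^ 2 * (V * ((mult riemannZeta s : ℝ) * ‖GG Y zz (pt 1 t)‖ ^ 2)) := by
    positivity
  have n0 : 0 ≤ (if s ∈ Gd d η Y z T K then V else 0) := by
    split_ifs
    · exact hV0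
    · exact le_rfl
  by_cases hi : iso d s
  · have e1 : cI riemannZeta d s = 1 := by
      unfold cI
      rw [if_pos]
      exact hi
    have e2 : (mult riemannZeta s : ℝ) = 1 := by exact_mod_cast hi.2.1
    rw [e1, one_mul]
    rw [e2] at n1 n2 n3 ⊢
    by_cases hn : near η Y z t
    · by_cases he : euler η Y t
      · have : s ∈ Gd d η Y z T K := by
          unfold Gd
          rw [mem_filter]
          exact ⟨hs, hi, hn, he⟩
        rw [if_pos this]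
        linarith
      · -- the value is far from the product
        unfold euler at he
        push Not at he
        have e3 : riemannZeta (pt 1 t) * Qs Y (pt 1 t) - 1 = GG Y zz (pt 1 t) + As Y zz (pt 1 t) := by
          unfold GG
          ring
        rw [e3] at he
        have h4 : η ^ 2 ≤ 2 * (‖GG Y zz (pt 1 t)‖ ^ 2 + ‖As Y zz (pt 1 t)‖ ^ 2) := by
          have h5 := norm_add_le (GG Y zz (pt 1 t)) (As Y zz (pt 1 t))
          have h6 : η ≤ ‖GG Y zz (pt 1 t)‖ + ‖As Y zz (pt 1 t)‖ := by linarith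
          have h7 := sq_nonneg (‖GG Y zz (pt 1 t)‖ - ‖As Y zz (pt 1 t)‖)
          nlinarith
        have h5 : ‖RR (PY Y) (Kp Y L) z t‖ ^ 2 ≤ 2 / η ^ 2 * (1 *
            (‖RR (PY Y) (Kp Y L) z t‖ ^ 2 * ‖As Y zz (pt 1 t)‖ ^ 2)) +
            2 / η ^ 2 * (V * (1 * ‖GG Y zz (pt 1 t)‖ ^ 2)) := by
          have h8 : ‖RR (PY Y) (Kp Y L) z t‖ ^ 2 * η ^ 2 ≤ ‖RR (PY Y) (Kp Y L) z t‖ ^ 2 *
              (2 * (‖GG Y zz (pt 1 t)‖ ^ 2 + ‖As Y zz (pt 1 t)‖ ^ 2)) := by gcongr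
          have h9 : ‖RR (PY Y) (Kp Y L) z t‖ ^ 2 * ‖GG Y zz (pt 1 t)‖ ^ 2 ≤
              V * ‖GG Y zz (pt 1 t)‖ ^ 2 := by gcongr
          have h10 : 2 / η ^ 2 * (1 * (‖RR (PY Y) (Kp Y L) z t‖ ^ 2 * ‖As Y zz (pt 1 t)‖ ^ 2)) +
            2 / η ^ 2 * (V * (1 * ‖GG Y zz (pt 1 t)‖ ^ 2)) =
              (2 * (‖RR (PY Y) (Kp Y L) z t‖ ^ 2 * ‖As Y zz (pt 1 t)‖ ^ 2) +
                2 * (V * ‖GG Y zz (pt 1 t)‖ ^ 2)) / η ^ 2 := by ring
          rw [h10, le_div_iff₀ (by positivity)]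
          nlinarith
        linarith
    · -- one phase is bad
      unfold near at hn
      push Not at hn
      obtain ⟨p, hp, hb⟩ := hn
      have h4 := bad hp hη0 hL hL2 (hz p hp) (ph_norm p t) hb
      have h5 : ‖RR (PY Y) (Kp Y L) z t‖ ^ 2 = (‖1 + conj (z p) * ph p t‖ ^ 2) ^ Kp Y L p *
          ‖RR ((PY Y).erase p) (Kp Y L) z t‖ ^ 2 := by
        unfold RR
        rw [← mul_prod_erase _ _ hp, norm_mul, mul_pow, norm_pow]
        rw [pow_right_comm]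
      have h6 : ‖RR (PY Y) (Kp Y L) z t‖ ^ 2 ≤ (Nat.centralBinom (Kp Y L p) : ℝ) / (Y : ℝ) ^ 2 *
        (1 * ‖RR ((PY Y).erase p) (Kp Y L) z t‖ ^ 2) := by
        rw [h5, one_mul]
        gcongr
      have h7 := single_le_sum (f := fun p => (Nat.centralBinom (Kp Y L p) : ℝ) / (Y : ℝ) ^ 2 *
        (1 * ‖RR ((PY Y).erase p) (Kp Y L) z t‖ ^ 2)) (fun p _ => by positivity) hp
      have h8 := h6.trans h7
      linarith
  · have e1 : cI riemannZeta d s = 0 := by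
      unfold cI
      rw [if_neg]
      exact hi
    rw [e1, zero_mul]
    linarith

/-- **the number of good zeros** -/
theorem count (hB : BB d δ T K) (hT : 1 ≤ T) (hδ : 0 < δ) (hM : 0 < M0 T K)
    (hlen : (Y : ℝ) ^ (Y * L) ≤ T ^ (δ / 4)) (hY : 1 ≤ Y) (hzz : (zz : ℝ) ≤ T ^ (δ / 2))
    {η : ℝ} (hη0 : 0 < η) (hη1 : η ≤ 1) (hYη : 100 / η ^ 2 ≤ Y) {z : ℕ → ℂ}
    (hz : ∀ p ∈ PY Y, ‖z p‖ = 1) (hL : 32 / η ^ 2 * Real.log Y ≤ L)
    (hL2 : 2 * (L : ℝ) * Y + 1 ≤ (Y : ℝ) ^ 2) {B : ℝ}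
    (hgg : ∑ s ∈ Zf riemannZeta T (T + K), (mult riemannZeta s : ℝ) *
      ‖GG Y zz (pt 1 s.im)‖ ^ 2 ≤ B)
    (hB2 : 2 / η ^ 2 * ((Y : ℝ) ^ (2 * Y) * B) ≤ M0 T K / 100) :
    M0 T K / 2 ≤ (Gd d η Y z T K).card * (Y : ℝ) ^ (2 * Y) := by
  classical
  set V := ∏ p ∈ PY Y, (4 : ℝ) ^ Kp Y L p with hV
  set W := WW (PY Y) (Kp Y L) with hW
  have hW0 : 0 < W := WW_pos _ _
  have hY0 : (0 : ℝ) < Y := by exact_mod_cast hY
  have hVW : V ≤ (Y : ℝ) ^ (2 * Y) * W := by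
    refine (prod_four Y L).trans ?_
    rw [pow_mul]
    have : (∏ p ∈ PY Y, (Nat.centralBinom (Kp Y L p) : ℝ)) = W := rfl
    rw [this]
    have : 0 ≤ 2 * (L : ℝ) * Y + 1 := by positivity
    gcongr
  have h1 := (bbR hB hT hδ hlen (Finset.Subset.refl _) hz).1
  have h2 := sum_le_sum (fun s (hs : s ∈ Zf riemannZeta T (T + K)) =>
    pointwise (d := d) (zz := zz) hY hη0 hz hL hL2 hs)
  rw [sum_add_distrib, sum_add_distrib, sum_add_distrib, sum_comm, ← mul_sum, ← mul_sum,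
    ← mul_sum, ← hV] at h2
  -- the good zeros
  have g1 : ∑ s ∈ Zf riemannZeta T (T + K), (if s ∈ Gd d η Y z T K then V else 0) =
      (Gd d η Y z T K).card * V := by
    rw [← sum_filter]
    have : (Zf riemannZeta T (T + K)).filter (fun s => s ∈ Gd d η Y z T K) = Gd d η Y z T K := by
      ext s
      rw [mem_filter]
      refine ⟨fun h => h.2, fun h => ⟨?_, h⟩⟩
      unfold Gd at h
      exact (mem_filter.mp h).1
    rw [this, sum_const, nsmul_eq_mul]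
  -- the bad phases
  have g2 : ∑ p ∈ PY Y, ∑ s ∈ Zf riemannZeta T (T + K),
      (Nat.centralBinom (Kp Y L p) : ℝ) / (Y : ℝ) ^ 2 *
        ((mult riemannZeta s : ℝ) * ‖RR ((PY Y).erase p) (Kp Y L) z s.im‖ ^ 2) ≤
      2 * (M0 T K * W) / Y := by
    have h3 : ∀ p ∈ PY Y, ∑ s ∈ Zf riemannZeta T (T + K),
        (Nat.centralBinom (Kp Y L p) : ℝ) / (Y : ℝ) ^ 2 *
        ((mult riemannZeta s : ℝ) * ‖RR ((PY Y).erase p) (Kp Y L) z s.im‖ ^ 2) ≤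
        2 * (M0 T K * W) / (Y : ℝ) ^ 2 := by
      intro p hp
      rw [← mul_sum]
      have h4 := (bbR hB hT hδ hlen (erase_subset p (PY Y))
        (fun q hq => hz q (mem_of_mem_erase hq))).2
      have h5 : W = (Nat.centralBinom (Kp Y L p) : ℝ) * WW ((PY Y).erase p) (Kp Y L) := by
        rw [hW]
        unfold WW
        rw [← mul_prod_erase _ _ hp]
      calc _ ≤ (Nat.centralBinom (Kp Y L p) : ℝ) / (Y : ℝ) ^ 2 *
            (2 * (M0 T K * WW ((PY Y).erase p) (Kp Y L))) := by gcongr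
        _ = _ := by rw [h5]; ring
    refine (sum_le_sum h3).trans ?_
    rw [sum_const, nsmul_eq_mul]
    have h6 : ((PY Y).card : ℝ) ≤ Y := by exact_mod_cast PY_card Y
    calc ((PY Y).card : ℝ) * (2 * (M0 T K * W) / (Y : ℝ) ^ 2) ≤
        Y * (2 * (M0 T K * W) / (Y : ℝ) ^ 2) := by gcongr
      _ = _ := by field_simp
  have g3 := bbA (L := L) hB hT hδ hM.le hlen hY hzz (Finset.Subset.refl _) hz
  rw [g1] at h2
  -- collect
  have k1 : 2 / η ^ 2 * ∑ s ∈ Zf riemannZeta T (T + K), (mult riemannZeta s : ℝ) *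
      (‖RR (PY Y) (Kp Y L) z s.im‖ ^ 2 * ‖As Y zz (pt 1 s.im)‖ ^ 2) ≤
      2 / η ^ 2 * (2 * (M0 T K * W) / Y) := by gcongr
  have k2 : 2 / η ^ 2 * (V * ∑ s ∈ Zf riemannZeta T (T + K), (mult riemannZeta s : ℝ) *
      ‖GG Y zz (pt 1 s.im)‖ ^ 2) ≤ M0 T K / 100 * W := by
    have hs0 : 0 ≤ ∑ s ∈ Zf riemannZeta T (T + K), (mult riemannZeta s : ℝ) *
      ‖GG Y zz (pt 1 s.im)‖ ^ 2 := sum_nonneg fun _ _ => by positivity
    calc 2 / η ^ 2 * (V * ∑ s ∈ Zf riemannZeta T (T + K), (mult riemannZeta s : ℝ) *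
        ‖GG Y zz (pt 1 s.im)‖ ^ 2) ≤ 2 / η ^ 2 * (((Y : ℝ) ^ (2 * Y) * W) * B) := by
          gcongr
      _ = 2 / η ^ 2 * ((Y : ℝ) ^ (2 * Y) * B) * W := by ring
      _ ≤ _ := by gcongr
  have k3 : (1 : ℝ) / Y ≤ η ^ 2 / 100 := by
    rw [div_le_iff₀ (by positivity)] at hYη
    rw [div_le_div_iff₀ hY0 (by norm_num)]
    linarith
  have k4 : 2 * (M0 T K * W) / Y ≤ M0 T K * W * (2 / 100) := by
    calc 2 * (M0 T K * W) / Y = 2 * (M0 T K * W) * (1 / Y) := by ring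
      _ ≤ 2 * (M0 T K * W) * (η ^ 2 / 100) := by gcongr
      _ ≤ 2 * (M0 T K * W) * (1 / 100) := by
          have : η ^ 2 ≤ 1 := by nlinarith
          gcongr
      _ = _ := by ring
  have k5 : 2 / η ^ 2 * (2 * (M0 T K * W) / Y) ≤ M0 T K * W * (4 / 100) := by
    calc 2 / η ^ 2 * (2 * (M0 T K * W) / Y) = 4 * (M0 T K * W) / η ^ 2 * (1 / Y) := by ring
      _ ≤ 4 * (M0 T K * W) / η ^ 2 * (η ^ 2 / 100) := by gcongr
      _ = _ := by field_simp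
  have k6 : ((Gd d η Y z T K).card : ℝ) * V ≤ (Gd d η Y z T K).card * (Y : ℝ) ^ (2 * Y) * W := by
    rw [mul_assoc]
    gcongr
  have k7 : M0 T K / 2 * W ≤ (Gd d η Y z T K).card * (Y : ℝ) ^ (2 * Y) * W := by
    nlinarith
  exact le_of_mul_le_mul_right k7 hW0

end

end Run7.h751.KS
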