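import Mathlib

/-!
# The coefficients of `ζ(s) ∏_{p ≤ Y} (1 - p ^ (-s))`
-/

set_option autoImplicit false

open Finset

namespace Run7.h751.KS

/-- the primes up to `Y` -/
def PY (Y : ℕ) : Finset ℕ := (Icc 1 Y).filter Nat.Prime

lemma PY_prime {Y p : ℕ} (h : p ∈ PY Y) : p.Prime := (mem_filter.mp h).2

lemma PY_card (Y : ℕ) : (PY Y).card ≤ Y := by
  refine (card_filter_le _ _).trans ?_
  rw [Nat.card_Icc]
  omega

/-- the product of the primes up to `Y` -/
def PP (Y : ℕ) : ℕ := ∏ p ∈ PY Y, p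

lemma PP_pos (Y : ℕ) : 0 < PP Y := prod_pos fun p hp => (PY_prime hp).pos

lemma PP_le (Y : ℕ) : PP Y ≤ 4 ^ Y := by
  have h := primorial_le_four_pow Y
  refine le_trans (le_of_eq ?_) h
  unfold PP PY primorial
  refine prod_congr ?_ fun _ _ => rfl
  ext p
  simp only [mem_filter, mem_Icc, mem_range]
  constructor
  · rintro ⟨⟨_, h2⟩, h3⟩
    exact ⟨by omega, h3⟩
  · rintro ⟨h2, h3⟩
    exact ⟨⟨h3.pos, by omega⟩, h3⟩

lemma PP_primeFactors (Y : ℕ) : (PP Y).primeFactors = PY Y :=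
  Nat.primeFactors_prod fun p hp => PY_prime hp

lemma PP_squarefree (Y : ℕ) : Squarefree (PP Y) := by
  unfold PP
  refine Finset.squarefree_prod_of_pairwise_isCoprime (fun p hp q hq hpq => ?_) fun p hp =>
    (PY_prime hp).squarefree
  simp only [← Nat.coprime_iff_isRelPrime]
  exact (Nat.coprime_primes (PY_prime (mem_coe.mp hp)) (PY_prime (mem_coe.mp hq))).mpr hpq

/-- `∏_{p ≤ Y} (1 - p ^ (-s))` -/
noncomputable def Qs (Y : ℕ) (s : ℂ) : ℂ := ∏ p ∈ PY Y, (1 - (p : ℂ) ^ (-s))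

/-- the integers `2 ≤ m ≤ z` without prime factors `≤ Y` -/
def rough (Y z : ℕ) : Finset ℕ := (Icc 2 z).filter fun m => Nat.Coprime m (PP Y)

/-- the sum over the rough integers -/
noncomputable def As (Y z : ℕ) (s : ℂ) : ℂ := ∑ m ∈ rough Y z, (m : ℂ) ^ (-s)

/-- the function `n ^ (-s)` as an arithmetic function -/
noncomputable def af (s : ℂ) : ArithmeticFunction ℂ :=
  ⟨fun n => if n = 0 then 0 else (n : ℂ) ^ (-s), by simp⟩

lemma af_mult (s : ℂ) : (af s).IsMultiplicative := by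
  constructor
  · show (if (1 : ℕ) = 0 then (0 : ℂ) else ((1 : ℕ) : ℂ) ^ (-s)) = 1
    simp
  · intro m n _
    show (if m * n = 0 then (0 : ℂ) else ((m * n : ℕ) : ℂ) ^ (-s)) =
      (if m = 0 then (0 : ℂ) else (m : ℂ) ^ (-s)) * (if n = 0 then (0 : ℂ) else (n : ℂ) ^ (-s))
    by_cases hm : m = 0
    · simp [hm]
    by_cases hn : n = 0
    · simp [hn]
    rw [if_neg (mul_ne_zero hm hn), if_neg hm, if_neg hn, Nat.cast_mul,
      Complex.natCast_mul_natCast_cpow]

lemma Qs_eq (Y : ℕ) (s : ℂ) :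
    Qs Y s = ∑ d ∈ (PP Y).divisors, (ArithmeticFunction.moebius d : ℂ) * (d : ℂ) ^ (-s) := by
  have h := ArithmeticFunction.IsMultiplicative.prodPrimeFactors_one_sub_of_squarefree (af s)
    (af_mult s) (PP_squarefree Y)
  rw [PP_primeFactors] at h
  unfold Qs
  have e1 : ∏ p ∈ PY Y, (1 - (p : ℂ) ^ (-s)) = ∏ p ∈ PY Y, (1 - af s p) := by
    refine prod_congr rfl fun p hp => ?_
    show _ = 1 - (if p = 0 then (0 : ℂ) else (p : ℂ) ^ (-s))
    rw [if_neg (PY_prime hp).ne_zero]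
  rw [e1, h]
  refine sum_congr rfl fun d hd => ?_
  show _ * (if d = 0 then (0 : ℂ) else (d : ℂ) ^ (-s)) = _
  rw [if_neg (Nat.pos_of_mem_divisors hd).ne']

/-- the coefficients of the product with the sum of length `N` -/
noncomputable def ec (Y N k : ℕ) : ℂ :=
  ∑ x ∈ ((PP Y).divisors ×ˢ Icc 1 N).filter (fun x => x.1 * x.2 = k),
    (ArithmeticFunction.moebius x.1 : ℂ)

lemma full (Y N : ℕ) (s : ℂ) :
    Qs Y s * ∑ n ∈ Icc 1 N, (n : ℂ) ^ (-s) = ∑ k ∈ Icc 1 (N * PP Y), ec Y N k * (k : ℂ) ^ (-s) := by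
  rw [Qs_eq, sum_mul_sum, ← sum_product', ← sum_fiberwise_of_maps_to
    (s := (PP Y).divisors ×ˢ Icc 1 N) (t := Icc 1 (N * PP Y)) (g := fun x : ℕ × ℕ => x.1 * x.2)]
  · refine sum_congr rfl fun k _ => ?_
    unfold ec
    rw [sum_mul]
    refine sum_congr rfl fun x hx => ?_
    rw [mem_filter] at hx
    rw [← hx.2, Nat.cast_mul, Complex.natCast_mul_natCast_cpow]
    ring
  · intro x hx
    rw [mem_product, mem_Icc] at hx
    rw [mem_Icc]
    have h1 := Nat.pos_of_mem_divisors hx.1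
    have h2 := Nat.divisor_le hx.1
    refine ⟨Nat.mul_pos h1 hx.2.1, ?_⟩
    rw [mul_comm N]
    exact Nat.mul_le_mul h2 hx.2.2

lemma ec_low {Y N k : ℕ} (h1 : 1 ≤ k) (h2 : k ≤ N) :
    ec Y N k = if Nat.Coprime k (PP Y) then 1 else 0 := by
  have e1 : ec Y N k = ∑ d ∈ (Nat.gcd k (PP Y)).divisors, (ArithmeticFunction.moebius d : ℂ) := by
    unfold ec
    refine sum_nbij' (fun x => x.1) (fun d => (d, k / d)) ?_ ?_ ?_ ?_ ?_
    · intro x hx
      rw [mem_filter, mem_product] at hx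
      rw [Nat.mem_divisors]
      refine ⟨Nat.dvd_gcd ⟨x.2, hx.2.symm⟩ (Nat.dvd_of_mem_divisors hx.1.1), ?_⟩
      exact (Nat.gcd_pos_of_pos_left _ h1).ne'
    · intro d hd
      have h3 := Nat.dvd_of_mem_divisors hd
      have h4 := h3.trans (Nat.gcd_dvd_left _ _)
      have h5 := h3.trans (Nat.gcd_dvd_right _ _)
      rw [mem_filter, mem_product, mem_Icc, Nat.mem_divisors]
      refine ⟨⟨⟨h5, (PP_pos Y).ne'⟩, ?_, ?_⟩, Nat.mul_div_cancel' h4⟩
      · exact Nat.div_pos (Nat.le_of_dvd h1 h4) (Nat.pos_of_dvd_of_pos h4 h1)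
      · exact (Nat.div_le_self _ _).trans h2
    · rintro ⟨a, b⟩ hx
      rw [mem_filter, mem_product] at hx
      have h3 : a * b = k := hx.2
      have h4 : 0 < a := Nat.pos_of_mem_divisors hx.1.1
      simp only [Prod.mk.injEq, true_and]
      rw [← h3, Nat.mul_div_cancel_left _ h4]
    · intro d _
      rfl
    · intro x _
      rfl
  rw [e1, ← Int.cast_sum, ← ArithmeticFunction.coe_mul_zeta_apply, 
    ArithmeticFunction.moebius_mul_coe_zeta, ArithmeticFunction.one_apply]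
  unfold Nat.Coprime
  split_ifs <;> simp

lemma ec_norm (Y N k : ℕ) : ‖ec Y N k‖ ≤ 2 ^ Y := by
  unfold ec
  have hcard : (((PP Y).divisors ×ˢ Icc 1 N).filter (fun x => x.1 * x.2 = k)).card ≤
      (PP Y).divisors.card := by
    refine card_le_card_of_injOn (fun x => x.1) ?_ ?_
    · intro x hx
      rw [mem_coe, mem_filter, mem_product] at hx
      exact hx.1.1
    · rintro ⟨a, b⟩ hx ⟨a', b'⟩ hy h
      rw [mem_coe, mem_filter, mem_product] at hx hy
      simp only at h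
      subst h
      have h4 : 0 < a := Nat.pos_of_mem_divisors hx.1.1
      have h5 : a * b = a * b' := hx.2.trans hy.2.symm
      rw [Nat.eq_of_mul_eq_mul_left h4 h5]
  have hdiv : (PP Y).divisors.card ≤ 2 ^ Y := by
    rw [Nat.card_divisors (PP_pos Y).ne']
    have h1 : ∀ p ∈ (PP Y).primeFactors, (PP Y).factorization p + 1 ≤ 2 := by
      intro p _
      have := (Nat.squarefree_iff_factorization_le_one (PP_pos Y).ne').mp (PP_squarefree Y) p
      omega
    refine (prod_le_prod' h1).trans ?_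
    rw [prod_const, PP_primeFactors]
    exact Nat.pow_le_pow_right (by norm_num) (PY_card Y)
  calc ‖∑ x ∈ ((PP Y).divisors ×ˢ Icc 1 N).filter (fun x => x.1 * x.2 = k),
      (ArithmeticFunction.moebius x.1 : ℂ)‖
      ≤ ∑ x ∈ ((PP Y).divisors ×ˢ Icc 1 N).filter (fun x => x.1 * x.2 = k), (1 : ℝ) := by
        refine (norm_sum_le _ _).trans (sum_le_sum fun x _ => ?_)
        rw [Complex.norm_intCast]
        exact_mod_cast ArithmeticFunction.abs_moebius_le_one
    _ ≤ _ := by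
        rw [sum_const, nsmul_eq_mul, mul_one]
        exact_mod_cast hcard.trans hdiv

/-- the coefficients beyond `z` -/
noncomputable def bc (Y N z k : ℕ) : ℂ := if k ≤ z then 0 else ec Y N k

lemma bc_norm (Y N z k : ℕ) : ‖bc Y N z k‖ ≤ 2 ^ Y := by
  unfold bc
  split_ifs
  · rw [norm_zero]; positivity
  · exact ec_norm _ _ _

theorem split (Y N z : ℕ) (hz : 1 ≤ z) (hzN : z ≤ N) (s : ℂ) :
    Qs Y s * ∑ n ∈ Icc 1 N, (n : ℂ) ^ (-s) =
      1 + As Y z s + ∑ k ∈ Icc 1 (N * PP Y), bc Y N z k * (k : ℂ) ^ (-s) := by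
  have hN : N ≤ N * PP Y := Nat.le_mul_of_pos_right _ (PP_pos Y)
  rw [full]
  have e1 : ∀ k ∈ Icc 1 (N * PP Y), ec Y N k * (k : ℂ) ^ (-s) =
      (if k ≤ z then (if Nat.Coprime k (PP Y) then (k : ℂ) ^ (-s) else 0) else 0) +
        bc Y N z k * (k : ℂ) ^ (-s) := by
    intro k hk
    rw [mem_Icc] at hk
    unfold bc
    by_cases h : k ≤ z
    · rw [if_pos h, if_pos h, ec_low hk.1 (h.trans hzN)]
      split_ifs <;> simp
    · rw [if_neg h, if_neg h]
      simp
  rw [sum_congr rfl e1, sum_add_distrib]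
  congr 1
  rw [← sum_filter, ← sum_filter, filter_filter]
  have e2 : (Icc 1 (N * PP Y)).filter (fun k => k ≤ z ∧ Nat.Coprime k (PP Y)) =
      insert 1 (rough Y z) := by
    ext k
    simp only [rough, mem_filter, mem_Icc, mem_insert]
    constructor
    · rintro ⟨⟨h1, h2⟩, h3, h4⟩
      by_cases h : k = 1
      · exact Or.inl h
      · exact Or.inr ⟨⟨by omega, h3⟩, h4⟩
    · rintro (h | ⟨⟨h1, h2⟩, h3⟩)
      · subst h
        exact ⟨⟨le_rfl, by omega⟩, hz, Nat.coprime_one_left _⟩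
      · exact ⟨⟨by omega, by omega⟩, h2, h3⟩
  rw [e2, sum_insert]
  · simp [As]
  · simp [rough]

end Run7.h751.KS
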