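import Pool.Agent.Run7.h751.KS.MS2
import Pool.Agent.Helper240.ZU.D
import Pool.Agent.Helper240.ZU.E1b
import Pool.Agent.H370R2.DirGood
import Pool.Agent.H370R2.Local
import Pool.Agent.H370R2.PC1

/-!
# The sum over the zeros
-/

set_option autoImplicit false

open MeasureTheory Filter Topology Complex

namespace Run7.h751.KS

open H370 ZU

/-- the function, clamped at `Im z = 1` -/
noncomputable def Gc (Y z : ℕ) (w : ℂ) : ℂ := GG Y z (pt w.re (max w.im 1))

lemma Gc_cont (Y z : ℕ) : Continuous (Gc Y z) := by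
  rw [continuous_iff_continuousAt]
  intro w
  have h1 : pt w.re (max w.im 1) ≠ 1 := by
    intro h
    have := pt_im w.re (max w.im 1)
    rw [h, Complex.one_im] at this
    have := le_max_right w.im 1
    linarith
  have h2 : Continuous (fun w : ℂ => pt w.re (max w.im 1)) := by
    unfold pt
    exact ((Complex.continuous_ofReal.comp Complex.continuous_re)).add
      ((Complex.continuous_ofReal.comp (Complex.continuous_im.max continuous_const)).mul
        continuous_const)
  exact ContinuousAt.comp (g := GG Y z) (diff_GG Y z h1).continuousAt h2.continuousAt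

lemma Gc_eq {Y z : ℕ} {w : ℂ} (h : 1 ≤ w.im) : Gc Y z w = GG Y z w := by
  unfold Gc
  rw [max_eq_left h]
  congr 1
  unfold pt
  exact Complex.re_add_im w

/-- the area integral -/
noncomputable def Ph (r : ℝ) (Y z : ℕ) (t : ℝ) : ℝ :=
  ∫ w in rect (1 - r) (1 + r) 2, ‖Gc Y z (w + t * I)‖ ^ 2

lemma Ph_nonneg (r : ℝ) (Y z : ℕ) (t : ℝ) : 0 ≤ Ph r Y z t :=
  integral_nonneg fun _ => sq_nonneg _

theorem area {r : ℝ} (hr : 0 < r) : ∃ C : ℝ, 0 < C ∧ ∀ (Y z : ℕ) (γ t : ℝ), 4 ≤ t →
    |γ - t| ≤ 1 → ‖GG Y z (pt 1 γ)‖ ^ 2 ≤ C * Ph r Y z t := by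
  obtain ⟨C, hC, h⟩ := sup_le_area 1 1 (1 - r) (1 + r) 1 2 (by linarith) le_rfl (by linarith)
    one_pos (by norm_num)
  refine ⟨C, hC, fun Y z γ t ht hγ => ?_⟩
  have him : ∀ w : ℂ, (w + t * I).im = w.im + t := by
    intro w
    simp
  have h1 := h (fun w => GG Y z (w + t * I)) {w : ℂ | -3 < w.im}
    (isOpen_lt continuous_const Complex.continuous_im)
    (fun w hw => by
      have := hw.2.2
      rw [abs_le] at this
      show -3 < w.im
      linarith)
    (fun w hw => by
      have hw' : w + t * I ≠ 1 := by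
        intro hh
        have := him w
        rw [hh, Complex.one_im] at this
        have h3 : -3 < w.im := hw
        linarith
      exact (DifferentiableAt.comp w (diff_GG Y z hw')
        (differentiableAt_id.add_const _)).differentiableWithinAt)
    (pt 1 (γ - t)) ⟨by rw [pt_re], by rw [pt_re], by rw [pt_im]; exact hγ⟩
  have e1 : pt 1 (γ - t) + t * I = pt 1 γ := by
    unfold pt
    push_cast
    ring
  simp only [e1] at h1
  refine h1.trans (le_of_eq ?_)
  congr 1
  unfold Ph
  refine setIntegral_congr_fun (J_e1b.fubini_bound_compact _ _ _).measurableSet fun w hw => ?_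
  have h3 := hw.2.2
  rw [abs_le] at h3
  show _ = ‖Gc Y z (w + t * I)‖ ^ 2
  rw [Gc_eq (by rw [him]; linarith)]

theorem phint {α : ℝ} (h0 : 0 < α) (h1 : α ≤ 1) : ∀ᶠ T : ℝ in atTop, ∀ Y : ℕ,
    (4 : ℝ) ^ Y ≤ T ^ (α / 64) →
    Continuous (Ph (α / 16) Y ⌊T ^ α⌋₊) ∧
    ∫ t in (4 : ℝ)..(3 * T), Ph (α / 16) Y ⌊T ^ α⌋₊ t ≤ T ^ (1 - α / 8) := by
  filter_upwards [lineT h0 h1, eventually_ge_atTop 100] with T hl hT Y hY
  set z := ⌊T ^ α⌋₊ with hz
  set q : ℝ → ℝ := fun t => max 0 (min 1 (t - 3)) with hq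
  have hqc : Continuous q := by simp only [hq]; fun_prop
  have hq0 : ∀ t, 0 ≤ q t := fun t => le_max_left _ _
  have hq1 : ∀ t, q t ≤ 1 := fun t => max_le (by norm_num) (min_le_left _ _)
  have hq3 : ∀ t, t ≤ 3 → q t = 0 := by
    intro t ht
    simp only [hq]
    exact max_eq_left ((min_le_right _ _).trans (by linarith))
  have hq4 : ∀ t, 4 ≤ t → q t = 1 := by
    intro t ht
    simp only [hq]
    rw [min_eq_left (by linarith), max_eq_right (by norm_num)]
  obtain ⟨hc, hfub⟩ := fubini_bound (1 - α / 16) (1 + α / 16) 2 (by linarith) (by norm_num)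
    (Gc Y z) (Gc_cont Y z).continuousOn q hqc (3 * T) (by linarith) (T ^ (1 - α / 8)) (by
      intro s hs
      have hs2 := hs.2.2
      rw [abs_le] at hs2
      have hcg : Continuous (fun t : ℝ => ‖Gc Y z (s + t * I)‖ ^ 2) :=
        ((Gc_cont Y z).comp (by fun_prop)).norm.pow 2
      have hqg : Continuous (fun t : ℝ => q t * ‖Gc Y z (s + t * I)‖ ^ 2) := hqc.mul hcg
      have e0 : (0 : ℝ) ≤ 3 := by norm_num
      have e1 : ∫ t in (0 : ℝ)..(3 * T), q t * ‖Gc Y z (s + t * I)‖ ^ 2 =
          ∫ t in (3 : ℝ)..(3 * T), q t * ‖Gc Y z (s + t * I)‖ ^ 2 := by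
        rw [← intervalIntegral.integral_add_adjacent_intervals (b := 3)
          (hqg.intervalIntegrable 0 3) (hqg.intervalIntegrable 3 (3 * T))]
        have : ∫ t in (0 : ℝ)..3, q t * ‖Gc Y z (s + t * I)‖ ^ 2 = 0 := by
          rw [intervalIntegral.integral_congr (g := fun _ => 0)]
          · simp
          · intro t ht
            rw [Set.uIcc_of_le e0] at ht
            show q t * ‖Gc Y z (s + t * I)‖ ^ 2 = 0
            rw [hq3 t ht.2, zero_mul]
        rw [this, zero_add]
      rw [e1]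
      have e2 : ∫ t in (3 : ℝ)..(3 * T), q t * ‖Gc Y z (s + t * I)‖ ^ 2 ≤
          ∫ t in (3 : ℝ)..(3 * T), ‖GG Y z (pt s.re (t + s.im))‖ ^ 2 := by
        refine intervalIntegral.integral_mono_on (by linarith)
          ((hqc.mul hcg).intervalIntegrable _ _) ?_ ?_
        · refine ContinuousOn.intervalIntegrable ?_
          rw [Set.uIcc_of_le (by linarith)]
          have h5 := (cont_GG Y z s.re).comp (t := Set.Ici 1) (s := Set.Icc 3 (3 * T))
            (f := fun t : ℝ => t + s.im) (by fun_prop)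
            (fun t ht => by rw [Set.mem_Ici]; linarith [ht.1])
          exact h5.norm.pow 2
        · intro t ht
          have e3 : s + t * I = pt s.re (t + s.im) := by
            unfold pt
            conv_lhs => rw [← Complex.re_add_im s]
            push_cast
            ring
          have e4 : Gc Y z (s + t * I) = GG Y z (pt s.re (t + s.im)) := by
            rw [Gc_eq, e3]
            rw [e3, pt_im]
            linarith [ht.1]
          rw [e4]
          have := hq1 t
          have h6 := sq_nonneg ‖GG Y z (pt s.re (t + s.im))‖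
          nlinarith
      refine e2.trans ?_
      have e5 : ∫ t in (3 : ℝ)..(3 * T), ‖GG Y z (pt s.re (t + s.im))‖ ^ 2 =
          ∫ t in (3 + s.im)..(3 * T + s.im), ‖GG Y z (pt s.re t)‖ ^ 2 :=
        intervalIntegral.integral_comp_add_right (fun t => ‖GG Y z (pt s.re t)‖ ^ 2) s.im
      rw [e5]
      have h7 := hl Y hY s.re (by rw [abs_le]; constructor <;> linarith [hs.1, hs.2.1])
      refine le_trans ?_ h7
      refine intervalIntegral.integral_mono_interval (by linarith) (by linarith) (by linarith)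
        (Eventually.of_forall fun _ => sq_nonneg _) ?_
      refine ContinuousOn.intervalIntegrable ?_
      rw [Set.uIcc_of_le (by linarith)]
      exact ((cont_GG Y z s.re).mono fun t ht => ht.1).norm.pow 2)
  have hc' : Continuous (Ph (α / 16) Y z) := hc
  refine ⟨hc', ?_⟩
  have e1 : ∫ t in (4 : ℝ)..(3 * T), Ph (α / 16) Y z t =
      ∫ t in (4 : ℝ)..(3 * T), q t * Ph (α / 16) Y z t := by
    refine intervalIntegral.integral_congr fun t ht => ?_
    rw [Set.uIcc_of_le (by linarith)] at ht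
    show Ph (α / 16) Y z t = q t * Ph (α / 16) Y z t
    rw [hq4 t ht.1, one_mul]
  rw [e1]
  have e2 : ∫ t in (4 : ℝ)..(3 * T), q t * Ph (α / 16) Y z t ≤
      ∫ t in (0 : ℝ)..(3 * T), q t * Ph (α / 16) Y z t :=
    intervalIntegral.integral_mono_interval (by norm_num) (by linarith) le_rfl
      (Eventually.of_forall fun t => mul_nonneg (hq0 t) (Ph_nonneg _ _ _ _))
      ((hqc.mul hc').intervalIntegrable _ _)
  refine e2.trans (hfub.trans ?_)
  have : (0 : ℝ) ≤ T ^ (1 - α / 8) := by positivity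
  nlinarith

open Classical in
/-- **the sum over the zeros, with a power saving** -/
theorem zsum {α : ℝ} (h0 : 0 < α) (h1 : α ≤ 1) : ∀ᶠ T : ℝ in atTop, ∀ Y : ℕ,
    (4 : ℝ) ^ Y ≤ T ^ (α / 64) → ∀ K : ℝ, K ≤ T / 2 →
    ∑ s ∈ Zf riemannZeta T (T + K), (mult riemannZeta s : ℝ) *
      ‖GG Y ⌊T ^ α⌋₊ (pt 1 s.im)‖ ^ 2 ≤ T ^ (1 - α / 16) := by
  obtain ⟨Cz, hCz, hloc⟩ := zcount good_zeta
  obtain ⟨C, hC, harea⟩ := area (r := α / 16) (by positivity)
  have hlog : ∀ᶠ T : ℝ in atTop, Cz * (2 * Real.log T) * C ≤ T ^ (α / 16) := by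
    have e1 : (fun x : ℝ => Real.log x) =o[atTop] fun x => x ^ (α / 16) :=
      isLittleO_log_rpow_atTop (by positivity)
    have e2 := e1.bound (show (0 : ℝ) < 1 / (2 * Cz * C) by positivity)
    filter_upwards [e2, eventually_ge_atTop 1] with T a1 a2
    rw [Real.norm_of_nonneg (Real.log_nonneg a2), Real.norm_of_nonneg (by positivity)] at a1
    have : Cz * (2 * Real.log T) * C = (2 * Cz * C) * Real.log T := by ring
    rw [this]
    calc 2 * Cz * C * Real.log T ≤ 2 * Cz * C * (1 / (2 * Cz * C) * T ^ (α / 16)) := by gcongr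
      _ = _ := by field_simp
  filter_upwards [phint h0 h1, hlog, eventually_ge_atTop 100] with T hph hlg hT Y hY K hK
  obtain ⟨hPc, hPi⟩ := hph Y hY
  set z := ⌊T ^ α⌋₊ with hz
  set F := Zf riemannZeta T (T + K) with hF
  set Fl : ℂ → ℕ := fun s => ⌊s.im⌋₊ with hFl
  have hT0 : (0 : ℝ) < T := by linarith
  have hlogT : 0 < Real.log T := Real.log_pos (by linarith)
  have hFim : ∀ s ∈ F, T < s.im ∧ s.im ≤ 3 / 2 * T := by
    intro s hs
    rw [hF, mem_Zf good_zeta (by linarith)] at hs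
    exact ⟨hs.2.2.1, by linarith [hs.2.2.2.1]⟩
  set N1 := ⌊T⌋₊ with hN1
  set N2 := ⌊3 / 2 * T⌋₊ + 1 with hN2
  have hmaps : ∀ s ∈ F, Fl s ∈ Finset.Ico N1 N2 := by
    intro s hs
    obtain ⟨b1, b2⟩ := hFim s hs
    rw [Finset.mem_Ico]
    exact ⟨Nat.floor_le_floor b1.le, Nat.lt_succ_of_le (Nat.floor_le_floor b2)⟩
  have hN1a : T - 1 < N1 := by
    have := Nat.lt_floor_add_one T
    linarith
  have hper : ∀ n ∈ Finset.Ico N1 N2, ∑ s ∈ F.filter (fun s => Fl s = n),
      (mult riemannZeta s : ℝ) * ‖GG Y z (pt 1 s.im)‖ ^ 2 ≤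
      Cz * (2 * Real.log T) * (C * ∫ t in (n : ℝ)..((n + 1 : ℕ) : ℝ), Ph (α / 16) Y z t) := by
    intro n hn
    rw [Finset.mem_Ico] at hn
    have hn1 : T - 1 < (n : ℝ) := by
      have : (N1 : ℝ) ≤ n := by exact_mod_cast hn.1
      linarith
    have hn2 : (n : ℝ) ≤ 3 / 2 * T := by
      have h3 : n ≤ ⌊3 / 2 * T⌋₊ := by omega
      calc (n : ℝ) ≤ (⌊3 / 2 * T⌋₊ : ℝ) := by exact_mod_cast h3
        _ ≤ _ := Nat.floor_le (by linarith)
    have hint : 0 ≤ ∫ t in (n : ℝ)..((n + 1 : ℕ) : ℝ), Ph (α / 16) Y z t :=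
      intervalIntegral.integral_nonneg (by push_cast; linarith) fun t _ => Ph_nonneg _ _ _ _
    have hone : ∀ s ∈ F.filter (fun s => Fl s = n), ‖GG Y z (pt 1 s.im)‖ ^ 2 ≤
        C * ∫ t in (n : ℝ)..((n + 1 : ℕ) : ℝ), Ph (α / 16) Y z t := by
      intro s hs
      rw [Finset.mem_filter] at hs
      obtain ⟨b1, b2⟩ := hFim s hs.1
      have c1 := Nat.floor_le (show 0 ≤ s.im by linarith)
      have c2 := Nat.lt_floor_add_one s.im
      have e : (⌊s.im⌋₊ : ℝ) = n := by exact_mod_cast hs.2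
      rw [e] at c1 c2
      have h3 : ∫ t in (n : ℝ)..((n + 1 : ℕ) : ℝ), ‖GG Y z (pt 1 s.im)‖ ^ 2 ≤
          ∫ t in (n : ℝ)..((n + 1 : ℕ) : ℝ), C * Ph (α / 16) Y z t := by
        refine intervalIntegral.integral_mono_on (by push_cast; linarith)
          intervalIntegrable_const ((hPc.const_mul C).intervalIntegrable _ _) fun t ht => ?_
        have ht2 := ht.2
        push_cast at ht2
        refine harea Y z s.im t (by linarith [ht.1]) ?_
        rw [abs_le]
        constructor <;> linarith [ht.1]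
      rw [intervalIntegral.integral_const, intervalIntegral.integral_const_mul] at h3
      push_cast at h3 ⊢
      simpa using h3
    have hcount : ∑ s ∈ F.filter (fun s => Fl s = n), (mult riemannZeta s : ℝ) ≤
        Cz * (2 * Real.log T) := by
      have hA : (1 : ℝ) ≤ (n : ℝ) + 1 / 2 - 1 := by linarith
      have h6 := hloc ((n : ℝ) + 1 / 2) (by linarith)
      have h7 : ∑ s ∈ F.filter (fun s => Fl s = n), (mult riemannZeta s : ℝ) ≤
          (NN riemannZeta ((n : ℝ) + 1 / 2 - 1) ((n : ℝ) + 1 / 2 + 1) : ℝ) := by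
        rw [H370.NN_eq good_zeta hA]
        push_cast
        refine Finset.sum_le_sum_of_subset_of_nonneg ?_ fun s _ _ => Nat.cast_nonneg _
        intro s hs
        rw [Finset.mem_filter] at hs
        have hsF := hs.1
        rw [hF, mem_Zf good_zeta (by linarith)] at hsF
        obtain ⟨d1, d2, d3, d4, d5⟩ := hsF
        rw [mem_Zf good_zeta hA]
        have hs0 : 0 ≤ s.im := by linarith
        have c3 := Nat.floor_le hs0
        have c4 := Nat.lt_floor_add_one s.im
        have e : (⌊s.im⌋₊ : ℝ) = n := by exact_mod_cast hs.2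
        rw [e] at c3 c4
        exact ⟨d1, d2, by linarith, by linarith, d5⟩
      refine h7.trans (h6.trans ?_)
      have h8 : Real.log ((n : ℝ) + 1 / 2) ≤ 2 * Real.log T := by
        rw [← Real.log_rpow (by linarith), show T ^ (2 : ℝ) = T ^ 2 by norm_cast]
        apply Real.log_le_log (by linarith)
        nlinarith
      gcongr
    calc ∑ s ∈ F.filter (fun s => Fl s = n), (mult riemannZeta s : ℝ) *
          ‖GG Y z (pt 1 s.im)‖ ^ 2
        ≤ ∑ s ∈ F.filter (fun s => Fl s = n), (mult riemannZeta s : ℝ) *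
          (C * ∫ t in (n : ℝ)..((n + 1 : ℕ) : ℝ), Ph (α / 16) Y z t) :=
          Finset.sum_le_sum fun s hs => mul_le_mul_of_nonneg_left (hone s hs) (Nat.cast_nonneg _)
      _ = (∑ s ∈ F.filter (fun s => Fl s = n), (mult riemannZeta s : ℝ)) *
          (C * ∫ t in (n : ℝ)..((n + 1 : ℕ) : ℝ), Ph (α / 16) Y z t) := by rw [Finset.sum_mul]
      _ ≤ _ := mul_le_mul_of_nonneg_right hcount (mul_nonneg hC.le hint)
  rw [← Finset.sum_fiberwise_of_maps_to hmaps]
  have hN12 : N1 ≤ N2 := by
    have : N1 ≤ ⌊3 / 2 * T⌋₊ := Nat.floor_le_floor (by linarith)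
    omega
  calc ∑ n ∈ Finset.Ico N1 N2, ∑ s ∈ F.filter (fun s => Fl s = n),
        (mult riemannZeta s : ℝ) * ‖GG Y z (pt 1 s.im)‖ ^ 2
      ≤ ∑ n ∈ Finset.Ico N1 N2, Cz * (2 * Real.log T) *
        (C * ∫ t in (n : ℝ)..((n + 1 : ℕ) : ℝ), Ph (α / 16) Y z t) := Finset.sum_le_sum hper
    _ = Cz * (2 * Real.log T) * C * ∑ n ∈ Finset.Ico N1 N2,
        ∫ t in (n : ℝ)..((n + 1 : ℕ) : ℝ), Ph (α / 16) Y z t := by
        rw [Finset.mul_sum]
        exact Finset.sum_congr rfl fun n _ => by ring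
    _ = Cz * (2 * Real.log T) * C * ∫ t in (N1 : ℝ)..(N2 : ℝ), Ph (α / 16) Y z t := by
        congr 1
        exact intervalIntegral.sum_integral_adjacent_intervals_Ico hN12
          (a := fun n : ℕ => (n : ℝ)) fun k _ => hPc.intervalIntegrable _ _
    _ ≤ Cz * (2 * Real.log T) * C * ∫ t in (4 : ℝ)..(3 * T), Ph (α / 16) Y z t := by
        refine mul_le_mul_of_nonneg_left ?_ (by positivity)
        refine intervalIntegral.integral_mono_interval (by linarith) (by exact_mod_cast hN12) ?_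
          (Eventually.of_forall fun t => Ph_nonneg _ _ _ _) (hPc.intervalIntegrable _ _)
        rw [hN2]
        push_cast
        have := Nat.floor_le (show 0 ≤ 3 / 2 * T by linarith)
        linarith
    _ ≤ T ^ (α / 16) * T ^ (1 - α / 8) := by
        refine mul_le_mul hlg hPi ?_ (by positivity)
        exact intervalIntegral.integral_nonneg (by linarith) fun t _ => Ph_nonneg _ _ _ _
    _ = T ^ (1 - α / 16) := by
        rw [← Real.rpow_add hT0]
        congr 1
        ring

end Run7.h751.KS
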