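import Pool.Agent.Run7.h751.KS.Cnt
import Pool.Agent.Run7.h751.KS.Zer

/-!
# Prescribed phases: the asymptotic form
-/

set_option autoImplicit false

open Finset Filter Topology

namespace Run7.h751.KS

open H370 (Zf mult)

lemma Lc_mono {A : ℝ} (hA : 0 ≤ A) {Y Y' : ℕ} (h1 : 1 ≤ Y) (h : Y ≤ Y') : Lc A Y ≤ Lc A Y' := by
  unfold Lc
  refine Nat.ceil_le_ceil (mul_le_mul_of_nonneg_left ?_ hA)
  exact Real.log_le_log (by exact_mod_cast h1) (by exact_mod_cast h)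

lemma pow_mono {Y Y' a b : ℕ} (h1 : 1 ≤ Y) (h : Y ≤ Y') (hab : a ≤ b) :
    (Y : ℝ) ^ a ≤ (Y' : ℝ) ^ b := by
  have h2 : (1 : ℝ) ≤ Y' := by exact_mod_cast h1.trans h
  calc (Y : ℝ) ^ a ≤ (Y' : ℝ) ^ a := by gcongr
    _ ≤ (Y' : ℝ) ^ b := pow_le_pow_right₀ h2 hab

theorem coreY {η : ℝ} (hη0 : 0 < η) (hη1 : η ≤ 1) :
    ∃ d c δ T0 : ℝ, ∃ Y0 : ℕ, 0 < d ∧ 0 < c ∧ 0 < δ ∧ 16 ≤ T0 ∧ 2 ≤ Y0 ∧ ∀ T : ℝ, T0 ≤ T → 
    ∀ K : ℝ, T ^ (1 - δ) ≤ K → K ≤ T / 2 → ∀ Y : ℕ, Y0 ≤ Y → Y ≤ Yc c T →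
    ∀ z : ℕ → ℂ, (∀ p : ℕ, p.Prime → ‖z p‖ = 1) →
    2 * K ≤ M0 T K ∧ M0 T K / 2 ≤ ((Gd d η Y z T K).card : ℝ) * (Y : ℝ) ^ (2 * Y) := by
  obtain ⟨d, δ0, T1, hd, hδ0, hT1, hbb⟩ := bb
  obtain ⟨α, hα0, hα1, hα2⟩ : ∃ α : ℝ, 0 < α ∧ α ≤ 1 ∧ α ≤ δ0 / 2 :=
    ⟨min 1 (δ0 / 2), lt_min one_pos (by linarith), min_le_left _ _, min_le_right _ _⟩
  obtain ⟨δ, hδ, hδ1, hδ2⟩ : ∃ δ : ℝ, 0 < δ ∧ δ ≤ δ0 ∧ δ ≤ α / 64 :=
    ⟨min δ0 (α / 64), lt_min hδ0 (by linarith), min_le_left _ _, min_le_right _ _⟩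
  set A := 32 / η ^ 2 with hA
  have hA1 : 1 ≤ A := by
    rw [hA, le_div_iff₀ (by positivity)]
    nlinarith
  obtain ⟨c, hc0, hcA, hcη⟩ : ∃ c : ℝ, 0 < c ∧ 2 * A * c ≤ δ0 / 4 ∧ 2 * c ≤ η := by
    refine ⟨min (δ0 / (8 * A)) (η / 2), by positivity, ?_, ?_⟩
    · have h1 : min (δ0 / (8 * A)) (η / 2) ≤ δ0 / (8 * A) := min_le_left _ _
      calc 2 * A * min (δ0 / (8 * A)) (η / 2) ≤ 2 * A * (δ0 / (8 * A)) := by gcongr
        _ = δ0 / 4 := by field_simp; ring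
    · have h1 : min (δ0 / (8 * A)) (η / 2) ≤ η / 2 := min_le_right _ _
      linarith
  have hcle : c ≤ 1 := by linarith
  have e1 := len_le hA1 hc0 hcle hcA
  have e2 := loss_le hc0 hcle hcη
  have e3 := exp_le_pow (a := α / 64) (by positivity)
  obtain ⟨Y1, hY1⟩ := eventually_atTop.mp (Lc_le hA1)
  obtain ⟨Y2, hY2⟩ := eventually_atTop.mp
    (tendsto_natCast_atTop_atTop.eventually_ge_atTop (100 / η ^ 2) :
      ∀ᶠ Y : ℕ in atTop, 100 / η ^ 2 ≤ (Y : ℝ))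
  have e6 := zsum hα0 hα1
  have e7 : ∀ᶠ T : ℝ in atTop, 200 / η ^ 2 ≤ T ^ (α / 32) :=
    (tendsto_rpow_atTop (by positivity)).eventually_ge_atTop _
  have e8 : ∀ᶠ T : ℝ in atTop, 16 ≤ Real.log T := Real.tendsto_log_atTop.eventually_ge_atTop _
  obtain ⟨T2, hT2⟩ := eventually_atTop.mp
    (e1.and (e2.and (e3.and (e6.and (e7.and (e8.and (log_log_large 1)))))))
  refine ⟨d, c, δ, max (max T1 T2) 16, max (max Y1 Y2) 100, hd, hc0, hδ, le_max_right _ _,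
    (by norm_num : 2 ≤ 100).trans (le_max_right _ _), ?_⟩
  intro T hT K hK1 hK2 Y hY0 hYc z hz
  have hTT1 : T1 ≤ T := ((le_max_left _ _).trans (le_max_left _ _)).trans hT
  have hTT2 : T2 ≤ T := ((le_max_right _ _).trans (le_max_left _ _)).trans hT
  have hT16 : 16 ≤ T := (le_max_right _ _).trans hT
  obtain ⟨f1, f2, f3, f6, f7, f8, f9⟩ := hT2 T hTT2
  have hT0 : 0 < T := by linarith
  have hTone : 1 ≤ T := by linarith
  set L := Lc A Y with hL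
  have hYn : 100 ≤ Y := (le_max_right _ _).trans hY0
  have hYr : 100 / η ^ 2 ≤ (Y : ℝ) :=
    hY2 Y (((le_max_right _ _).trans (le_max_left _ _)).trans hY0)
  have f4 := hY1 Y (((le_max_left _ _).trans (le_max_left _ _)).trans hY0)
  have hY100 : (100 : ℝ) ≤ Y := by exact_mod_cast hYn
  have hone : 1 ≤ Y := by omega
  have f1' : (Y : ℝ) ^ (Y * L) ≤ T ^ (δ0 / 4) :=
    (pow_mono hone hYc (Nat.mul_le_mul hYc (Lc_mono (by linarith) hone hYc))).trans f1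
  have f2' : (Y : ℝ) ^ (2 * Y) ≤ Real.exp (η * (Real.log T / Real.log (Real.log T))) :=
    (pow_mono hone hYc (by omega)).trans f2
  have hK1' : T ^ (1 - δ0) ≤ K :=
    (Real.rpow_le_rpow_of_exponent_le hTone (by linarith)).trans hK1
  have hBB := hbb T hTT1 K hK1' hK2
  have hE1 : (Y : ℝ) ^ (2 * Y) ≤ T ^ (α / 64) := by
    refine f2'.trans (le_trans ?_ f3)
    apply Real.exp_le_exp.mpr
    have h0 : 0 ≤ Real.log T / Real.log (Real.log T) := by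
      apply div_nonneg <;> linarith
    nlinarith
  have h4Y : (4 : ℝ) ^ Y ≤ T ^ (α / 64) := by
    refine le_trans ?_ hE1
    calc (4 : ℝ) ^ Y ≤ (Y : ℝ) ^ Y := by
          gcongr
          linarith
      _ ≤ (Y : ℝ) ^ (2 * Y) := pow_le_pow_right₀ (by linarith) (by omega)
  have hgg := f6 Y h4Y K hK2
  have hzz : ((⌊T ^ α⌋₊ : ℕ) : ℝ) ≤ T ^ (δ0 / 2) :=
    (Nat.floor_le (by positivity)).trans (Real.rpow_le_rpow_of_exponent_le hTone hα2)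
  have hK0 : 0 < K := lt_of_lt_of_le (by positivity) hK1
  have hpi := Real.pi_pos
  have hpi2 := Real.pi_lt_d2
  have hM2 : 2 * K ≤ M0 T K := by
    unfold M0
    rw [div_mul_eq_mul_div, le_div_iff₀ (by positivity)]
    have : 4 * Real.pi ≤ Real.log T := by linarith
    nlinarith
  have hM : 0 < M0 T K := by linarith
  have hB2 : 2 / η ^ 2 * ((Y : ℝ) ^ (2 * Y) * T ^ (1 - α / 16)) ≤ M0 T K / 100 := by
    have h1 : (Y : ℝ) ^ (2 * Y) * T ^ (1 - α / 16) ≤ T ^ (1 - 3 * α / 64) := by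
      calc (Y : ℝ) ^ (2 * Y) * T ^ (1 - α / 16) ≤ T ^ (α / 64) * T ^ (1 - α / 16) := by gcongr
        _ = T ^ (1 - 3 * α / 64) := by
            rw [← Real.rpow_add hT0]
            congr 1
            ring
    have h2 : T ^ (α / 32) * T ^ (1 - 3 * α / 64) ≤ K := by
      refine le_trans ?_ hK1
      rw [← Real.rpow_add hT0]
      exact Real.rpow_le_rpow_of_exponent_le hTone (by linarith)
    have h3 : 0 < T ^ (1 - 3 * α / 64) := by positivity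
    calc 2 / η ^ 2 * ((Y : ℝ) ^ (2 * Y) * T ^ (1 - α / 16))
        ≤ 2 / η ^ 2 * T ^ (1 - 3 * α / 64) := by gcongr
      _ = 200 / η ^ 2 * T ^ (1 - 3 * α / 64) / 100 := by ring
      _ ≤ T ^ (α / 32) * T ^ (1 - 3 * α / 64) / 100 := by gcongr
      _ ≤ K / 100 := by gcongr
      _ ≤ _ := by linarith
  exact ⟨hM2, count (d := d) (L := L) hBB hTone hδ0 hM f1' hone hzz hη0 hη1 hYr
    (fun p hp => hz p (PY_prime hp)) (Lc_ge) f4.2 hgg hB2⟩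

end Run7.h751.KS
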