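import Pool.Agent.Run7.h751.KS.Coef

/-!
# Every point of the disc is a product with prescribed phases
-/

set_option autoImplicit false

open Finset Filter Topology

namespace Run7.h751.KS

/-- `e ^ (i x)` -/
noncomputable def eu (x : ℝ) : ℂ := Complex.exp (Complex.I * x)

lemma eu_norm (x : ℝ) : ‖eu x‖ = 1 := by
  unfold eu
  rw [mul_comm, Complex.norm_exp_ofReal_mul_I]

lemma eu_add (x y : ℝ) : eu (x + y) = eu x * eu y := by
  unfold eu
  rw [← Complex.exp_add]
  push_cast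
  ring_nf

lemma eu_zero : eu 0 = 1 := by
  unfold eu
  simp

lemma eu_neg (x : ℝ) : eu (-x) * eu x = 1 := by
  rw [← eu_add]
  simp [eu_zero]

lemma eu_sum {P : Finset ℕ} (f : ℕ → ℝ) : eu (∑ p ∈ P, f p) = ∏ p ∈ P, eu (f p) := by
  unfold eu
  rw [← Complex.exp_sum]
  push_cast
  rw [mul_sum]

lemma eu_sub (x : ℝ) : ‖eu x - 1‖ ≤ |x| := Real.norm_exp_I_mul_ofReal_sub_one_le

lemma eu_sub2 {x : ℝ} (hx : |x| ≤ 1) : ‖eu x - 1 - Complex.I * x‖ ≤ x ^ 2 := by
  have h1 : ‖Complex.I * (x : ℂ)‖ = |x| := by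
    rw [norm_mul, Complex.norm_I, one_mul, Complex.norm_real, Real.norm_eq_abs]
  have h := Complex.norm_exp_sub_one_sub_id_le (x := Complex.I * (x : ℂ)) (by rw [h1]; exact hx)
  rw [h1, sq_abs] at h
  exact h

/-- the two products that we need -/
structure Fac (F : ℕ → ℂ → ℂ) (κ : ℝ) : Prop where
  pos : 0 < κ
  ne : ∀ p : ℕ, p.Prime → F p 1 ≠ 0
  one : ∀ p : ℕ, p.Prime → ∀ ξ : ℂ, ‖ξ‖ = 1 →
    ‖F p ξ / F p 1 - 1 - (ξ - 1) / p‖ ≤ 2 * ‖ξ - 1‖ / (p : ℝ) ^ 2
  two : ∀ p : ℕ, p.Prime → ∀ ξ : ℂ, ‖ξ‖ = 1 → ‖F p ξ - 1 - ξ / p‖ ≤ 2 / (p : ℝ) ^ 2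
  lim : Tendsto (fun N : ℕ => (∏ p ∈ PY N, F p 1) / (Real.log N : ℂ)) atTop (𝓝 (κ : ℂ))

lemma PY_mono {u Y : ℕ} (h : u ≤ Y) : PY u ⊆ PY Y := by
  intro p hp
  unfold PY at *
  rw [mem_filter, mem_Icc] at *
  exact ⟨⟨hp.1.1, hp.1.2.trans h⟩, hp.2⟩

lemma mem_PY {p Y : ℕ} : p ∈ PY Y ↔ p.Prime ∧ p ≤ Y := by
  unfold PY
  rw [mem_filter, mem_Icc]
  exact ⟨fun h => ⟨h.2, h.1.2⟩, fun h => ⟨⟨h.1.pos, h.2⟩, h.1⟩⟩

lemma sumsq_tail {u Y : ℕ} (hu : 1 ≤ u) (h : u ≤ Y) :
    ∑ p ∈ PY Y \ PY u, 1 / (p : ℝ) ^ 2 ≤ 1 / (u : ℝ) := by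
  calc ∑ p ∈ PY Y \ PY u, 1 / (p : ℝ) ^ 2 ≤ ∑ k ∈ Ioc u Y, ((k : ℝ) ^ 2)⁻¹ := by
        simp only [one_div]
        refine sum_le_sum_of_subset_of_nonneg ?_ fun _ _ _ => by positivity
        intro p hp
        rw [Finset.mem_sdiff, mem_PY, mem_PY] at hp
        rw [mem_Ioc]
        refine ⟨?_, hp.1.2⟩
        by_contra hc
        exact hp.2 ⟨hp.1.1, by omega⟩
    _ ≤ (u : ℝ)⁻¹ - (Y : ℝ)⁻¹ := sum_Ioc_inv_sq_le_sub (by omega) h
    _ ≤ 1 / (u : ℝ) := by
        have : (0 : ℝ) ≤ (Y : ℝ)⁻¹ := by positivity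
        rw [one_div]
        linarith

lemma sumsq (u : ℕ) : ∑ p ∈ PY u, 1 / (p : ℝ) ^ 2 ≤ 1 := by
  by_cases h : 1 ≤ u
  · have h1 := sumsq_tail (u := 1) le_rfl h
    have h2 : PY 1 = ∅ := by
      refine eq_empty_of_forall_notMem fun p hp => ?_
      rw [mem_PY] at hp
      have := hp.1.two_le
      omega
    rw [h2, sdiff_empty] at h1
    simpa using h1
  · have h0 : u = 0 := by omega
    subst h0
    have : PY 0 = ∅ := by
      refine eq_empty_of_forall_notMem fun p hp => ?_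
      rw [mem_PY] at hp
      have := hp.1.two_le
      omega
    rw [this, sum_empty]
    norm_num

/-- the sum of the reciprocals of the primes -/
noncomputable def Sp (u : ℕ) : ℝ := ∑ p ∈ PY u, 1 / (p : ℝ)

lemma Sp_tendsto : Tendsto Sp atTop atTop := by
  have h1 := not_summable_one_div_on_primes
  rw [not_summable_iff_tendsto_nat_atTop_of_nonneg] at h1
  · have h2 := h1.comp (tendsto_add_atTop_nat 1)
    refine h2.congr fun n => ?_
    simp only [Function.comp]
    unfold Sp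
    have e : PY n = (range (n + 1)).filter Nat.Prime := by
      ext p
      rw [mem_PY, mem_filter, mem_range]
      constructor
      · rintro ⟨a, b⟩
        exact ⟨by omega, a⟩
      · rintro ⟨a, b⟩
        exact ⟨b, by omega⟩
    rw [e, sum_filter]
    refine sum_congr rfl fun k _ => ?_
    by_cases hk : k.Prime
    · rw [Set.indicator_of_mem (show k ∈ {p : ℕ | p.Prime} from hk), if_pos hk]
    · rw [Set.indicator_of_notMem (show k ∉ {p : ℕ | p.Prime} from hk), if_neg hk]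
  · intro n
    refine Set.indicator_nonneg (fun k _ => by positivity) n

section

variable {F : ℕ → ℂ → ℂ} {κ : ℝ}

lemma block1 (h : Fac F κ) (u : ℕ) {φ : ℝ} (hφ : |φ| ≤ 1) :
    ‖∏ p ∈ PY u, (F p (eu φ) / F p 1 * eu (-(φ * (1 / p)))) - 1‖ ≤
      Real.exp (4 * |φ| + φ ^ 2 * Sp u) - 1 := by
  have e1 : ∏ p ∈ PY u, (F p (eu φ) / F p 1 * eu (-(φ * (1 / p)))) =
      ∏ p ∈ PY u, (1 + (F p (eu φ) / F p 1 * eu (-(φ * (1 / p))) - 1)) :=
    prod_congr rfl fun p _ => by ring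
  rw [e1]
  refine (Finset.norm_prod_one_add_sub_one_le _ _).trans ?_
  have h1 : ∑ p ∈ PY u, ‖F p (eu φ) / F p 1 * eu (-(φ * (1 / p))) - 1‖ ≤
      4 * |φ| + φ ^ 2 * Sp u := by
    calc ∑ p ∈ PY u, ‖F p (eu φ) / F p 1 * eu (-(φ * (1 / p))) - 1‖
        ≤ ∑ p ∈ PY u, ((2 * |φ| + φ ^ 2) * (1 / (p : ℝ) ^ 2) + φ ^ 2 * (1 / (p : ℝ))) := by
          refine sum_le_sum fun p hp => ?_
          have hpp := PY_prime hp
          have hp0 : (0 : ℝ) < p := by exact_mod_cast hpp.pos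
          have hp1 : (1 : ℝ) ≤ p := by exact_mod_cast hpp.one_lt.le
          have hpc : (p : ℂ) ≠ 0 := by exact_mod_cast hpp.ne_zero
          have a1 := h.one p hpp (eu φ) (eu_norm φ)
          have a2 := eu_sub2 hφ
          have hx : |φ * (1 / p)| ≤ 1 := by
            rw [abs_mul, abs_of_pos (show (0 : ℝ) < 1 / p by positivity)]
            have : (1 : ℝ) / p ≤ 1 := by rw [div_le_one hp0]; exact hp1
            have h0 := abs_nonneg φ
            have h00 : (0 : ℝ) < 1 / p := by positivity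
            nlinarith
          have a3 := eu_sub2 hx
          have a4 := eu_sub φ
          have e2 : F p (eu φ) / F p 1 * eu (-(φ * (1 / p))) - 1 =
              ((F p (eu φ) / F p 1 - 1 - (eu φ - 1) / p) +
                (eu φ - 1 - Complex.I * φ) / p -
                (eu (φ * (1 / p)) - 1 - Complex.I * ((φ * (1 / p) : ℝ) : ℂ))) *
                  eu (-(φ * (1 / p))) := by
            have e3 := eu_neg (φ * (1 / p))
            have e4 : (F p (eu φ) / F p 1 - 1 - (eu φ - 1) / p) +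
                (eu φ - 1 - Complex.I * φ) / p -
                (eu (φ * (1 / p)) - 1 - Complex.I * ((φ * (1 / p) : ℝ) : ℂ)) =
                F p (eu φ) / F p 1 - eu (φ * (1 / p)) := by
              push_cast
              field_simp
              ring
            rw [e4, sub_mul, mul_comm (eu (φ * (1 / p))) (eu (-(φ * (1 / p)))), e3]
          rw [e2, norm_mul, eu_norm, mul_one]
          refine (norm_sub_le _ _).trans ?_
          refine (add_le_add (norm_add_le _ _) le_rfl).trans ?_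
          rw [norm_div, Complex.norm_natCast]
          have b1 : 2 * ‖eu φ - 1‖ / (p : ℝ) ^ 2 ≤ 2 * |φ| * (1 / (p : ℝ) ^ 2) := by
            rw [mul_one_div]
            gcongr
          have b2 : ‖eu φ - 1 - Complex.I * φ‖ / p ≤ φ ^ 2 * (1 / (p : ℝ)) := by
            rw [mul_one_div]
            gcongr
          have b3 : (φ * (1 / (p : ℝ))) ^ 2 = φ ^ 2 * (1 / (p : ℝ) ^ 2) := by
            rw [mul_pow, div_pow, one_pow]
          rw [b3] at a3
          linarith
      _ = (2 * |φ| + φ ^ 2) * ∑ p ∈ PY u, 1 / (p : ℝ) ^ 2 + φ ^ 2 * Sp u := by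
          rw [sum_add_distrib, ← mul_sum, ← mul_sum]
          rfl
      _ ≤ (2 * |φ| + φ ^ 2) * 1 + φ ^ 2 * Sp u := by
          have := sumsq u
          gcongr
      _ ≤ _ := by
          have : φ ^ 2 ≤ |φ| := by
            rw [← sq_abs]
            nlinarith [abs_nonneg φ]
          nlinarith [abs_nonneg φ]
  have := Real.exp_le_exp.mpr h1
  linarith

lemma block2 (h : Fac F κ) {u Y : ℕ} (hu : 1 ≤ u) (huY : u ≤ Y) :
    ‖∏ p ∈ PY Y \ PY u, (F p Complex.I * eu (-(1 / p))) - 1‖ ≤ Real.exp (3 / u) - 1 := by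
  have e1 : ∏ p ∈ PY Y \ PY u, (F p Complex.I * eu (-(1 / p))) =
      ∏ p ∈ PY Y \ PY u, (1 + (F p Complex.I * eu (-(1 / p)) - 1)) :=
    prod_congr rfl fun p _ => by ring
  rw [e1]
  refine (Finset.norm_prod_one_add_sub_one_le _ _).trans ?_
  have h1 : ∑ p ∈ PY Y \ PY u, ‖F p Complex.I * eu (-(1 / p)) - 1‖ ≤ 3 / u := by
    calc ∑ p ∈ PY Y \ PY u, ‖F p Complex.I * eu (-(1 / p)) - 1‖
        ≤ ∑ p ∈ PY Y \ PY u, 3 * (1 / (p : ℝ) ^ 2) := by
          refine sum_le_sum fun p hp => ?_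
          rw [Finset.mem_sdiff] at hp
          have hpp := PY_prime hp.1
          have hp0 : (0 : ℝ) < p := by exact_mod_cast hpp.pos
          have hp1 : (1 : ℝ) ≤ p := by exact_mod_cast hpp.one_lt.le
          have hpc : (p : ℂ) ≠ 0 := by exact_mod_cast hpp.ne_zero
          have a1 := h.two p hpp Complex.I Complex.norm_I
          have hx : |(1 / (p : ℝ))| ≤ 1 := by
            rw [abs_of_pos (show (0 : ℝ) < 1 / p by positivity), div_le_one hp0]
            exact hp1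
          have a3 := eu_sub2 hx
          have e2 : F p Complex.I * eu (-(1 / p)) - 1 =
              ((F p Complex.I - 1 - Complex.I / p) -
                (eu (1 / p) - 1 - Complex.I * ((1 / p : ℝ) : ℂ))) * eu (-(1 / p)) := by
            have e3 := eu_neg (1 / p)
            have e4 : (F p Complex.I - 1 - Complex.I / p) -
                (eu (1 / p) - 1 - Complex.I * ((1 / p : ℝ) : ℂ)) =
                F p Complex.I - eu (1 / p) := by
              push_cast
              field_simp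
              ring
            rw [e4, sub_mul, mul_comm (eu (1 / p)) (eu (-(1 / p))), e3]
          rw [e2, norm_mul, eu_norm, mul_one]
          refine (norm_sub_le _ _).trans ?_
          rw [div_pow, one_pow] at a3
          have : 2 / (p : ℝ) ^ 2 = 2 * (1 / (p : ℝ) ^ 2) := by ring
          linarith
      _ = 3 * ∑ p ∈ PY Y \ PY u, 1 / (p : ℝ) ^ 2 := by rw [mul_sum]
      _ ≤ 3 * (1 / u) := by
          have := sumsq_tail hu huY
          gcongr
      _ = _ := by ring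
  have := Real.exp_le_exp.mpr h1
  linarith

/-- **every point of the disc** -/
theorem disc (h : Fac F κ) {ε : ℝ} (hε : 0 < ε) : ∀ᶠ Y : ℕ in atTop, ∀ w : ℂ, ‖w‖ ≤ 1 →
    ∃ ξ : ℕ → ℂ, (∀ p, ‖ξ p‖ = 1) ∧
      ‖∏ p ∈ PY Y, F p (ξ p) - w * κ * (Real.log Y : ℂ)‖ ≤ ε * (κ * Real.log Y) := by
  obtain ⟨e, he0, he1, heε⟩ : ∃ e : ℝ, 0 < e ∧ e ≤ 1 / 10 ∧ 8 * e ≤ ε :=
    ⟨min (ε / 8) (1 / 10), lt_min (by linarith) (by norm_num), min_le_right _ _,
      by linarith [min_le_left (ε / 8) (1 / 10)]⟩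
  -- the thresholds for `u`
  have hU : ∀ᶠ u : ℕ in atTop,
      ‖(∏ p ∈ PY u, F p 1) / (Real.log u : ℂ) - κ‖ ≤ e * κ ∧ 80 / e ≤ Sp u ∧ 6 / e ≤ (u : ℝ) ∧
      2 ≤ u := by
    have h1 := (Metric.tendsto_nhds.mp h.lim) (e * κ) (mul_pos he0 h.pos)
    filter_upwards [h1, Sp_tendsto.eventually_ge_atTop (80 / e),
      tendsto_natCast_atTop_atTop.eventually_ge_atTop (6 / e), eventually_ge_atTop 2]
      with u a1 a2 a3 a4
    rw [dist_eq_norm] at a1
    exact ⟨a1.le, a2, a3, a4⟩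
  obtain ⟨U, hU⟩ := eventually_atTop.mp hU
  have hY1 : ∀ᶠ Y : ℕ in atTop, 2 * ((U : ℝ) + 2) ≤ (Y : ℝ) ^ e :=
    ((tendsto_rpow_atTop he0).comp tendsto_natCast_atTop_atTop).eventually_ge_atTop _
  have hY2 : ∀ᶠ Y : ℕ in atTop, 1 / e ≤ Real.log Y :=
    (Real.tendsto_log_atTop.comp tendsto_natCast_atTop_atTop).eventually_ge_atTop _
  filter_upwards [hY1, hY2, eventually_ge_atTop 2] with Y hY1 hY2 hY3 w hw
  have hY0 : (2 : ℝ) ≤ Y := by exact_mod_cast hY3
  have hlY : 0 < Real.log Y := Real.log_pos (by linarith)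
  obtain ⟨w0, hw1, hw2, hw3⟩ : ∃ w0 : ℂ, e ≤ ‖w0‖ ∧ ‖w0‖ ≤ 1 ∧ ‖w0 - w‖ ≤ 2 * e := by
    by_cases hc : e ≤ ‖w‖
    · exact ⟨w, hc, hw, by simp; linarith⟩
    · push Not at hc
      refine ⟨(e : ℂ), ?_, ?_, ?_⟩
      · rw [Complex.norm_real, Real.norm_of_nonneg he0.le]
      · rw [Complex.norm_real, Real.norm_of_nonneg he0.le]
        linarith
      · refine (norm_sub_le _ _).trans ?_
        rw [Complex.norm_real, Real.norm_of_nonneg he0.le]
        linarith
  set ρ := ‖w0‖ with hρ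
  set u := ⌊(Y : ℝ) ^ ρ⌋₊ with hu
  have hρ0 : 0 < ρ := by linarith
  have hYρ : (Y : ℝ) ^ e ≤ (Y : ℝ) ^ ρ := Real.rpow_le_rpow_of_exponent_le (by linarith) hw1
  have hu1 : (Y : ℝ) ^ ρ - 1 < u := by
    have := Nat.lt_floor_add_one ((Y : ℝ) ^ ρ)
    linarith
  have hu2 : (u : ℝ) ≤ (Y : ℝ) ^ ρ := Nat.floor_le (by positivity)
  have hu3 : u ≤ Y := by
    have h1 : (Y : ℝ) ^ ρ ≤ (Y : ℝ) ^ (1 : ℝ) :=
      Real.rpow_le_rpow_of_exponent_le (by linarith) hw2
    rw [Real.rpow_one] at h1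
    exact_mod_cast hu2.trans h1
  have hu4 : (U : ℝ) + 2 ≤ u := by
    have : (0 : ℝ) ≤ U := Nat.cast_nonneg _
    linarith
  have hu5 : U ≤ u := by
    have : (U : ℝ) ≤ u := by linarith
    exact_mod_cast this
  obtain ⟨c1, c2, c3, c4⟩ := hU u hu5
  have hu6 : (2 : ℝ) ≤ u := by exact_mod_cast c4
  have hlu : 0 < Real.log u := Real.log_pos (by linarith)
  have hlu1 : Real.log u ≤ ρ * Real.log Y := by
    rw [← Real.log_rpow (by linarith)]
    exact Real.log_le_log (by linarith) hu2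
  have hlu2 : ρ * Real.log Y - 1 ≤ Real.log u := by
    have h1 : (Y : ℝ) ^ ρ / 2 ≤ u := by
      have : (0 : ℝ) ≤ U := Nat.cast_nonneg _
      linarith
    have h2 : Real.log ((Y : ℝ) ^ ρ / 2) ≤ Real.log u := Real.log_le_log (by positivity) h1
    rw [Real.log_div (by positivity) (by norm_num), Real.log_rpow (by linarith)] at h2
    have := Real.log_two_lt_d9
    linarith
  have hluY : Real.log u ≤ Real.log Y := by nlinarith
  -- the phases
  set S' := ∑ p ∈ PY Y \ PY u, 1 / (p : ℝ) with hS'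
  set θ' := (eu (Complex.arg w0 - S')).arg with hθ'
  have hθ1 : |θ'| ≤ 4 := (Complex.abs_arg_le_pi _).trans (by linarith [Real.pi_lt_d2])
  have hθ2 : eu θ' = eu (Complex.arg w0 - S') := by
    have h1 := Complex.norm_mul_exp_arg_mul_I (eu (Complex.arg w0 - S'))
    rw [eu_norm] at h1
    simp only [Complex.ofReal_one, one_mul] at h1
    conv_rhs => rw [← h1]
    unfold eu
    rw [mul_comm]
    rfl
  set S := Sp u with hS
  have hS0 : 0 < S := lt_of_lt_of_le (by positivity) c2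
  set φ := θ' / S with hφ
  have hφS : φ * S = θ' := by rw [hφ]; field_simp
  have hφ1 : |φ| ≤ e / 20 := by
    rw [hφ, abs_div, abs_of_pos hS0, div_le_iff₀ hS0]
    have : 80 ≤ S * e := by rwa [div_le_iff₀ he0] at c2
    nlinarith
  have hφ2 : φ ^ 2 * S ≤ e / 5 := by
    have : φ ^ 2 * S = φ * θ' := by rw [← hφS]; ring
    rw [this]
    calc φ * θ' ≤ |φ * θ'| := le_abs_self _
      _ = |φ| * |θ'| := abs_mul _ _
      _ ≤ e / 20 * 4 := by gcongr
      _ = e / 5 := by ring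
  have hb1 := block1 h u (φ := φ) (by linarith)
  have hb2 := block2 h (by omega : 1 ≤ u) hu3
  set A := ∏ p ∈ PY u, F p 1 with hA
  set B := ∏ p ∈ PY u, (F p (eu φ) / F p 1 * eu (-(φ * (1 / p)))) with hB
  set C := ∏ p ∈ PY Y \ PY u, (F p Complex.I * eu (-(1 / p))) with hC
  have hexp : ∀ x : ℝ, 0 ≤ x → x ≤ e / 2 → Real.exp x - 1 ≤ e := by
    intro x hx0 hx1
    have h1 := Real.abs_exp_sub_one_le (x := x) (by rw [abs_of_nonneg hx0]; linarith)
    rw [abs_of_nonneg hx0] at h1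
    linarith [le_abs_self (Real.exp x - 1)]
  have hB1 : ‖B - 1‖ ≤ e := by
    refine hb1.trans (hexp _ (by positivity) ?_)
    rw [← hS]
    linarith
  have hC1 : ‖C - 1‖ ≤ e := by
    refine hb2.trans (hexp _ (by positivity) ?_)
    rw [div_le_iff₀ (by linarith)]
    rw [div_le_iff₀ he0] at c3
    linarith
  refine ⟨fun p => if p ≤ u then eu φ else Complex.I, ?_, ?_⟩
  · intro p
    show ‖(if p ≤ u then eu φ else Complex.I)‖ = 1
    split_ifs
    · exact eu_norm _
    · exact Complex.norm_I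
  have hprod : ∏ p ∈ PY Y, F p (if p ≤ u then eu φ else Complex.I) =
      A * B * C * eu (Complex.arg w0) := by
    rw [← prod_sdiff (PY_mono hu3)]
    have p1 : ∏ p ∈ PY Y \ PY u, F p (if p ≤ u then eu φ else Complex.I) = C * eu S' := by
      rw [hC, hS', eu_sum, ← prod_mul_distrib]
      refine prod_congr rfl fun p hp => ?_
      rw [Finset.mem_sdiff, mem_PY, mem_PY] at hp
      have : ¬ p ≤ u := fun hc => hp.2 ⟨hp.1.1, hc⟩
      rw [if_neg this, mul_assoc, eu_neg, mul_one]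
    have p2 : ∏ p ∈ PY u, F p (if p ≤ u then eu φ else Complex.I) = A * B * eu θ' := by
      rw [hA, hB, ← hφS, hS]
      unfold Sp
      rw [mul_sum, eu_sum, ← prod_mul_distrib, ← prod_mul_distrib]
      refine prod_congr rfl fun p hp => ?_
      rw [mem_PY] at hp
      rw [if_pos hp.2]
      have h0 := h.ne p hp.1
      have e3 := eu_neg (φ * (1 / p))
      calc F p (eu φ) = F p (eu φ) * (eu (-(φ * (1 / p))) * eu (φ * (1 / p))) := by
            rw [e3, mul_one]
        _ = _ := by field_simp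
    rw [p1, p2, hθ2]
    have e4 : eu (Complex.arg w0) = eu (Complex.arg w0 - S') * eu S' := by
      rw [← eu_add, sub_add_cancel]
    rw [e4]
    ring
  rw [hprod]
  have hw0 : w0 = ρ * eu (Complex.arg w0) := by
    have h1 := Complex.norm_mul_exp_arg_mul_I w0
    conv_lhs => rw [← h1]
    unfold eu
    rw [hρ, mul_comm Complex.I]
  have hκ := h.pos
  have hlc : (Real.log u : ℂ) ≠ 0 := by exact_mod_cast hlu.ne'
  have hAu : ‖A - κ * (Real.log u : ℂ)‖ ≤ e * κ * Real.log Y := by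
    have e5 : A - κ * (Real.log u : ℂ) = (A / (Real.log u : ℂ) - κ) * (Real.log u : ℂ) := by
      field_simp
    rw [e5, norm_mul, Complex.norm_real, Real.norm_of_nonneg hlu.le]
    gcongr
  have hBC : ‖B * C - 1‖ ≤ 3 * e := by
    have e6 : B * C - 1 = (B - 1) + (C - 1) + (B - 1) * (C - 1) := by ring
    rw [e6]
    refine (norm_add_le _ _).trans ?_
    rw [norm_mul]
    have := norm_add_le (B - 1) (C - 1)
    have h0 := norm_nonneg (B - 1)
    have h00 := norm_nonneg (C - 1)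
    nlinarith
  have hBC2 : ‖B * C‖ ≤ 2 := by
    have : B * C = (B * C - 1) + 1 := by ring
    rw [this]
    refine (norm_add_le _ _).trans ?_
    rw [norm_one]
    linarith
  have hmain : ‖A * B * C - ρ * κ * (Real.log Y : ℂ)‖ ≤ 6 * e * (κ * Real.log Y) := by
    have e7 : A * B * C - ρ * κ * (Real.log Y : ℂ) =
        (A - κ * (Real.log u : ℂ)) * (B * C) + κ * (Real.log u : ℂ) * (B * C - 1) +
          κ * ((Real.log u - ρ * Real.log Y : ℝ) : ℂ) := by
      push_cast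
      ring
    rw [e7]
    refine (norm_add_le _ _).trans ?_
    refine (add_le_add (norm_add_le _ _) le_rfl).trans ?_
    have f1 : ‖(A - κ * (Real.log u : ℂ)) * (B * C)‖ = ‖A - κ * (Real.log u : ℂ)‖ * ‖B * C‖ :=
      norm_mul _ _
    have f2 : ‖(κ : ℂ) * (Real.log u : ℂ) * (B * C - 1)‖ = κ * Real.log u * ‖B * C - 1‖ := by
      rw [norm_mul, norm_mul, Complex.norm_real, Complex.norm_real, Real.norm_of_nonneg hκ.le,
        Real.norm_of_nonneg hlu.le]
    have f3 : ‖(κ : ℂ) * ((Real.log u - ρ * Real.log Y : ℝ) : ℂ)‖ =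
        κ * |Real.log u - ρ * Real.log Y| := by
      rw [norm_mul, Complex.norm_real, Complex.norm_real, Real.norm_of_nonneg hκ.le,
        Real.norm_eq_abs]
    rw [f1, f2, f3]
    have d1 : ‖A - κ * (Real.log u : ℂ)‖ * ‖B * C‖ ≤ e * κ * Real.log Y * 2 := by gcongr
    have d2 : κ * Real.log u * ‖B * C - 1‖ ≤ κ * Real.log Y * (3 * e) := by gcongr
    have d3 : |Real.log u - ρ * Real.log Y| ≤ e * Real.log Y := by
      have : 1 ≤ e * Real.log Y := by
        rw [div_le_iff₀ he0] at hY2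
        linarith
      rw [abs_le]
      constructor <;> linarith
    have d4 : κ * |Real.log u - ρ * Real.log Y| ≤ κ * (e * Real.log Y) := by gcongr
    linarith
  have e8 : A * B * C * eu (Complex.arg w0) - w * κ * (Real.log Y : ℂ) =
      (A * B * C - ρ * κ * (Real.log Y : ℂ)) * eu (Complex.arg w0) +
        (w0 - w) * (κ * (Real.log Y : ℂ)) := by
    have : w0 * (κ * (Real.log Y : ℂ)) = ρ * κ * (Real.log Y : ℂ) * eu (Complex.arg w0) := by
      conv_lhs => rw [hw0]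
      ring
    rw [sub_mul, sub_mul, this]
    ring
  rw [e8]
  refine (norm_add_le _ _).trans ?_
  rw [norm_mul, eu_norm, mul_one, norm_mul, norm_mul, Complex.norm_real, Complex.norm_real,
    Real.norm_of_nonneg hκ.le, Real.norm_of_nonneg hlY.le]
  have d5 : ‖w0 - w‖ * (κ * Real.log Y) ≤ 2 * e * (κ * Real.log Y) := by gcongr
  have d6 : 8 * e * (κ * Real.log Y) ≤ ε * (κ * Real.log Y) := by gcongr
  linarith

end

end Run7.h751.KS
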