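import Pool.Agent.Run7.h751.KS.Disc
import Pool.Agent.H305R2.MertensE

/-!
# The two products
-/

set_option autoImplicit false

open Finset Filter Topology

namespace Run7.h751.KS

/-- `e ^ γ` -/
noncomputable def eg : ℝ := Real.exp Real.eulerMascheroniConstant

lemma eg_pos : 0 < eg := Real.exp_pos _

/-- the factors for zeta -/
noncomputable def F1 (p : ℕ) (ξ : ℂ) : ℂ := (1 - ξ / p)⁻¹

/-- the factors for the reciprocal -/
noncomputable def F2 (p : ℕ) (ξ : ℂ) : ℂ := 1 + ξ / p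

lemma one_sub_ne {p : ℕ} (hp : p.Prime) {ξ : ℂ} (hξ : ‖ξ‖ = 1) : 1 - ξ / p ≠ 0 := by
  intro h
  have hp1 : (1 : ℝ) < p := by exact_mod_cast hp.one_lt
  have h1 : ξ / p = 1 := (sub_eq_zero.mp h).symm
  have h2 : ‖ξ / (p : ℂ)‖ = 1 := by rw [h1, norm_one]
  rw [norm_div, hξ, Complex.norm_natCast, div_eq_one_iff_eq (by linarith)] at h2
  linarith

lemma one_sub_norm {p : ℕ} (hp : p.Prime) {ξ : ℂ} (hξ : ‖ξ‖ = 1) :
    (1 : ℝ) / 2 ≤ ‖1 - ξ / p‖ := by
  have hp2 : (2 : ℝ) ≤ p := by exact_mod_cast hp.two_le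
  have h1 := norm_sub_norm_le (1 : ℂ) (ξ / p)
  rw [norm_one, norm_div, hξ, Complex.norm_natCast] at h1
  have h2 : (1 : ℝ) / p ≤ 1 / 2 := one_div_le_one_div_of_le (by norm_num) hp2
  linarith

lemma lim1 : Tendsto (fun N : ℕ => (∏ p ∈ PY N, F1 p 1) / (Real.log N : ℂ)) atTop
    (𝓝 (eg : ℂ)) := by
  have h := Pool.Agent.H305R2.mertens_three
  have h2 := (Complex.continuous_ofReal.tendsto _).comp h
  refine h2.congr fun N => ?_
  simp only [Function.comp]
  push_cast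
  congr 1
  unfold PY F1
  refine prod_congr rfl fun p _ => ?_
  rw [one_div]

theorem fac1 : Fac F1 eg where
  pos := eg_pos
  ne p hp := by
    unfold F1
    exact inv_ne_zero (one_sub_ne hp norm_one)
  one p hp ξ hξ := by
    have hpc : (p : ℂ) ≠ 0 := by exact_mod_cast hp.ne_zero
    have hp0 : (0 : ℝ) < p := by exact_mod_cast hp.pos
    have h1 := one_sub_ne hp hξ
    have h2 := one_sub_norm hp hξ
    have e : F1 p ξ / F1 p 1 - 1 - (ξ - 1) / p = (ξ - 1) * ξ / (p ^ 2 * (1 - ξ / p)) := by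
      have h3 : (p : ℂ) - ξ ≠ 0 := by
        intro h
        apply h1
        rw [← sub_eq_zero.mp h, div_self hpc, sub_self]
      have h4 : (1 : ℂ) - ξ / p = (p - ξ) / p := by field_simp
      have h5 : (1 : ℂ) - 1 / p = (p - 1) / p := by field_simp
      unfold F1
      rw [h4, h5]
      simp only [inv_div]
      rw [div_div_div_eq]
      have h6 : (p : ℂ) / (p - ξ) = p / (p - ξ) := rfl
      have h7 : (p : ℂ) - 1 ≠ 0 := by
        intro h
        have : (p : ℂ) = 1 := sub_eq_zero.mp h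
        have : p = 1 := by exact_mod_cast this
        exact hp.one_lt.ne' this
      field_simp
      ring
    rw [e, norm_div, norm_mul, norm_mul, hξ, mul_one, norm_pow, Complex.norm_natCast]
    calc ‖ξ - 1‖ / ((p : ℝ) ^ 2 * ‖1 - ξ / p‖) ≤ ‖ξ - 1‖ / ((p : ℝ) ^ 2 * (1 / 2)) := by gcongr
      _ = _ := by field_simp
  two p hp ξ hξ := by
    have hpc : (p : ℂ) ≠ 0 := by exact_mod_cast hp.ne_zero
    have hp0 : (0 : ℝ) < p := by exact_mod_cast hp.pos
    have h1 := one_sub_ne hp hξ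
    have h2 := one_sub_norm hp hξ
    have e : F1 p ξ - 1 - ξ / p = ξ ^ 2 / (p ^ 2 * (1 - ξ / p)) := by
      unfold F1
      rw [eq_div_iff (by positivity : (p : ℂ) ^ 2 * (1 - ξ / p) ≠ 0)]
      have h3 : (1 - ξ / p)⁻¹ * (1 - ξ / p) = 1 := inv_mul_cancel₀ h1
      calc ((1 - ξ / p)⁻¹ - 1 - ξ / p) * ((p : ℂ) ^ 2 * (1 - ξ / p)) =
          (p : ℂ) ^ 2 * (((1 - ξ / p)⁻¹ * (1 - ξ / p)) - (1 + ξ / p) * (1 - ξ / p)) := by ring
        _ = ξ ^ 2 := by
            rw [h3]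
            field_simp
            ring
    rw [e, norm_div, norm_mul, norm_pow, norm_pow, hξ, Complex.norm_natCast, one_pow]
    calc 1 / ((p : ℝ) ^ 2 * ‖1 - ξ / p‖) ≤ 1 / ((p : ℝ) ^ 2 * (1 / 2)) := by gcongr
      _ = _ := by field_simp
  lim := lim1

lemma limsq : Tendsto (fun N : ℕ => ∏ p ∈ PY N, (1 - 1 / (p : ℂ) ^ 2)) atTop
    (𝓝 ((6 / Real.pi ^ 2 : ℝ) : ℂ)) := by
  have h := riemannZeta_eulerProduct (s := 2) (by norm_num)
  have hne : riemannZeta 2 ≠ 0 := riemannZeta_ne_zero_of_one_lt_re (by norm_num)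
  have h2 := (h.inv₀ hne).comp (tendsto_add_atTop_nat 1)
  rw [riemannZeta_two] at h2
  have e : ((6 / Real.pi ^ 2 : ℝ) : ℂ) = ((Real.pi : ℂ) ^ 2 / 6)⁻¹ := by
    push_cast
    rw [inv_div]
  rw [e]
  refine h2.congr fun N => ?_
  simp only [Function.comp]
  rw [← prod_inv_distrib]
  have e2 : (N + 1).primesBelow = PY N := by
    ext p
    rw [mem_PY, Nat.mem_primesBelow]
    constructor
    · rintro ⟨a, b⟩
      exact ⟨b, by omega⟩
    · rintro ⟨a, b⟩
      exact ⟨by omega, a⟩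
  rw [e2]
  refine prod_congr rfl fun p _ => ?_
  rw [inv_inv, Complex.cpow_neg, one_div]
  norm_cast

theorem fac2 : Fac F2 (6 / Real.pi ^ 2 * eg) where
  pos := by
    have := eg_pos
    have := Real.pi_pos
    positivity
  ne p hp := by
    unfold F2
    have hp0 : (0 : ℝ) < p := by exact_mod_cast hp.pos
    have : (1 : ℂ) + 1 / p = ((1 + 1 / p : ℝ) : ℂ) := by push_cast; rfl
    rw [this]
    have h0 : (0 : ℝ) < 1 + 1 / p := by positivity
    exact_mod_cast h0.ne'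
  one p hp ξ hξ := by
    have hpc : (p : ℂ) ≠ 0 := by exact_mod_cast hp.ne_zero
    have hp0 : (0 : ℝ) < p := by exact_mod_cast hp.pos
    have hp1 : (p : ℂ) + 1 ≠ 0 := by exact_mod_cast (Nat.succ_ne_zero p)
    have e : F2 p ξ / F2 p 1 - 1 - (ξ - 1) / p = -((ξ - 1) / (p * (p + 1))) := by
      unfold F2
      have h4 : (1 : ℂ) + ξ / p = (p + ξ) / p := by field_simp
      have h5 : (1 : ℂ) + 1 / p = (p + 1) / p := by field_simp
      rw [h4, h5]
      field_simp
      ring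
    rw [e, norm_neg, norm_div, norm_mul, Complex.norm_natCast]
    have h6 : ‖(p : ℂ) + 1‖ = (p : ℝ) + 1 := by
      have : (p : ℂ) + 1 = ((p + 1 : ℕ) : ℂ) := by push_cast; rfl
      rw [this, Complex.norm_natCast]
      push_cast
      rfl
    rw [h6, div_le_div_iff₀ (by positivity) (by positivity)]
    have h7 := norm_nonneg (ξ - 1)
    have h8 : (p : ℝ) ^ 2 ≤ 2 * (p * (p + 1)) := by nlinarith
    calc ‖ξ - 1‖ * (p : ℝ) ^ 2 ≤ ‖ξ - 1‖ * (2 * (p * (p + 1))) := by gcongr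
      _ = _ := by ring
  two p hp ξ hξ := by
    unfold F2
    have : (1 : ℂ) + ξ / p - 1 - ξ / p = 0 := by ring
    rw [this, norm_zero]
    positivity
  lim := by
    have h := limsq.mul lim1
    have e : ((6 / Real.pi ^ 2 * eg : ℝ) : ℂ) = ((6 / Real.pi ^ 2 : ℝ) : ℂ) * (eg : ℂ) := by
      push_cast
      rfl
    rw [e]
    refine h.congr fun N => ?_
    rw [← mul_div_assoc, ← prod_mul_distrib]
    congr 1
    refine prod_congr rfl fun p hp => ?_
    have hpp := PY_prime hp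
    have h1 := one_sub_ne hpp (ξ := 1) norm_one
    unfold F1 F2
    have : (1 : ℂ) - 1 / (p : ℂ) ^ 2 = (1 + 1 / p) * (1 - 1 / p) := by
      ring
    rw [this, mul_assoc, mul_inv_cancel₀ h1, mul_one]

end Run7.h751.KS
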