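import Pool.Agent.Run7.h751.KS.Cnt

/-!
# From the Euler product at the zero to the prescribed product
-/

set_option autoImplicit false

open Finset Filter Topology

namespace Run7.h751.KS

lemma sum_inv_sqrt (Y : ℕ) : ∑ n ∈ Icc 1 Y, 1 / √(n : ℝ) ≤ 2 * √(Y : ℝ) := by
  induction Y with
  | zero => simp
  | succ Y ih =>
    rw [sum_Icc_succ_top (by omega)]
    refine (add_le_add ih le_rfl).trans ?_
    have h0 : 0 ≤ √(Y : ℝ) := Real.sqrt_nonneg _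
    have h1 : 0 < √((Y + 1 : ℕ) : ℝ) := Real.sqrt_pos.mpr (by positivity)
    have h2 : √(Y : ℝ) ^ 2 = Y := Real.sq_sqrt (by positivity)
    have h3 : √((Y + 1 : ℕ) : ℝ) ^ 2 = Y + 1 := by
      rw [Real.sq_sqrt (by positivity)]
      push_cast
      ring
    rw [← sub_nonneg]
    have h4 : 2 * √((Y + 1 : ℕ) : ℝ) - (2 * √(Y : ℝ) + 1 / √((Y + 1 : ℕ) : ℝ)) =
        (√((Y + 1 : ℕ) : ℝ) - √(Y : ℝ)) ^ 2 / √((Y + 1 : ℕ) : ℝ) := by
      field_simp
      nlinarith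
    rw [h4]
    positivity

lemma sum_primes (Y : ℕ) (hY : 1 ≤ Y) : ∑ p ∈ PY Y, √((p : ℝ) / Y) / p ≤ 2 := by
  have hY0 : 0 < √(Y : ℝ) := Real.sqrt_pos.mpr (by exact_mod_cast hY)
  have h1 : ∀ p ∈ PY Y, √((p : ℝ) / Y) / p = 1 / √(p : ℝ) / √(Y : ℝ) := by
    intro p hp
    have hp0 : (0 : ℝ) < p := by exact_mod_cast (PY_prime hp).pos
    have h2 : √(p : ℝ) * √(p : ℝ) = p := Real.mul_self_sqrt hp0.le
    have h3 : 0 < √(p : ℝ) := Real.sqrt_pos.mpr hp0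
    rw [Real.sqrt_div hp0.le, div_div, div_div, div_eq_div_iff (by positivity) (by positivity)]
    calc √(p : ℝ) * (√(p : ℝ) * √(Y : ℝ)) = (√(p : ℝ) * √(p : ℝ)) * √(Y : ℝ) := by ring
      _ = 1 * (√(Y : ℝ) * p) := by rw [h2]; ring
  rw [sum_congr rfl h1, ← sum_div, div_le_iff₀ hY0]
  refine le_trans ?_ (sum_inv_sqrt Y)
  refine sum_le_sum_of_subset_of_nonneg ?_ fun _ _ _ => by positivity
  unfold PY
  exact filter_subset _ _

theorem trans' {η : ℝ} (hη0 : 0 < η) (h4 : 4 * η ≤ 1) {Y : ℕ} (hY : 1 ≤ Y) {z : ℕ → ℂ}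
    {t : ℝ} (hn : near η Y z t) (he : euler η Y t) :
    ‖riemannZeta (pt 1 t) * ∏ p ∈ PY Y, (1 - z p / p) - 1‖ ≤ 17 * η := by
  have hQ : Qs Y (pt 1 t) = ∏ p ∈ PY Y, (1 - ph p t / p) := by
    unfold Qs
    refine prod_congr rfl fun p hp => ?_
    rw [ph_cpow (PY_prime hp).one_lt.le]
    unfold inv1
    ring
  have hne : ∀ p ∈ PY Y, (1 - ph p t / p) ≠ 0 := by
    intro p hp h
    have hp1 : (1 : ℝ) < p := by exact_mod_cast (PY_prime hp).one_lt
    have h1 : ph p t / p = 1 := (sub_eq_zero.mp h).symm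
    have h2 : ‖ph p t / (p : ℂ)‖ = 1 := by rw [h1, norm_one]
    rw [norm_div, ph_norm, Complex.norm_natCast, div_eq_one_iff_eq (by linarith)] at h2
    linarith
  set x : ℕ → ℂ := fun p => (1 - z p / p) / (1 - ph p t / p) - 1 with hx
  have hprod : ∏ p ∈ PY Y, (1 - z p / p) = Qs Y (pt 1 t) * ∏ p ∈ PY Y, (1 + x p) := by
    rw [hQ, ← prod_mul_distrib]
    refine prod_congr rfl fun p hp => ?_
    simp only [hx]
    have := hne p hp
    field_simp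
    ring
  have hxn : ∀ p ∈ PY Y, ‖x p‖ ≤ 2 * η * (√((p : ℝ) / Y) / p) := by
    intro p hp
    have hp2 : (2 : ℝ) ≤ p := by exact_mod_cast (PY_prime hp).two_le
    have hpc : (p : ℂ) ≠ 0 := by exact_mod_cast (PY_prime hp).ne_zero
    have h1 := hne p hp
    have e1 : x p = (ph p t - z p) / (p * (1 - ph p t / p)) := by
      simp only [hx]
      rw [div_sub_one h1, ← div_div]
      congr 1
      field_simp
      ring
    have h2 : (p : ℝ) / 2 ≤ ‖(p : ℂ) * (1 - ph p t / p)‖ := by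
      have e2 : (p : ℂ) * (1 - ph p t / p) = p - ph p t := by field_simp
      rw [e2]
      have h3 := norm_sub_norm_le (p : ℂ) (ph p t)
      rw [ph_norm, Complex.norm_natCast] at h3
      linarith
    rw [e1, norm_div]
    have h5 := hn p hp
    calc ‖ph p t - z p‖ / ‖(p : ℂ) * (1 - ph p t / p)‖ ≤ η * √((p : ℝ) / Y) / (p / 2) := by
          gcongr
      _ = _ := by ring
  have hsum : ∑ p ∈ PY Y, ‖x p‖ ≤ 4 * η := by
    calc ∑ p ∈ PY Y, ‖x p‖ ≤ ∑ p ∈ PY Y, 2 * η * (√((p : ℝ) / Y) / p) := sum_le_sum hxn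
      _ = 2 * η * ∑ p ∈ PY Y, √((p : ℝ) / Y) / p := by rw [mul_sum]
      _ ≤ 2 * η * 2 := by
          have := sum_primes Y hY
          gcongr
      _ = _ := by ring
  have hE : ‖∏ p ∈ PY Y, (1 + x p) - 1‖ ≤ 8 * η := by
    refine (Finset.norm_prod_one_add_sub_one_le _ _).trans ?_
    have h1 : Real.exp (∑ p ∈ PY Y, ‖x p‖) ≤ Real.exp (4 * η) := Real.exp_le_exp.mpr hsum
    have h2 := Real.abs_exp_sub_one_le (x := 4 * η) (by rw [abs_of_nonneg (by linarith)]; exact h4)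
    rw [abs_of_nonneg (show 0 ≤ 4 * η by linarith)] at h2
    linarith [le_abs_self (Real.exp (4 * η) - 1)]
  have hF : ‖riemannZeta (pt 1 t) * Qs Y (pt 1 t) - 1‖ ≤ η := he
  rw [hprod]
  have e3 : riemannZeta (pt 1 t) * (Qs Y (pt 1 t) * ∏ p ∈ PY Y, (1 + x p)) - 1 =
      (riemannZeta (pt 1 t) * Qs Y (pt 1 t) - 1) + (∏ p ∈ PY Y, (1 + x p) - 1) +
        (riemannZeta (pt 1 t) * Qs Y (pt 1 t) - 1) * (∏ p ∈ PY Y, (1 + x p) - 1) := by ring
  rw [e3]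
  refine (norm_add_le _ _).trans ?_
  refine (add_le_add (norm_add_le _ _) le_rfl).trans ?_
  rw [norm_mul]
  have h6 : ‖riemannZeta (pt 1 t) * Qs Y (pt 1 t) - 1‖ * ‖∏ p ∈ PY Y, (1 + x p) - 1‖ ≤
      η * (8 * η) := by gcongr
  nlinarith

end Run7.h751.KS
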