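import Pool.Agent.Run7.h751.KS.Core
import Pool.Agent.Run7.h751.KS.Tra
import Pool.Agent.Run7.h751.KS.Mer

/-!
# Prescribed phases and prescribed values on the line `Re s = 1`
-/

set_option autoImplicit false

open Finset Filter Topology

namespace Run7.h751.KS

open H370 (Zf mult)

/-- the value is close to the prescribed product -/
def eulerz (η : ℝ) (Y : ℕ) (z : ℕ → ℂ) (t : ℝ) : Prop :=
  ‖riemannZeta (pt 1 t) * ∏ p ∈ PY Y, (1 - z p / p) - 1‖ ≤ η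

lemma pow_le_Yc {c ε : ℝ} (hc : 0 < c) (hε0 : 0 < ε) : ∀ᶠ T : ℝ in atTop,
    Real.log T ^ (1 - ε) ≤ c * Real.log T / Real.log (Real.log T) ^ 2 := by
  have e1 : (fun x : ℝ => Real.log x) =o[atTop] fun x => x ^ (ε / 4) :=
    isLittleO_log_rpow_atTop (by positivity)
  have e2 := (e1.bound (show (0 : ℝ) < 1 by norm_num)).and
    ((tendsto_rpow_atTop (y := ε / 2) (by positivity)).eventually_ge_atTop (1 / c))
  have e3 := Real.tendsto_log_atTop.eventually e2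
  filter_upwards [e3, log_log_large 1, eventually_ge_atTop 3] with T ⟨a1, a2⟩ a4 a5
  set x := Real.log T with hx
  have hx0 : 0 < x := Real.log_pos (by linarith)
  rw [Real.norm_of_nonneg (by linarith), Real.norm_of_nonneg (by positivity), one_mul] at a1
  rw [le_div_iff₀ (by positivity)]
  have h2 : Real.log x ^ 2 ≤ x ^ (ε / 2) := by
    calc Real.log x ^ 2 ≤ (x ^ (ε / 4)) ^ 2 := by gcongr
      _ = x ^ (ε / 2) := by
          rw [← Real.rpow_natCast, ← Real.rpow_mul hx0.le]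
          congr 1
          push_cast
          ring
  calc x ^ (1 - ε) * Real.log x ^ 2 ≤ x ^ (1 - ε) * x ^ (ε / 2) := by gcongr
    _ = c * (1 / c * (x ^ (1 - ε) * x ^ (ε / 2))) := by field_simp
    _ ≤ c * (x ^ (ε / 2) * (x ^ (1 - ε) * x ^ (ε / 2))) := by gcongr
    _ = c * x := by
        rw [← Real.rpow_add hx0, ← Real.rpow_add hx0]
        congr 1
        conv_rhs => rw [← Real.rpow_one x]
        congr 1
        ring

lemma eg_le : eg ≤ 3 := by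
  unfold eg
  have h1 := Real.eulerMascheroniConstant_lt_two_thirds
  have h2 : Real.exp Real.eulerMascheroniConstant ≤ Real.exp 1 := Real.exp_le_exp.mpr (by linarith)
  have h3 := Real.exp_one_lt_d9
  linarith

lemma kap_le : 6 / Real.pi ^ 2 * eg ≤ 3 := by
  have h1 := eg_le
  have h2 := eg_pos
  have h3 : 6 / Real.pi ^ 2 ≤ 1 := by
    rw [div_le_one (by positivity)]
    nlinarith [Real.pi_gt_three]
  nlinarith

/-- the direction for the product -/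
lemma dirE {w : ℂ} {η ρ ℓ1 ℓ2 : ℝ} (hη0 : 0 < η) (hρ : ρ = max ‖w‖ η - η / 2)
    (hℓ : 0 ≤ ℓ2) (h1 : ρ * ℓ2 - 1 ≤ ℓ1) (h2 : ℓ1 ≤ ρ * ℓ2) : ∃ w1 : ℂ, ‖w1‖ ≤ 1 ∧
    ∀ κ : ℝ, 0 ≤ κ → κ ≤ 3 → ‖w1 * κ * (ℓ1 : ℂ) - w * κ * (ℓ2 : ℂ)‖ ≤ 3 * (η * ℓ2 + 1) := by
  by_cases hc : η ≤ ‖w‖
  · rw [max_eq_left hc] at hρ
    have hw0 : 0 < ‖w‖ := by linarith
    have hwc : (‖w‖ : ℂ) ≠ 0 := by exact_mod_cast hw0.ne'
    refine ⟨w / ‖w‖, ?_, fun κ hκ0 hκ => ?_⟩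
    · rw [norm_div, Complex.norm_real, norm_norm, div_self hw0.ne']
    · have e : w / ‖w‖ * κ * (ℓ1 : ℂ) - w * κ * (ℓ2 : ℂ) =
          w / ‖w‖ * (κ * ((ℓ1 - ‖w‖ * ℓ2 : ℝ) : ℂ)) := by
        push_cast
        field_simp
      rw [e, norm_mul, norm_div, Complex.norm_real, norm_norm, div_self hw0.ne', one_mul, norm_mul,
        Complex.norm_real, Complex.norm_real, Real.norm_of_nonneg hκ0, Real.norm_eq_abs]
      have h3 : |ℓ1 - ‖w‖ * ℓ2| ≤ η * ℓ2 + 1 := by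
        rw [abs_le]
        have : 0 ≤ η * ℓ2 := by positivity
        constructor <;> nlinarith
      have h0 := abs_nonneg (ℓ1 - ‖w‖ * ℓ2)
      calc κ * |ℓ1 - ‖w‖ * ℓ2| ≤ 3 * |ℓ1 - ‖w‖ * ℓ2| := by gcongr
        _ ≤ _ := by gcongr
  · push Not at hc
    refine ⟨0, by simp, fun κ hκ0 hκ => ?_⟩
    rw [zero_mul, zero_mul, zero_sub, norm_neg, norm_mul, norm_mul, Complex.norm_real,
      Complex.norm_real, Real.norm_of_nonneg hκ0, Real.norm_of_nonneg hℓ]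
    have h0 := norm_nonneg w
    calc ‖w‖ * κ * ℓ2 ≤ η * 3 * ℓ2 := by gcongr
      _ ≤ _ := by linarith

/-- the value of zeta -/
lemma val1 {w w1 Z Q : ℂ} (hw : ‖w1‖ ≤ 1) {κ ℓ1 ℓ2 η E : ℝ} (hκ0 : 0 ≤ κ) (hκ : κ ≤ 3)
    (hη0 : 0 < η) (hη1 : 17 * η ≤ 1) (hℓ0 : 0 ≤ ℓ1)
    (h2 : ℓ1 ≤ ℓ2) (hQ : Q ≠ 0) (hZ : ‖Z * Q - 1‖ ≤ 17 * η)
    (hd : ‖Q⁻¹ - w1 * κ * (ℓ1 : ℂ)‖ ≤ η * (κ * ℓ1))
    (hE : ‖w1 * κ * (ℓ1 : ℂ) - w * κ * (ℓ2 : ℂ)‖ ≤ E) :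
    ‖Z - w * κ * (ℓ2 : ℂ)‖ ≤ 400 * η * ℓ2 + E := by
  have e1 : Z - w * κ * (ℓ2 : ℂ) = (Z * Q - 1) * Q⁻¹ + (Q⁻¹ - w1 * κ * (ℓ1 : ℂ)) +
      (w1 * κ * (ℓ1 : ℂ) - w * κ * (ℓ2 : ℂ)) := by
    field_simp
    ring
  have hk : 0 ≤ κ * ℓ1 := mul_nonneg hκ0 hℓ0
  have h3 : ‖Q⁻¹‖ ≤ 2 * (κ * ℓ1) := by
    have e2 : Q⁻¹ = (Q⁻¹ - w1 * κ * (ℓ1 : ℂ)) + w1 * κ * (ℓ1 : ℂ) := by ring
    rw [e2]
    refine (norm_add_le _ _).trans ?_
    rw [norm_mul, norm_mul, Complex.norm_real, Complex.norm_real, Real.norm_of_nonneg hκ0,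
      Real.norm_of_nonneg hℓ0]
    have h4 : ‖w1‖ * κ * ℓ1 ≤ 1 * κ * ℓ1 := by gcongr
    nlinarith
  have h5 : κ * ℓ1 ≤ 3 * ℓ2 := by
    calc κ * ℓ1 ≤ 3 * ℓ1 := by gcongr
      _ ≤ 3 * ℓ2 := by linarith
  have hℓ2 : 0 ≤ ℓ2 := hℓ0.trans h2
  rw [e1]
  refine (norm_add_le _ _).trans ?_
  refine (add_le_add (norm_add_le _ _) le_rfl).trans ?_
  rw [norm_mul]
  have h7 : ‖Z * Q - 1‖ * ‖Q⁻¹‖ ≤ 17 * η * (2 * (3 * ℓ2)) := by
    refine mul_le_mul hZ (h3.trans (by linarith)) (norm_nonneg _) (by positivity)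
  have h8 : η * (κ * ℓ1) ≤ η * (3 * ℓ2) := by gcongr
  have h10 : 0 ≤ η * ℓ2 := by positivity
  nlinarith

/-- the value of the reciprocal -/
lemma val2 {w w1 Z Q : ℂ} (hw : ‖w1‖ ≤ 1) {κ ℓ1 ℓ2 η E : ℝ} (hκ0 : 0 ≤ κ) (hκ : κ ≤ 3)
    (hη0 : 0 < η) (hη1 : 34 * η ≤ 1) (hℓ0 : 0 ≤ ℓ1)
    (h2 : ℓ1 ≤ ℓ2) (hZ : ‖Z * Q - 1‖ ≤ 17 * η)
    (hd : ‖Q - w1 * κ * (ℓ1 : ℂ)‖ ≤ η * (κ * ℓ1))
    (hE : ‖w1 * κ * (ℓ1 : ℂ) - w * κ * (ℓ2 : ℂ)‖ ≤ E) :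
    ‖Z⁻¹ - w * κ * (ℓ2 : ℂ)‖ ≤ 400 * η * ℓ2 + E := by
  have hZ0 : Z ≠ 0 := by
    rintro rfl
    rw [zero_mul, zero_sub, norm_neg, norm_one] at hZ
    linarith
  have hk : 0 ≤ κ * ℓ1 := mul_nonneg hκ0 hℓ0
  have h3 : ‖Q‖ ≤ 2 * (κ * ℓ1) := by
    have e2 : Q = (Q - w1 * κ * (ℓ1 : ℂ)) + w1 * κ * (ℓ1 : ℂ) := by ring
    rw [e2]
    refine (norm_add_le _ _).trans ?_
    rw [norm_mul, norm_mul, Complex.norm_real, Complex.norm_real, Real.norm_of_nonneg hκ0,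
      Real.norm_of_nonneg hℓ0]
    have h4 : ‖w1‖ * κ * ℓ1 ≤ 1 * κ * ℓ1 := by gcongr
    nlinarith
  have hZi : ‖Z⁻¹‖ ≤ 2 * ‖Q‖ := by
    have h4 : (1 : ℝ) / 2 ≤ ‖Z * Q‖ := by
      have h5 := norm_sub_norm_le (1 : ℂ) (1 - Z * Q)
      rw [norm_one, sub_sub_cancel, norm_sub_rev] at h5
      linarith
    rw [norm_mul] at h4
    have hZn : 0 < ‖Z‖ := norm_pos_iff.mpr hZ0
    rw [norm_inv, inv_le_iff_one_le_mul₀ hZn]
    linarith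
  have e1 : Z⁻¹ - w * κ * (ℓ2 : ℂ) = (Q - w1 * κ * (ℓ1 : ℂ)) - (Z * Q - 1) * Z⁻¹ +
      (w1 * κ * (ℓ1 : ℂ) - w * κ * (ℓ2 : ℂ)) := by
    field_simp
    ring
  have h5 : κ * ℓ1 ≤ 3 * ℓ2 := by
    calc κ * ℓ1 ≤ 3 * ℓ1 := by gcongr
      _ ≤ 3 * ℓ2 := by linarith
  have hℓ2 : 0 ≤ ℓ2 := hℓ0.trans h2
  rw [e1]
  refine (norm_add_le _ _).trans ?_
  refine (add_le_add (norm_sub_le _ _) le_rfl).trans ?_
  rw [norm_mul]
  have h7 : ‖Z * Q - 1‖ * ‖Z⁻¹‖ ≤ 17 * η * (2 * (2 * (3 * ℓ2))) := by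
    refine mul_le_mul hZ (hZi.trans (by linarith)) (norm_nonneg _) (by positivity)
  have h8 : η * (κ * ℓ1) ≤ η * (3 * ℓ2) := by gcongr
  have h10 : 0 ≤ η * ℓ2 := by positivity
  nlinarith

/-- zeta is close to `w e ^ γ log log T` -/
def V1 (η : ℝ) (w : ℂ) (T t : ℝ) : Prop :=
  ‖riemannZeta (pt 1 t) - w * eg * (Real.log (Real.log T) : ℂ)‖ ≤ η * Real.log (Real.log T)

/-- the reciprocal of zeta is close to `w (6 / π²) e ^ γ log log T` -/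
def V2 (η : ℝ) (w : ℂ) (T t : ℝ) : Prop :=
  ‖(riemannZeta (pt 1 t))⁻¹ - w * (6 / Real.pi ^ 2 * eg : ℝ) * (Real.log (Real.log T) : ℂ)‖ ≤
    η * Real.log (Real.log T)

open Classical in
/-- the isolated zeros whose ordinate has a property -/
noncomputable def GV (d : ℝ) (P : ℝ → Prop) (T K : ℝ) : Finset ℂ :=
  (Zf riemannZeta T (T + K)).filter fun s => iso d s ∧ P s.im

/-- **the main theorem** -/
theorem main {η : ℝ} (hη0 : 0 < η) : ∃ d c δ T0 : ℝ, ∃ Y0 : ℕ, 0 < d ∧ 0 < c ∧ 0 < δ ∧ 16 ≤ T0 ∧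
    ∀ T : ℝ, T0 ≤ T → ∀ K : ℝ, T ^ (1 - δ) ≤ K → K ≤ T / 2 →
    (∀ Y : ℕ, Y0 ≤ Y → Y ≤ Yc c T → ∀ z : ℕ → ℂ, (∀ p : ℕ, p.Prime → ‖z p‖ = 1) →
      M0 T K / 2 ≤ ((GV d (fun t => near η Y z t ∧ eulerz η Y z t) T K).card : ℝ) *
        (Y : ℝ) ^ (2 * Y)) ∧
    (∀ w : ℂ, ‖w‖ ≤ 1 → K * Real.exp (-(Real.log T ^ (max ‖w‖ η))) ≤
        ((GV d (V1 η w T) T K).card : ℝ)) ∧
    (∀ w : ℂ, ‖w‖ ≤ 1 → K * Real.exp (-(Real.log T ^ (max ‖w‖ η))) ≤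
        ((GV d (V2 η w T) T K).card : ℝ)) := by
  classical
  obtain ⟨η1, h10, h11, h12⟩ : ∃ η1 : ℝ, 0 < η1 ∧ η1 ≤ 1 ∧ η1 ≤ η :=
    ⟨min η 1, lt_min hη0 one_pos, min_le_right _ _, min_le_left _ _⟩
  set η2 := η1 / 8 with hη2
  have h20 : 0 < η2 := by positivity
  obtain ⟨η', h0, h1, h2⟩ : ∃ η' : ℝ, 0 < η' ∧ η' ≤ 1 / 400 ∧ 1600 * η' ≤ η1 :=
    ⟨η1 / 1600, by positivity, by linarith, by linarith⟩
  obtain ⟨d, c, δ, T1, Y1, hd, hc, hδ, hT1, hY12, hcore⟩ := coreY h0 (by linarith)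
  obtain ⟨Y2, hY2⟩ := eventually_atTop.mp (disc fac1 h0)
  obtain ⟨Y3, hY3⟩ := eventually_atTop.mp (disc fac2 h0)
  set Y0 := max Y1 (max Y2 Y3) with hY0
  have e1 := pow_le_Yc hc (ε := η2 / 2) (by positivity)
  have e2 : ∀ᶠ T : ℝ in atTop, 2 * ((Y0 : ℝ) + 1) ≤ Real.log T ^ (η2 / 2) :=
    ((tendsto_rpow_atTop (by positivity)).comp Real.tendsto_log_atTop).eventually_ge_atTop _
  have e3 : ∀ᶠ T : ℝ in atTop, 2 * Real.log (Real.log T) ≤ Real.log T ^ (η2 / 2) := by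
    have a1 : (fun x : ℝ => Real.log x) =o[atTop] fun x => x ^ (η2 / 2) :=
      isLittleO_log_rpow_atTop (by positivity)
    have a2 := Real.tendsto_log_atTop.eventually (a1.bound (show (0 : ℝ) < 1 / 2 by norm_num))
    filter_upwards [a2, log_log_large 1, eventually_ge_atTop 3] with T b1 b2 b3
    have hx0 : 0 < Real.log T := Real.log_pos (by linarith)
    rw [Real.norm_of_nonneg (by linarith), Real.norm_of_nonneg (by positivity)] at b1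
    linarith
  obtain ⟨T2, hT2⟩ := eventually_atTop.mp
    (e1.and (e2.and (e3.and ((log_log_large (8 / η1)).and (log_log_large 1)))))
  refine ⟨d, c, δ, max T1 T2, Y0, hd, hc, hδ, hT1.trans (le_max_left _ _), fun T hT K hK1 hK2 => ?_⟩
  obtain ⟨f1, f2, f3, f4, f5⟩ := hT2 T ((le_max_right _ _).trans hT)
  have hTT1 : T1 ≤ T := (le_max_left _ _).trans hT
  have hT16 : 16 ≤ T := hT1.trans hTT1
  set x := Real.log T with hx
  set ℓ := Real.log x with hℓ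
  have hx1 : 1 < x := by
    by_contra hcon
    push Not at hcon
    have h3 : ℓ ≤ 0 := Real.log_nonpos (Real.log_nonneg (by linarith)) hcon
    linarith
  have hx0 : 0 < x := by linarith
  have hK0 : 0 ≤ K := le_trans (by have : (0 : ℝ) < T := by linarith
                                   positivity) hK1
  have hgen : ∀ Y : ℕ, Y0 ≤ Y → Y ≤ Yc c T → ∀ z : ℕ → ℂ, (∀ p : ℕ, p.Prime → ‖z p‖ = 1) →
      ∀ P : ℝ → Prop, (∀ t, near η' Y z t → eulerz (17 * η') Y z t → P t) →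
      2 * K ≤ M0 T K ∧ M0 T K / 2 ≤ ((GV d P T K).card : ℝ) * (Y : ℝ) ^ (2 * Y) := by
    intro Y hYa hYb z hz P hP
    have hY1 : Y1 ≤ Y := (le_max_left _ _).trans hYa
    obtain ⟨g0, h3⟩ := hcore T hTT1 K hK1 hK2 Y hY1 hYb z hz
    refine ⟨g0, ?_⟩
    have h4 : Gd d η' Y z T K ⊆ GV d P T K := by
      intro s hs
      unfold Gd at hs
      rw [mem_filter] at hs
      unfold GV
      rw [mem_filter]
      refine ⟨hs.1, hs.2.1, hP _ hs.2.2.1 ?_⟩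
      exact trans' h0 (by linarith) (by omega) hs.2.2.1 hs.2.2.2
    have h5 : ((Gd d η' Y z T K).card : ℝ) ≤ (GV d P T K).card := by
      exact_mod_cast card_le_card h4
    refine h3.trans ?_
    gcongr
  have hfirst : ∀ Y : ℕ, Y0 ≤ Y → Y ≤ Yc c T → ∀ z : ℕ → ℂ, (∀ p : ℕ, p.Prime → ‖z p‖ = 1) →
      M0 T K / 2 ≤ ((GV d (fun t => near η Y z t ∧ eulerz η Y z t) T K).card : ℝ) *
        (Y : ℝ) ^ (2 * Y) := by
    intro Y hYa hYb z hz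
    have hle : η' ≤ η := by linarith
    refine (hgen Y hYa hYb z hz (fun t => near η Y z t ∧ eulerz η Y z t) fun t ht1 ht2 => ?_).2
    refine ⟨fun p hp => (ht1 p hp).trans ?_, le_trans ht2 (by linarith)⟩
    have : 0 ≤ √((p : ℝ) / Y) := Real.sqrt_nonneg _
    gcongr
  -- the prescribed values
  have hval : ∀ w : ℂ, ‖w‖ ≤ 1 → ∃ (Y : ℕ) (w1 : ℂ), Y0 ≤ Y ∧ Y ≤ Yc c T ∧
      0 ≤ Real.log Y ∧ Real.log Y ≤ ℓ ∧ ‖w1‖ ≤ 1 ∧ (∀ κ : ℝ, 0 ≤ κ → κ ≤ 3 →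
        ‖w1 * κ * (Real.log Y : ℂ) - w * κ * (ℓ : ℂ)‖ ≤ 3 * (η2 * ℓ + 1)) ∧
      (Y : ℝ) ^ (2 * Y) ≤ Real.exp (x ^ (max ‖w‖ η)) := by
    intro w hw
    set ρ := max ‖w‖ η2 - η2 / 2 with hρ
    have hρ0 : η2 / 2 ≤ ρ := by
      have := le_max_right ‖w‖ η2
      rw [hρ]
      linarith
    have hρ1 : ρ ≤ 1 - η2 / 2 := by
      have : max ‖w‖ η2 ≤ 1 := max_le hw (by linarith)
      rw [hρ]
      linarith
    have hYY0 : (0 : ℝ) ≤ Y0 := Nat.cast_nonneg _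
    have hbig : 2 * ((Y0 : ℝ) + 1) ≤ x ^ ρ :=
      f2.trans (Real.rpow_le_rpow_of_exponent_le hx1.le hρ0)
    set Y := ⌊x ^ ρ⌋₊ with hY
    have hY1 : x ^ ρ - 1 < Y := by
      have := Nat.lt_floor_add_one (x ^ ρ)
      linarith
    have hY2 : (Y : ℝ) ≤ x ^ ρ := Nat.floor_le (by positivity)
    have hY3 : x ^ ρ / 2 ≤ Y := by linarith
    have hY4 : (1 : ℝ) ≤ Y := by linarith
    have hlY : 0 ≤ Real.log Y := Real.log_nonneg hY4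
    have hl1 : Real.log Y ≤ ρ * ℓ := by
      rw [hℓ, ← Real.log_rpow hx0]
      exact Real.log_le_log (by linarith) hY2
    have hl2 : ρ * ℓ - 1 ≤ Real.log Y := by
      have h3 : Real.log (x ^ ρ / 2) ≤ Real.log Y := Real.log_le_log (by positivity) hY3
      rw [Real.log_div (by positivity) (by norm_num), Real.log_rpow hx0] at h3
      have := Real.log_two_lt_d9
      linarith
    obtain ⟨w1, hw1, hw2⟩ := dirE (w := w) h20 hρ (by linarith) hl2 hl1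
    refine ⟨Y, w1, ?_, ?_, hlY, ?_, hw1, hw2, ?_⟩
    · have : (Y0 : ℝ) ≤ Y := by linarith
      exact_mod_cast this
    · exact Nat.floor_le_floor
        ((Real.rpow_le_rpow_of_exponent_le hx1.le hρ1).trans f1)
    · nlinarith
    · rw [← Real.exp_log (show (0 : ℝ) < (Y : ℝ) ^ (2 * Y) by positivity)]
      apply Real.exp_le_exp.mpr
      rw [Real.log_pow]
      push_cast
      calc 2 * (Y : ℝ) * Real.log Y ≤ 2 * (x ^ ρ) * ℓ := by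
            have : Real.log Y ≤ ℓ := by nlinarith
            gcongr
        _ = x ^ ρ * (2 * ℓ) := by ring
        _ ≤ x ^ ρ * x ^ (η2 / 2) := by gcongr
        _ = x ^ (max ‖w‖ η2) := by
            rw [← Real.rpow_add hx0]
            congr 1
            rw [hρ]
            ring
        _ ≤ _ := Real.rpow_le_rpow_of_exponent_le hx1.le
            (max_le_max le_rfl (by linarith))
  have hfin : ∀ N : ℝ, ∀ Y : ℕ, ∀ w : ℂ, (Y : ℝ) ^ (2 * Y) ≤ Real.exp (x ^ (max ‖w‖ η)) →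
      0 ≤ N → 2 * K ≤ M0 T K → M0 T K / 2 ≤ N * (Y : ℝ) ^ (2 * Y) →
      K * Real.exp (-(x ^ (max ‖w‖ η))) ≤ N := by
    intro N Y w g1 g2 g3 g4
    rw [Real.exp_neg, ← div_eq_mul_inv, div_le_iff₀ (Real.exp_pos _)]
    calc K ≤ M0 T K / 2 := by linarith
      _ ≤ _ := g4
      _ ≤ _ := by gcongr
  have hsum : 400 * η' * ℓ + 3 * (η2 * ℓ + 1) ≤ η1 * ℓ := by
    rw [div_le_iff₀ h10] at f4
    have : η' ≤ η1 / 1600 := by linarith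
    have h3 : 400 * η' * ℓ ≤ η1 / 4 * ℓ := by
      have : 400 * η' ≤ η1 / 4 := by linarith
      gcongr
    rw [hη2]
    nlinarith
  have hηℓ : η1 * ℓ ≤ η * ℓ := by gcongr
  refine ⟨hfirst, fun w hw => ?_, fun w hw => ?_⟩
  · obtain ⟨Y, w1, k1, k2, k3, k4, k5, k6, k7⟩ := hval w hw
    obtain ⟨ξ, g1, g2⟩ := hY2 Y (((le_max_left _ _).trans (le_max_right _ _)).trans k1) w1 k5
    obtain ⟨g3, g4⟩ := hgen Y k1 k2 ξ (fun p _ => g1 p) (V1 η w T) fun t ht1 ht2 => by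
      have hQ : ∏ p ∈ PY Y, (1 - ξ p / p) ≠ 0 :=
        prod_ne_zero_iff.mpr fun p hp => one_sub_ne (PY_prime hp) (g1 p)
      have hd : ‖(∏ p ∈ PY Y, (1 - ξ p / p))⁻¹ - w1 * eg * (Real.log Y : ℂ)‖ ≤
          η' * (eg * Real.log Y) := by
        rw [← prod_inv_distrib]
        exact g2
      have h5 := val1 k5 eg_pos.le eg_le h0 (by linarith) k3 k4 hQ ht2 hd (k6 eg eg_pos.le eg_le)
      unfold V1
      linarith
    exact hfin _ Y w k7 (Nat.cast_nonneg _) g3 g4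
  · obtain ⟨Y, w1, k1, k2, k3, k4, k5, k6, k7⟩ := hval w hw
    obtain ⟨ξ, g1, g2⟩ := hY3 Y (((le_max_right _ _).trans (le_max_right _ _)).trans k1) w1 k5
    obtain ⟨g3, g4⟩ := hgen Y k1 k2 (fun p => -ξ p) (fun p _ => by rw [norm_neg]; exact g1 p)
      (V2 η w T) fun t ht1 ht2 => by
      have hd : ‖(∏ p ∈ PY Y, (1 - -ξ p / p)) -
          w1 * (6 / Real.pi ^ 2 * eg : ℝ) * (Real.log Y : ℂ)‖ ≤
          η' * ((6 / Real.pi ^ 2 * eg) * Real.log Y) := by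
        have e : ∏ p ∈ PY Y, (1 - -ξ p / p) = ∏ p ∈ PY Y, F2 p (ξ p) :=
          prod_congr rfl fun p _ => by unfold F2; ring
        rw [e]
        exact g2
      have h5 := val2 k5 fac2.pos.le kap_le h0 (by linarith) k3 k4 ht2 hd
        (k6 _ fac2.pos.le kap_le)
      unfold V2
      linarith
    exact hfin _ Y w k7 (Nat.cast_nonneg _) g3 g4

end Run7.h751.KS
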