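import Pool.Agent.Run7.h751.KS.MS1

/-!
# The mean square with a power saving
-/

set_option autoImplicit false

open Finset MeasureTheory Filter Topology

namespace Run7.h751.KS

lemma logX {r : ℝ} (hr : 0 < r) : ∀ᶠ T : ℝ in atTop, 2 + 2 * Real.log T ≤ T ^ (r / 8) := by
  have h1 : (fun x : ℝ => Real.log x) =o[atTop] fun x => x ^ (r / 8) :=
    isLittleO_log_rpow_atTop (by linarith)
  have h2 := h1.bound (show (0 : ℝ) < 1 / 4 by norm_num)
  have h3 : Tendsto (fun x : ℝ => x ^ (r / 8)) atTop atTop := tendsto_rpow_atTop (by linarith)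
  filter_upwards [h2, h3.eventually_ge_atTop 4, eventually_ge_atTop 1] with T a1 a2 a3
  rw [Real.norm_of_nonneg (Real.log_nonneg a3), Real.norm_of_nonneg (by positivity)] at a1
  linarith

theorem lineT {α : ℝ} (h0 : 0 < α) (h1 : α ≤ 1) : ∀ᶠ T : ℝ in atTop, ∀ Y : ℕ,
    (4 : ℝ) ^ Y ≤ T ^ (α / 64) → ∀ σ : ℝ, |σ - 1| ≤ α / 16 →
    ∫ t in (1 : ℝ)..(4 * T), ‖GG Y ⌊T ^ α⌋₊ (pt σ t)‖ ^ 2 ≤ T ^ (1 - α / 8) := by
  obtain ⟨r, hr⟩ : ∃ r, r = α / 16 := ⟨_, rfl⟩
  have hr0 : 0 < r := by rw [hr]; positivity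
  have hr1 : r ≤ 1 / 16 := by rw [hr]; linarith
  have eα : α = 16 * r := by rw [hr]; ring
  rw [eα]
  have hbig : ∀ᶠ T : ℝ in atTop, (10000 : ℝ) ≤ T ^ (r / 2) :=
    (tendsto_rpow_atTop (by linarith)).eventually_ge_atTop _
  filter_upwards [logX hr0, hbig, eventually_ge_atTop 100] with T hlog hb hT Y hY σ hσ
  rw [abs_le] at hσ
  have hT0 : (0 : ℝ) < T := by linarith
  have hT1 : (1 : ℝ) ≤ T := by linarith
  rw [show 16 * r / 64 = r / 4 by ring] at hY
  rw [show 16 * r / 16 = r by ring] at hσ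
  set N : ℕ := ⌈T ^ (1 + 3 * r)⌉₊ with hN
  have hNlow : T ^ (1 + 3 * r) ≤ (N : ℝ) := Nat.le_ceil _
  have hTe : 1 ≤ T ^ (1 + 3 * r) := Real.one_le_rpow hT1 (by linarith)
  have hNup : (N : ℝ) ≤ 2 * T ^ (1 + 3 * r) := by
    have := Nat.ceil_lt_add_one (show 0 ≤ T ^ (1 + 3 * r) by linarith)
    linarith
  have hN1 : (1 : ℝ) ≤ N := hTe.trans hNlow
  have hN0 : (0 : ℝ) < N := by linarith
  set z : ℕ := ⌊T ^ (16 * r)⌋₊ with hz
  have hz1 : 1 ≤ z := by
    rw [hz, Nat.one_le_floor_iff]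
    exact Real.one_le_rpow hT1 (by linarith)
  have hzN : z ≤ N := by
    have h2 : (z : ℝ) ≤ N := by
      calc (z : ℝ) ≤ T ^ (16 * r) := Nat.floor_le (by positivity)
        _ ≤ T ^ (1 + 3 * r) := Real.rpow_le_rpow_of_exponent_le hT1 (by linarith)
        _ ≤ N := hNlow
    exact_mod_cast h2
  have hPP : ((PP Y : ℕ) : ℝ) ≤ T ^ (r / 4) := by
    calc ((PP Y : ℕ) : ℝ) ≤ ((4 ^ Y : ℕ) : ℝ) := by exact_mod_cast PP_le Y
      _ = 4 ^ Y := by push_cast; rfl
      _ ≤ _ := hY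
  set X : ℕ := N * PP Y with hX
  have hX1 : 1 ≤ X := Nat.mul_pos (by exact_mod_cast hN0) (PP_pos Y)
  have hXup : (X : ℝ) ≤ 2 * T ^ (1 + 3 * r + r / 4) := by
    rw [hX, Nat.cast_mul, Real.rpow_add hT0 (1 + 3 * r), ← mul_assoc]
    exact mul_le_mul hNup hPP (Nat.cast_nonneg _) (by positivity)
  have hlogX : 1 + Real.log X ≤ T ^ (r / 8) := by
    have e1 : Real.log X ≤ Real.log (2 * T ^ (1 + 3 * r + r / 4)) :=
      Real.log_le_log (by exact_mod_cast hX1) hXup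
    rw [Real.log_mul (by norm_num) (by positivity), Real.log_rpow hT0] at e1
    have e2 : Real.log 2 ≤ 1 := by
      have := Real.log_two_lt_d9
      linarith
    have e3 : 0 ≤ Real.log T := Real.log_nonneg hT1
    nlinarith
  have hlogX0 : 1 ≤ 1 + Real.log X := by
    have : 0 ≤ Real.log (X : ℝ) := Real.log_nonneg (by exact_mod_cast hX1)
    linarith
  have hline := line Y N z hz1 hzN (σ := σ) (T := 4 * T) (by linarith) (by linarith) (by linarith)
  refine hline.trans ?_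
  -- the first term
  have t1 : (N : ℝ) ^ (2 - 2 * σ) ≤ 2 * T ^ (3 * r) := by
    calc (N : ℝ) ^ (2 - 2 * σ) ≤ (N : ℝ) ^ (2 * r) :=
          Real.rpow_le_rpow_of_exponent_le hN1 (by linarith)
      _ ≤ (2 * T ^ (1 + 3 * r)) ^ (2 * r) := Real.rpow_le_rpow hN0.le hNup (by linarith)
      _ = 2 ^ (2 * r) * T ^ ((1 + 3 * r) * (2 * r)) := by
          rw [Real.mul_rpow (by norm_num) (by positivity), ← Real.rpow_mul hT0.le]
      _ ≤ 2 ^ (1 : ℝ) * T ^ (3 * r) := by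
          refine mul_le_mul (Real.rpow_le_rpow_of_exponent_le (by norm_num) (by linarith)) ?_
            (by positivity) (by positivity)
          refine Real.rpow_le_rpow_of_exponent_le hT1 ?_
          nlinarith
      _ = _ := by rw [Real.rpow_one]
  have t2 : (N : ℝ) ^ (-(2 * σ)) ≤ T ^ (-2 - 3 * r - r / 2) := by
    calc (N : ℝ) ^ (-(2 * σ)) ≤ (N : ℝ) ^ (-(2 - 2 * r)) :=
          Real.rpow_le_rpow_of_exponent_le hN1 (by linarith)
      _ ≤ (T ^ (1 + 3 * r)) ^ (-(2 - 2 * r)) :=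
          Real.rpow_le_rpow_of_nonpos (by positivity) hNlow (by linarith)
      _ = T ^ ((1 + 3 * r) * (-(2 - 2 * r))) := by rw [← Real.rpow_mul hT0.le]
      _ ≤ _ := by
          refine Real.rpow_le_rpow_of_exponent_le hT1 ?_
          nlinarith
  have s1 : 4 * (4 : ℝ) ^ Y * ((N : ℝ) ^ (2 - 2 * σ) + 36 * (4 * T) ^ 3 * (N : ℝ) ^ (-(2 * σ))) ≤
      9300 * T ^ (1 - 3 * r + r / 4) := by
    have a1 : T ^ (r / 4) * T ^ (3 * r) ≤ T ^ (1 - 3 * r + r / 4) := by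
      rw [← Real.rpow_add hT0]
      exact Real.rpow_le_rpow_of_exponent_le hT1 (by linarith)
    have a2 : T ^ (r / 4) * (T ^ 3 * T ^ (-2 - 3 * r - r / 2)) ≤ T ^ (1 - 3 * r + r / 4) := by
      rw [← Real.rpow_natCast T 3, ← Real.rpow_add hT0, ← Real.rpow_add hT0]
      refine Real.rpow_le_rpow_of_exponent_le hT1 ?_
      push_cast
      linarith
    calc 4 * (4 : ℝ) ^ Y * ((N : ℝ) ^ (2 - 2 * σ) + 36 * (4 * T) ^ 3 * (N : ℝ) ^ (-(2 * σ)))
        ≤ 4 * T ^ (r / 4) * (2 * T ^ (3 * r) + 36 * (4 * T) ^ 3 * T ^ (-2 - 3 * r - r / 2)) := by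
          gcongr
      _ = 8 * (T ^ (r / 4) * T ^ (3 * r)) +
          9216 * (T ^ (r / 4) * (T ^ 3 * T ^ (-2 - 3 * r - r / 2))) := by ring
      _ ≤ 8 * T ^ (1 - 3 * r + r / 4) + 9216 * T ^ (1 - 3 * r + r / 4) := by linarith
      _ ≤ _ := by
          have : 0 ≤ T ^ (1 - 3 * r + r / 4) := by positivity
          linarith
  -- the second term
  have t3 : ∑ k ∈ Ioc z X, (k : ℝ) ^ (-(2 * σ)) ≤ T ^ (-(14 * r)) * T ^ (r / 8) := by
    have a1 : ∀ k ∈ Ioc z X, (k : ℝ) ^ (-(2 * σ)) ≤ T ^ (-(14 * r)) * (k : ℝ)⁻¹ := by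
      intro k hk
      rw [mem_Ioc] at hk
      have hk1 : (1 : ℝ) ≤ k := by exact_mod_cast (by omega : 1 ≤ k)
      have hk2 : T ^ (16 * r) ≤ k := by
        have := Nat.lt_floor_add_one (T ^ (16 * r))
        have h3 : ((z + 1 : ℕ) : ℝ) ≤ k := by exact_mod_cast (by omega : z + 1 ≤ k)
        push_cast at h3
        rw [← hz] at this
        linarith
      calc (k : ℝ) ^ (-(2 * σ)) ≤ (k : ℝ) ^ (-(1 - 2 * r) + -1) :=
            Real.rpow_le_rpow_of_exponent_le hk1 (by linarith)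
        _ = (k : ℝ) ^ (-(1 - 2 * r)) * (k : ℝ)⁻¹ := by
            rw [Real.rpow_add (by linarith), Real.rpow_neg_one]
        _ ≤ (T ^ (16 * r)) ^ (-(1 - 2 * r)) * (k : ℝ)⁻¹ := by
            refine mul_le_mul_of_nonneg_right ?_ (by positivity)
            exact Real.rpow_le_rpow_of_nonpos (by positivity) hk2 (by linarith)
        _ ≤ T ^ (-(14 * r)) * (k : ℝ)⁻¹ := by
            refine mul_le_mul_of_nonneg_right ?_ (by positivity)
            rw [← Real.rpow_mul hT0.le]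
            refine Real.rpow_le_rpow_of_exponent_le hT1 ?_
            nlinarith
    calc ∑ k ∈ Ioc z X, (k : ℝ) ^ (-(2 * σ)) ≤ ∑ k ∈ Ioc z X, T ^ (-(14 * r)) * (k : ℝ)⁻¹ :=
          sum_le_sum a1
      _ = T ^ (-(14 * r)) * ∑ k ∈ Ioc z X, (k : ℝ)⁻¹ := by rw [mul_sum]
      _ ≤ T ^ (-(14 * r)) * ∑ k ∈ Icc 1 X, (k : ℝ)⁻¹ := by
          refine mul_le_mul_of_nonneg_left ?_ (by positivity)
          refine sum_le_sum_of_subset_of_nonneg ?_ fun k _ _ => by positivity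
          intro k hk
          rw [mem_Ioc] at hk
          rw [mem_Icc]
          omega
      _ ≤ T ^ (-(14 * r)) * T ^ (r / 8) := by
          refine mul_le_mul_of_nonneg_left ?_ (by positivity)
          have h := harmonic_le_one_add_log X
          rw [harmonic_eq_sum_Icc] at h
          push_cast at h
          exact h.trans hlogX
  have t4 : 4 * T + 8 * (X : ℝ) * (1 + Real.log X) ≤ 20 * T ^ (1 + 3 * r + r / 4 + r / 8) := by
    have a1 : T ≤ T ^ (1 + 3 * r + r / 4 + r / 8) := by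
      calc T = T ^ (1 : ℝ) := (Real.rpow_one T).symm
        _ ≤ _ := Real.rpow_le_rpow_of_exponent_le hT1 (by linarith)
    have a2 : (X : ℝ) * (1 + Real.log X) ≤ 2 * T ^ (1 + 3 * r + r / 4 + r / 8) := by
      rw [Real.rpow_add hT0 (1 + 3 * r + r / 4), ← mul_assoc]
      exact mul_le_mul hXup hlogX (by linarith) (by positivity)
    nlinarith
  have s2 : 2 * (4 : ℝ) ^ Y * (4 * T + 8 * (X : ℝ) * (1 + Real.log X)) *
      ∑ k ∈ Ioc z X, (k : ℝ) ^ (-(2 * σ)) ≤ 40 * T ^ (1 - 3 * r + r / 4) := by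
    calc 2 * (4 : ℝ) ^ Y * (4 * T + 8 * (X : ℝ) * (1 + Real.log X)) *
        ∑ k ∈ Ioc z X, (k : ℝ) ^ (-(2 * σ))
        ≤ 2 * T ^ (r / 4) * (20 * T ^ (1 + 3 * r + r / 4 + r / 8)) *
          (T ^ (-(14 * r)) * T ^ (r / 8)) := by
          refine mul_le_mul (mul_le_mul (by linarith) t4 (by positivity) (by positivity)) t3
            (sum_nonneg fun k _ => Real.rpow_nonneg (Nat.cast_nonneg k) _) (by positivity)
      _ = 40 * T ^ (r / 4 + (1 + 3 * r + r / 4 + r / 8) + (-(14 * r) + r / 8)) := by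
          rw [Real.rpow_add hT0 (r / 4 + (1 + 3 * r + r / 4 + r / 8)), Real.rpow_add hT0 (r / 4),
            Real.rpow_add hT0 (-(14 * r))]
          ring
      _ ≤ _ := by
          refine mul_le_mul_of_nonneg_left ?_ (by norm_num)
          exact Real.rpow_le_rpow_of_exponent_le hT1 (by linarith)
  calc _ ≤ 9300 * T ^ (1 - 3 * r + r / 4) + 40 * T ^ (1 - 3 * r + r / 4) := add_le_add s1 s2
    _ ≤ T ^ (r / 2) * T ^ (1 - 3 * r + r / 4) := by
        have : 0 ≤ T ^ (1 - 3 * r + r / 4) := by positivity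
        nlinarith
    _ ≤ _ := by
        rw [← Real.rpow_add hT0]
        refine Real.rpow_le_rpow_of_exponent_le hT1 ?_
        linarith

end Run7.h751.KS
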