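import Pool.Agent.N802.Diag

/-!
# Products of Dirichlet polynomials with independent supports, and the resonator
-/

set_option autoImplicit false

open Finset

namespace Run7.h751.KS

open Pool.Agent.N802

/-- `n ^ (- i t)` -/
noncomputable def ph (n : ℕ) (t : ℝ) : ℂ := mn n 1 t

lemma ph_norm (n : ℕ) (t : ℝ) : ‖ph n t‖ = 1 := mn_norm _ _ _

lemma ph_one (t : ℝ) : ph 1 t = 1 := by
  unfold ph mn
  simp

lemma ph_mul {a b : ℕ} (ha : 0 < a) (hb : 0 < b) (t : ℝ) : ph (a * b) t = ph a t * ph b t := by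
  unfold ph
  rw [mn_mul ha one_pos hb one_pos, mul_one]

lemma ph_pow {a : ℕ} (ha : 0 < a) (k : ℕ) (t : ℝ) : ph (a ^ k) t = ph a t ^ k := by
  induction k with
  | zero => simp [ph_one]
  | succ k ih => rw [pow_succ, ph_mul (pow_pos ha k) ha, ih, pow_succ]

lemma RP_eq (S : Finset ℕ) (r : ℕ → ℂ) (t : ℝ) : RP S r t = ∑ n ∈ S, r n * ph n t := rfl

/-- the product of two Dirichlet polynomials whose supports are coprime -/
theorem mulP (S1 S2 : Finset ℕ) (r1 r2 : ℕ → ℂ) (h1 : ∀ a ∈ S1, 0 < a) (h2 : ∀ b ∈ S2, 0 < b)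
    (hc : ∀ a ∈ S1, ∀ b ∈ S2, Nat.Coprime a b) :
    ∃ r : ℕ → ℂ, (∀ t, RP ((S1 ×ˢ S2).image fun x => x.1 * x.2) r t = RP S1 r1 t * RP S2 r2 t) ∧
      w1 ((S1 ×ˢ S2).image fun x => x.1 * x.2) r = w1 S1 r1 * w1 S2 r2 := by
  classical
  have inj : Set.InjOn (fun x : ℕ × ℕ => x.1 * x.2) (S1 ×ˢ S2 : Finset (ℕ × ℕ)) := by
    rintro ⟨a, b⟩ hx ⟨a', b'⟩ hy h
    simp only [coe_product, Set.mem_prod, mem_coe] at hx hy
    simp only at h
    have e1 : a ∣ a' := by
      have : a ∣ a' * b' := ⟨b, by rw [h]⟩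
      exact (hc a hx.1 b' hy.2).dvd_of_dvd_mul_right this
    have e2 : a' ∣ a := by
      have : a' ∣ a * b := ⟨b', by rw [h]⟩
      exact (hc a' hy.1 b hx.2).dvd_of_dvd_mul_right this
    have e3 : a = a' := Nat.dvd_antisymm e1 e2
    subst e3
    have e4 : b = b' := Nat.eq_of_mul_eq_mul_left (h1 a hx.1) h
    rw [e4]
  set r : ℕ → ℂ := fun n => ∑ x ∈ (S1 ×ˢ S2).filter (fun x => x.1 * x.2 = n), r1 x.1 * r2 x.2
    with hr
  have hval : ∀ x ∈ S1 ×ˢ S2, r (x.1 * x.2) = r1 x.1 * r2 x.2 := by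
    intro x hx
    have : (S1 ×ˢ S2).filter (fun y => y.1 * y.2 = x.1 * x.2) = {x} := by
      ext y
      rw [mem_filter, mem_singleton]
      constructor
      · rintro ⟨hy, he⟩
        exact inj hy hx he
      · rintro rfl
        exact ⟨hx, rfl⟩
    simp only [hr]
    rw [this, sum_singleton]
  refine ⟨r, fun t => ?_, ?_⟩
  · rw [RP_eq, RP_eq, RP_eq, sum_image inj, sum_mul_sum, ← sum_product']
    refine sum_congr rfl fun x hx => ?_
    rw [hval x hx]
    have hx' := mem_product.mp hx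
    rw [ph_mul (h1 _ hx'.1) (h2 _ hx'.2)]
    ring
  · unfold w1
    rw [sum_image inj, sum_mul_sum, ← sum_product']
    refine sum_congr rfl fun x hx => ?_
    rw [hval x hx, norm_mul, mul_pow]

/-- `(1 + w n ^ (- i t)) ^ K` -/
theorem powP (p : ℕ) (hp : 2 ≤ p) (K : ℕ) (w : ℂ) (hw : ‖w‖ = 1) :
    ∃ r : ℕ → ℂ, (∀ t, RP ((range (K + 1)).image fun k => p ^ k) r t = (1 + w * ph p t) ^ K) ∧
      w1 ((range (K + 1)).image fun k => p ^ k) r = Nat.centralBinom K := by
  classical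
  have inj : Set.InjOn (fun k : ℕ => p ^ k) (range (K + 1)) := fun a _ b _ h =>
    Nat.pow_right_injective hp h
  set r : ℕ → ℂ := fun n => ∑ k ∈ (range (K + 1)).filter (fun k => p ^ k = n), (K.choose k : ℂ) * w ^ k
    with hr
  have hval : ∀ k ∈ range (K + 1), r (p ^ k) = (K.choose k : ℂ) * w ^ k := by
    intro k hk
    have : (range (K + 1)).filter (fun y => p ^ y = p ^ k) = {k} := by
      ext y
      rw [mem_filter, mem_singleton]
      constructor
      · rintro ⟨hy, he⟩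
        exact inj hy hk he
      · rintro rfl
        exact ⟨hk, rfl⟩
    simp only [hr]
    rw [this, sum_singleton]
  refine ⟨r, fun t => ?_, ?_⟩
  · rw [RP_eq, sum_image inj, add_comm (1 : ℂ), add_pow]
    refine sum_congr rfl fun k hk => ?_
    rw [hval k hk, ph_pow (by omega), one_pow, mul_one, mul_pow]
    ring
  · unfold w1
    rw [sum_image inj]
    have h1 : ∀ k ∈ range (K + 1), ‖r (p ^ k)‖ ^ 2 = ((K.choose k * K.choose (K - k) : ℕ) : ℝ) := by
      intro k hk
      rw [hval k hk, norm_mul, norm_pow, hw, one_pow, mul_one, Complex.norm_natCast,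
        Nat.choose_symm (by rw [mem_range] at hk; omega)]
      push_cast
      ring
    rw [sum_congr rfl h1, ← Nat.cast_sum]
    congr 1
    rw [Nat.centralBinom, two_mul, Nat.add_choose_eq,
      Finset.Nat.sum_antidiagonal_eq_sum_range_succ (fun i j => K.choose i * K.choose j)]

/-- the modulus of the resonator: `∏ p ^ (K p)` -/
def md (P : Finset ℕ) (K : ℕ → ℕ) : ℕ := ∏ p ∈ P, p ^ K p

lemma md_pos (P : Finset ℕ) (hP : ∀ p ∈ P, p.Prime) (K : ℕ → ℕ) : 0 < md P K :=
  prod_pos fun p hp => pow_pos (hP p hp).pos _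

/-- **the resonator** `∏ (1 + w_p p ^ (- i t)) ^ K_p` -/
theorem reso (P : Finset ℕ) (hP : ∀ p ∈ P, p.Prime) (K : ℕ → ℕ) (w : ℕ → ℂ)
    (hw : ∀ p ∈ P, ‖w p‖ = 1) :
    ∃ (S : Finset ℕ) (r : ℕ → ℂ), (∀ n ∈ S, 0 < n ∧ n ∣ md P K) ∧
      (∀ t, RP S r t = ∏ p ∈ P, (1 + w p * ph p t) ^ K p) ∧
      w1 S r = ∏ p ∈ P, (Nat.centralBinom (K p) : ℝ) := by
  classical
  induction P using Finset.induction_on with
  | empty =>
    refine ⟨{1}, fun _ => 1, ?_, ?_, ?_⟩
    · intro n hn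
      rw [mem_singleton] at hn
      subst hn
      exact ⟨one_pos, one_dvd _⟩
    · intro t
      rw [RP_eq, sum_singleton, ph_one, prod_empty, mul_one]
    · unfold w1
      simp
  | insert q P hq ih =>
    obtain ⟨S, r, h1, h2, h3⟩ := ih (fun p hp => hP p (mem_insert_of_mem hp))
      (fun p hp => hw p (mem_insert_of_mem hp))
    have hqp : q.Prime := hP q (mem_insert_self _ _)
    obtain ⟨r2, g1, g2⟩ := powP q hqp.two_le (K q) (w q) (hw q (mem_insert_self _ _))
    have hcop : Nat.Coprime q (md P K) := by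
      unfold md
      refine Nat.Coprime.prod_right fun p hp => Nat.Coprime.pow_right _ ?_
      refine (Nat.coprime_primes hqp (hP p (mem_insert_of_mem hp))).mpr ?_
      rintro rfl
      exact hq hp
    obtain ⟨r', k1, k2⟩ := mulP S ((range (K q + 1)).image fun k => q ^ k) r r2
      (fun a ha => (h1 a ha).1)
      (fun b hb => by
        rw [mem_image] at hb
        obtain ⟨k, -, rfl⟩ := hb
        exact pow_pos hqp.pos _)
      (fun a ha b hb => by
        rw [mem_image] at hb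
        obtain ⟨k, -, rfl⟩ := hb
        exact (Nat.Coprime.coprime_dvd_left (h1 a ha).2 hcop.symm).pow_right k)
    refine ⟨(S ×ˢ ((range (K q + 1)).image fun k => q ^ k)).image (fun x => x.1 * x.2), r', ?_, ?_, ?_⟩
    · intro n hn
      rw [mem_image] at hn
      obtain ⟨x, hx, rfl⟩ := hn
      rw [mem_product, mem_image] at hx
      obtain ⟨ha, k, hk, hk2⟩ := hx
      rw [← hk2]
      refine ⟨Nat.mul_pos (h1 _ ha).1 (pow_pos hqp.pos _), ?_⟩
      unfold md
      rw [prod_insert hq, mul_comm]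
      refine mul_dvd_mul (pow_dvd_pow q ?_) (h1 _ ha).2
      rw [mem_range] at hk
      omega
    · intro t
      rw [k1, h2, g1, prod_insert hq, mul_comm]
    · rw [k2, h3, g2, prod_insert hq, mul_comm]

end Run7.h751.KS
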