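import Mathlib

/-!
# The parameters
-/

set_option autoImplicit false

open Filter Topology

namespace Run7.h751.KS

/-- the number `⌊c log T / (log log T)²⌋` -/
noncomputable def Yc (c T : ℝ) : ℕ := ⌊c * Real.log T / Real.log (Real.log T) ^ 2⌋₊

/-- the power -/
noncomputable def Lc (A : ℝ) (Y : ℕ) : ℕ := ⌈A * Real.log Y⌉₊

lemma Yc_tendsto {c : ℝ} (hc : 0 < c) : Tendsto (fun T => Yc c T) atTop atTop := by
  have h1 : Tendsto (fun x : ℝ => x / Real.log x ^ 2) atTop atTop := by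
    have e1 : (fun x : ℝ => Real.log x) =o[atTop] fun x => x ^ (1 / 4 : ℝ) :=
      isLittleO_log_rpow_atTop (by norm_num)
    have e2 := e1.bound (show (0 : ℝ) < 1 by norm_num)
    refine tendsto_atTop_mono' _ (f₁ := fun x : ℝ => x ^ (1 / 2 : ℝ)) ?_
      (tendsto_rpow_atTop (by norm_num))
    filter_upwards [e2, eventually_ge_atTop 3] with x a1 a2
    have hl : 0 < Real.log x := Real.log_pos (by linarith)
    rw [Real.norm_of_nonneg hl.le, Real.norm_of_nonneg (by positivity), one_mul] at a1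
    rw [le_div_iff₀ (by positivity)]
    have hx0 : (0 : ℝ) < x := by linarith
    calc x ^ (1 / 2 : ℝ) * Real.log x ^ 2 ≤ x ^ (1 / 2 : ℝ) * (x ^ (1 / 4 : ℝ)) ^ 2 := by
          gcongr
      _ = x := by
          rw [← Real.rpow_natCast, ← Real.rpow_mul hx0.le, ← Real.rpow_add hx0]
          norm_num
  have h2 : Tendsto (fun T : ℝ => c * (Real.log T / Real.log (Real.log T) ^ 2)) atTop atTop :=
    (h1.comp Real.tendsto_log_atTop).const_mul_atTop hc
  have h3 := tendsto_nat_floor_atTop.comp h2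
  refine h3.congr fun T => ?_
  simp only [Function.comp, Yc, mul_div_assoc]

lemma log_log_large (B : ℝ) : ∀ᶠ T : ℝ in atTop, B ≤ Real.log (Real.log T) :=
  (Real.tendsto_log_atTop.comp Real.tendsto_log_atTop).eventually_ge_atTop B

/-- the bounds for `Y` -/
lemma Yc_le {c : ℝ} (hc0 : 0 < c) (hc1 : c ≤ 1) : ∀ᶠ T : ℝ in atTop,
    (Yc c T : ℝ) * Real.log (Real.log T) ^ 2 ≤ c * Real.log T ∧
    Real.log (Yc c T) ≤ Real.log (Real.log T) ∧ (1 : ℝ) ≤ Yc c T := by
  filter_upwards [log_log_large 1, eventually_ge_atTop 3, (Yc_tendsto hc0).eventually_ge_atTop 1]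
    with T h1 h2 h3
  have hl : 0 < Real.log T := Real.log_pos (by linarith)
  have h4 : (Yc c T : ℝ) ≤ c * Real.log T / Real.log (Real.log T) ^ 2 :=
    Nat.floor_le (by positivity)
  have h5 : (1 : ℝ) ≤ Yc c T := by exact_mod_cast h3
  have h6 : (Yc c T : ℝ) * Real.log (Real.log T) ^ 2 ≤ c * Real.log T := by
    rwa [le_div_iff₀ (by positivity)] at h4
  refine ⟨h6, ?_, h5⟩
  apply Real.log_le_log (by linarith)
  calc (Yc c T : ℝ) ≤ (Yc c T : ℝ) * Real.log (Real.log T) ^ 2 :=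
        le_mul_of_one_le_right (by linarith) (one_le_pow₀ h1)
    _ ≤ c * Real.log T := h6
    _ ≤ 1 * Real.log T := by gcongr
    _ = Real.log T := one_mul _

/-- large values of `Y` -/
lemma Lc_le {A : ℝ} (hA : 1 ≤ A) : ∀ᶠ Y : ℕ in atTop,
    (Lc A Y : ℝ) ≤ 2 * A * Real.log Y ∧ 2 * (Lc A Y : ℝ) * Y + 1 ≤ (Y : ℝ) ^ 2 := by
  have e1 : (fun x : ℝ => Real.log x) =o[atTop] fun x => x :=
    Real.isLittleO_log_id_atTop
  have e2 := (e1.bound (show (0 : ℝ) < 1 / (8 * A) by positivity)).and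
    (Real.tendsto_log_atTop.eventually_ge_atTop 1)
  have e3 := tendsto_natCast_atTop_atTop.eventually e2
  filter_upwards [e3, eventually_ge_atTop 2] with Y ⟨a1, a2⟩ a3
  have hY : (2 : ℝ) ≤ Y := by exact_mod_cast a3
  rw [Real.norm_of_nonneg (by linarith), Real.norm_of_nonneg (by linarith)] at a1
  have h1 : (Lc A Y : ℝ) ≤ 2 * A * Real.log Y := by
    have := Nat.ceil_lt_add_one (show 0 ≤ A * Real.log Y by positivity)
    unfold Lc
    nlinarith
  refine ⟨h1, ?_⟩
  have h2 : 2 * A * Real.log Y ≤ Y / 4 := by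
    calc 2 * A * Real.log Y ≤ 2 * A * (1 / (8 * A) * Y) := by gcongr
      _ = Y / 4 := by field_simp; norm_num
  nlinarith

lemma Lc_ge {A : ℝ} {Y : ℕ} : A * Real.log Y ≤ (Lc A Y : ℝ) := Nat.le_ceil _

/-- the length of the resonator -/
lemma len_le {A c δ : ℝ} (hA : 1 ≤ A) (hc0 : 0 < c) (hc1 : c ≤ 1) (hc2 : 2 * A * c ≤ δ) :
    ∀ᶠ T : ℝ in atTop, ((Yc c T : ℝ) ^ (Yc c T * Lc A (Yc c T))) ≤ T ^ δ := by
  filter_upwards [Yc_le hc0 hc1, (Yc_tendsto hc0).eventually (Lc_le hA), eventually_ge_atTop 3,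
    log_log_large 1] with T h1 h2 h3 h4
  set Y := Yc c T with hY
  obtain ⟨h5, h6, h7⟩ := h1
  have hlY : 0 ≤ Real.log Y := Real.log_nonneg h7
  have hlT : 0 ≤ Real.log T := Real.log_nonneg (by linarith)
  rw [← Real.exp_log (show (0 : ℝ) < (Y : ℝ) ^ (Y * Lc A Y) by positivity),
    Real.rpow_def_of_pos (by linarith)]
  apply Real.exp_le_exp.mpr
  rw [Real.log_pow]
  push_cast
  calc (Y : ℝ) * Lc A Y * Real.log Y ≤ Y * (2 * A * Real.log Y) * Real.log Y := by
        gcongr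
        exact h2.1
    _ = 2 * A * (Y * Real.log Y ^ 2) := by ring
    _ ≤ 2 * A * (Y * Real.log (Real.log T) ^ 2) := by gcongr
    _ ≤ 2 * A * (c * Real.log T) := by gcongr
    _ = 2 * A * c * Real.log T := by ring
    _ ≤ δ * Real.log T := by gcongr
    _ = Real.log T * δ := by ring

/-- the loss -/
lemma loss_le {c η : ℝ} (hc0 : 0 < c) (hc1 : c ≤ 1) (hc2 : 2 * c ≤ η) :
    ∀ᶠ T : ℝ in atTop, ((Yc c T : ℝ) ^ (2 * Yc c T)) ≤
      Real.exp (η * (Real.log T / Real.log (Real.log T))) := by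
  filter_upwards [Yc_le hc0 hc1, eventually_ge_atTop 3, log_log_large 1] with T h1 h3 h4
  set Y := Yc c T with hY
  obtain ⟨h5, h6, h7⟩ := h1
  have hlY : 0 ≤ Real.log Y := Real.log_nonneg h7
  have hlT : 0 ≤ Real.log T := Real.log_nonneg (by linarith)
  rw [← Real.exp_log (show (0 : ℝ) < (Y : ℝ) ^ (2 * Y) by positivity)]
  apply Real.exp_le_exp.mpr
  rw [Real.log_pow]
  push_cast
  have h8 : (Y : ℝ) * Real.log (Real.log T) ≤ c * (Real.log T / Real.log (Real.log T)) := by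
    rw [← mul_div_assoc, le_div_iff₀ (by linarith)]
    calc (Y : ℝ) * Real.log (Real.log T) * Real.log (Real.log T) =
        (Y : ℝ) * Real.log (Real.log T) ^ 2 := by ring
      _ ≤ _ := h5
  calc 2 * (Y : ℝ) * Real.log Y ≤ 2 * (Y : ℝ) * Real.log (Real.log T) := by gcongr
    _ = 2 * (Y * Real.log (Real.log T)) := by ring
    _ ≤ 2 * (c * (Real.log T / Real.log (Real.log T))) := by gcongr
    _ = 2 * c * (Real.log T / Real.log (Real.log T)) := by ring
    _ ≤ _ := by gcongr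

lemma exp_le_pow {a : ℝ} (ha : 0 < a) : ∀ᶠ T : ℝ in atTop,
    Real.exp (Real.log T / Real.log (Real.log T)) ≤ T ^ a := by
  filter_upwards [log_log_large (1 / a), eventually_ge_atTop 3] with T h1 h2
  rw [Real.rpow_def_of_pos (by linarith)]
  apply Real.exp_le_exp.mpr
  have hlT : 0 ≤ Real.log T := Real.log_nonneg (by linarith)
  have h3 : 0 < 1 / a := by positivity
  rw [div_le_iff₀ (by linarith)]
  calc Real.log T = Real.log T * (a * (1 / a)) := by
        rw [mul_one_div_cancel ha.ne', mul_one]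
    _ ≤ Real.log T * (a * Real.log (Real.log T)) := by gcongr
    _ = _ := by ring

end Run7.h751.KS
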