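import Pool.Agent.Run7.h751.KS.Mul
import Pool.Agent.Run7.h751.KS.Coef
import Pool.Agent.Run7.h751.KS.Par

/-!
# The resonator with prescribed phases
-/

set_option autoImplicit false

open Finset
open scoped ComplexConjugate

namespace Run7.h751.KS

open Pool.Agent.N802

/-- the exponent at `p` -/
def Kp (Y L p : ℕ) : ℕ := L * (Y / p)

lemma Kp_le (Y L p : ℕ) : Kp Y L p ≤ L * Y := Nat.mul_le_mul_left _ (Nat.div_le_self _ _)

lemma md_dvd (Y L : ℕ) {P : Finset ℕ} (hP : P ⊆ PY Y) : md P (Kp Y L) ≤ Y ^ (Y * L) := by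
  have h1 : ∏ p ∈ P, p ^ (Y / p) ∣ Y.factorial := by
    refine Finset.prod_dvd_of_isRelPrime ?_ ?_
    · intro p hp q hq hpq
      show IsRelPrime (p ^ (Y / p)) (q ^ (Y / q))
      rw [← Nat.coprime_iff_isRelPrime]
      exact Nat.Coprime.pow _ _ ((Nat.coprime_primes (PY_prime (hP hp)) (PY_prime (hP hq))).mpr
        hpq)
    · intro p hp
      have hpp := PY_prime (hP hp)
      rw [hpp.pow_dvd_factorial_iff (b := Y + 2) (by
        have := Nat.log_le_self p Y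
        omega)]
      have : Y / p = Y / p ^ 1 := by rw [pow_one]
      rw [this]
      exact single_le_sum (f := fun i => Y / p ^ i) (fun _ _ => Nat.zero_le _)
        (by rw [mem_Ico]; omega)
  have h2 : md P (Kp Y L) = (∏ p ∈ P, p ^ (Y / p)) ^ L := by
    unfold md Kp
    rw [← prod_pow]
    refine prod_congr rfl fun p _ => ?_
    rw [← pow_mul, mul_comm]
  rw [h2, pow_mul]
  exact Nat.pow_le_pow_left ((Nat.le_of_dvd (Nat.factorial_pos _) h1).trans
    (Nat.factorial_le_pow Y)) L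

lemma four_le (K : ℕ) : (4 : ℝ) ^ K ≤ (2 * K + 1) * Nat.centralBinom K := by
  have h := Nat.four_pow_le_two_mul_add_one_mul_central_binom K
  exact_mod_cast h

lemma cB_pos (K : ℕ) : (0 : ℝ) < Nat.centralBinom K := by
  exact_mod_cast Nat.centralBinom_pos K

/-- the loss between the maximum and the mean square -/
lemma prod_four (Y L : ℕ) : ∏ p ∈ PY Y, (4 : ℝ) ^ Kp Y L p ≤
    (2 * (L : ℝ) * Y + 1) ^ Y * ∏ p ∈ PY Y, (Nat.centralBinom (Kp Y L p) : ℝ) := by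
  calc ∏ p ∈ PY Y, (4 : ℝ) ^ Kp Y L p
      ≤ ∏ p ∈ PY Y, ((2 * (L : ℝ) * Y + 1) * (Nat.centralBinom (Kp Y L p) : ℝ)) := by
        refine prod_le_prod (fun _ _ => by positivity) fun p _ => ?_
        refine (four_le _).trans ?_
        have h1 : (Kp Y L p : ℝ) ≤ L * Y := by exact_mod_cast Kp_le Y L p
        have h2 := (cB_pos (Kp Y L p)).le
        refine mul_le_mul_of_nonneg_right ?_ h2
        linarith
    _ = (2 * (L : ℝ) * Y + 1) ^ (PY Y).card * ∏ p ∈ PY Y, (Nat.centralBinom (Kp Y L p) : ℝ) := by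
        rw [prod_mul_distrib, prod_const]
    _ ≤ _ := by
        have h0 : 0 ≤ ∏ p ∈ PY Y, (Nat.centralBinom (Kp Y L p) : ℝ) :=
          prod_nonneg fun p _ => (cB_pos _).le
        refine mul_le_mul_of_nonneg_right ?_ h0
        refine pow_le_pow_right₀ ?_ (PY_card Y)
        have : (0 : ℝ) ≤ 2 * (L : ℝ) * Y := by positivity
        linarith

lemma par (z u : ℂ) (hz : ‖z‖ = 1) (hu : ‖u‖ = 1) : ‖1 + conj z * u‖ ^ 2 = 4 - ‖u - z‖ ^ 2 := by
  have h1 : ‖1 + conj z * u‖ = ‖z + u‖ := by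
    have : z * (1 + conj z * u) = z + u := by
      have h2 : z * conj z = 1 := by
        rw [Complex.mul_conj, Complex.normSq_eq_norm_sq, hz]
        norm_num
      calc z * (1 + conj z * u) = z + (z * conj z) * u := by ring
        _ = z + u := by rw [h2, one_mul]
    rw [← this, norm_mul, hz, one_mul]
  have h2 := parallelogram_law_with_norm ℝ u z
  rw [hz, hu] at h2
  rw [h1, add_comm z u]
  nlinarith [h2]

lemma par_le (z u : ℂ) (hz : ‖z‖ = 1) (hu : ‖u‖ = 1) : ‖1 + conj z * u‖ ^ 2 ≤ 4 := by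
  rw [par z u hz hu]
  nlinarith [sq_nonneg ‖u - z‖]

/-- the bad set of a prime has small mass -/
lemma bad {Y L p : ℕ} (hp : p ∈ PY Y) {η : ℝ} (hη0 : 0 < η) 
    (hL : 32 / η ^ 2 * Real.log Y ≤ L) (hL2 : 2 * (L : ℝ) * Y + 1 ≤ (Y : ℝ) ^ 2) {z u : ℂ}
    (hz : ‖z‖ = 1) (hu : ‖u‖ = 1) (hb : η * √((p : ℝ) / Y) < ‖u - z‖) :
    (‖1 + conj z * u‖ ^ 2) ^ Kp Y L p ≤ (Nat.centralBinom (Kp Y L p) : ℝ) / (Y : ℝ) ^ 2 := by
  have hpp := PY_prime hp
  have hpY : p ≤ Y := (mem_Icc.mp (mem_filter.mp hp).1).2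
  have hY1 : 1 ≤ Y := hpp.one_lt.le.trans hpY
  have hY0 : (0 : ℝ) < Y := by exact_mod_cast hY1
  have hp0 : (0 : ℝ) < p := by exact_mod_cast hpp.pos
  set K := Kp Y L p with hK
  -- the exponent
  have hpK : (L : ℝ) * Y / 2 ≤ p * K := by
    have h1 : Y ≤ 2 * (p * (Y / p)) := by
      have h2 := Nat.div_add_mod Y p
      have h3 := Nat.mod_lt Y hpp.pos
      have h4 : p * 1 ≤ p * (Y / p) := Nat.mul_le_mul_left _ (Nat.div_pos hpY hpp.pos)
      omega
    have h2 : (Y : ℝ) ≤ 2 * (p * ((Y / p : ℕ) : ℝ)) := by exact_mod_cast h1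
    rw [hK]
    unfold Kp
    push_cast
    have h3 : (0 : ℝ) ≤ L := Nat.cast_nonneg _
    nlinarith
  have hsq : η ^ 2 * (p / Y) ≤ ‖u - z‖ ^ 2 := by
    have h1 : 0 ≤ η * √((p : ℝ) / Y) := by positivity
    have h2 : (η * √((p : ℝ) / Y)) ^ 2 = η ^ 2 * (p / Y) := by
      rw [mul_pow, Real.sq_sqrt (by positivity)]
    rw [← h2]
    gcongr
  have h4 : ‖1 + conj z * u‖ ^ 2 ≤ 4 * Real.exp (-(η ^ 2 * (p / Y) / 4)) := by
    rw [par z u hz hu]
    have := Real.add_one_le_exp (-(η ^ 2 * (p / Y) / 4))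
    linarith
  have h5 : (‖1 + conj z * u‖ ^ 2) ^ K ≤ 4 ^ K * Real.exp (-(K * (η ^ 2 * (p / Y) / 4))) := by
    calc (‖1 + conj z * u‖ ^ 2) ^ K ≤ (4 * Real.exp (-(η ^ 2 * (p / Y) / 4))) ^ K := by gcongr
      _ = _ := by rw [mul_pow, ← Real.exp_nat_mul]; ring_nf
  have h6 : Real.exp (-(K * (η ^ 2 * (p / Y) / 4))) ≤ 1 / (Y : ℝ) ^ 4 := by
    have h7 : 4 * Real.log Y ≤ K * (η ^ 2 * (p / Y) / 4) := by
      have h8 : (K : ℝ) * (η ^ 2 * (p / Y) / 4) = η ^ 2 / (4 * Y) * (p * K) := by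
        field_simp
      rw [h8]
      calc 4 * Real.log Y = η ^ 2 / 8 * (32 / η ^ 2 * Real.log Y) := by field_simp; ring
        _ ≤ η ^ 2 / 8 * L := by gcongr
        _ = η ^ 2 / (4 * Y) * (L * Y / 2) := by field_simp; ring
        _ ≤ _ := by gcongr
    calc Real.exp (-(K * (η ^ 2 * (p / Y) / 4))) ≤ Real.exp (-(4 * Real.log Y)) :=
          Real.exp_le_exp.mpr (by linarith)
      _ = 1 / (Y : ℝ) ^ 4 := by
          rw [Real.exp_neg, show (4 : ℝ) * Real.log Y = ((4 : ℕ) : ℝ) * Real.log Y by norm_num,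
            Real.exp_nat_mul, Real.exp_log hY0, one_div]
  calc (‖1 + conj z * u‖ ^ 2) ^ K ≤ 4 ^ K * Real.exp (-(K * (η ^ 2 * (p / Y) / 4))) := h5
    _ ≤ ((2 * K + 1) * Nat.centralBinom K) * (1 / (Y : ℝ) ^ 4) := by
        have := four_le K
        gcongr
    _ ≤ ((Y : ℝ) ^ 2 * Nat.centralBinom K) * (1 / (Y : ℝ) ^ 4) := by
        have h9 : (K : ℝ) ≤ L * Y := by exact_mod_cast Kp_le Y L p
        have := (cB_pos K).le
        gcongr
        linarith
    _ = _ := by field_simp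

end Run7.h751.KS
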