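import Pool.Agent.Run7.h751.KS.Res
import Pool.Agent.Run7.h751.KS.MS1

/-!
# The sum over the rough integers as a Dirichlet polynomial
-/

set_option autoImplicit false

open Finset

namespace Run7.h751.KS

open Pool.Agent.N802

lemma rough_gt {Y z m : ℕ} (h : m ∈ rough Y z) : Y < m ∧ m ≤ z := by
  unfold rough at h
  rw [mem_filter, mem_Icc] at h
  refine ⟨?_, h.1.2⟩
  by_contra hc
  push Not at hc
  have h1 : m ≠ 1 := by omega
  have h2 := Nat.minFac_prime h1
  have h3 := Nat.minFac_dvd m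
  have h4 : m.minFac ≤ Y := (Nat.minFac_le (by omega)).trans hc
  have h5 : m.minFac ∣ PP Y := dvd_prod_of_mem _ (by
    unfold PY
    rw [mem_filter, mem_Icc]
    exact ⟨⟨h2.pos, h4⟩, h2⟩)
  have h6 := Nat.dvd_gcd h3 h5
  have h7 : Nat.gcd m (PP Y) = 1 := h.2
  rw [h7] at h6
  exact h2.one_lt.ne' (Nat.dvd_one.mp h6)

/-- the coefficients `1 / m` -/
noncomputable def inv1 (m : ℕ) : ℂ := 1 / (m : ℂ)

lemma w1_rough {Y z : ℕ} (hY : 1 ≤ Y) : w1 (rough Y z) inv1 ≤ 1 / (Y : ℝ) := by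
  unfold w1
  by_cases hz : Y ≤ z
  · calc ∑ k ∈ rough Y z, ‖inv1 k‖ ^ 2 = ∑ k ∈ rough Y z, ((k : ℝ) ^ 2)⁻¹ := by
          refine sum_congr rfl fun k _ => ?_
          unfold inv1
          rw [norm_div, norm_one, Complex.norm_natCast, div_pow, one_pow, one_div]
      _ ≤ ∑ k ∈ Ioc Y z, ((k : ℝ) ^ 2)⁻¹ := by
          refine sum_le_sum_of_subset_of_nonneg ?_ fun _ _ _ => by positivity
          intro k hk
          rw [mem_Ioc]
          exact rough_gt hk
      _ ≤ (Y : ℝ)⁻¹ - (z : ℝ)⁻¹ := sum_Ioc_inv_sq_le_sub (by omega) hz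
      _ ≤ 1 / (Y : ℝ) := by
          have : (0 : ℝ) ≤ (z : ℝ)⁻¹ := by positivity
          rw [one_div]
          linarith
  · have : rough Y z = ∅ := by
      refine eq_empty_of_forall_notMem fun m hm => ?_
      have := rough_gt hm
      omega
    rw [this, sum_empty]
    positivity

lemma ph_cpow {m : ℕ} (hm : 1 ≤ m) (t : ℝ) : (m : ℂ) ^ (-(pt 1 t)) = inv1 m * ph m t := by
  have hm0 : (m : ℂ) ≠ 0 := by exact_mod_cast (by omega : m ≠ 0)
  have hm1 : (0 : ℝ) < m := by exact_mod_cast hm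
  unfold inv1 ph mn pt
  rw [Complex.cpow_def_of_ne_zero hm0, ← Complex.natCast_log, Nat.cast_one, Real.log_one]
  have e : (1 : ℂ) / (m : ℂ) = Complex.exp (((-Real.log m : ℝ) : ℂ)) := by
    rw [← Complex.ofReal_exp, Real.exp_neg, Real.exp_log hm1]
    push_cast
    rw [one_div]
  rw [e, ← Complex.exp_add]
  congr 1
  push_cast
  ring

lemma As_eq (Y z : ℕ) (t : ℝ) : As Y z (pt 1 t) = RP (rough Y z) inv1 t := by
  rw [RP_eq]
  unfold As
  refine sum_congr rfl fun m hm => ?_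
  exact ph_cpow (by have := rough_gt hm; omega) t

lemma rough_coprime {Y z m : ℕ} (h : m ∈ rough Y z) {P : Finset ℕ} (hP : P ⊆ PY Y) (K : ℕ → ℕ) :
    Nat.Coprime (md P K) m := by
  unfold rough at h
  rw [mem_filter] at h
  unfold md
  refine Nat.Coprime.prod_left fun p hp => Nat.Coprime.pow_left _ ?_
  refine Nat.Coprime.coprime_dvd_left (dvd_prod_of_mem _ (hP hp) : p ∣ PP Y) ?_
  exact h.2.symm

end Run7.h751.KS
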